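import Mathlib
import Pool.Agent.LibPol19.Defs

/-! # Hamiltonian tetrahedralizations of simple polytopes: definitions -/

set_option autoImplicit false

namespace Pool.Agent.LibTet88

open Finset Pool.Agent.LibPol19
open scoped Classical

variable {d : ℕ}

/-- the convex hull of a finite set of points -/
abbrev hl (A : Finset (Ed d)) : Set (Ed d) := convexHull ℝ (A : Set (Ed d))

/-! ## Polygons -/

/-- the vertex set of a convex polygon -/
def Poly (F : Finset (Ed d)) : Prop := IsVert F ∧ dm F = 2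

/-- the edges of a polygon or a polytope, as sets of two vertices -/
noncomputable def edg (F : Finset (Ed d)) : Finset (Finset (Ed d)) :=
  (F.powersetCard 2).filter fun e => IsFace F e

/-- an ear: a vertex `v` of a polygon with at least four vertices, and its neighbours `a`, `b` -/
structure Ear (F : Finset (Ed d)) (v a b : Ed d) : Prop where
  hv : v ∈ F
  ha : a ∈ F
  hb : b ∈ F
  va : v ≠ a
  vb : v ≠ b
  ab : a ≠ b
  eva : ({v, a} : Finset (Ed d)) ∈ edg F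
  evb : ({v, b} : Finset (Ed d)) ∈ edg F
  nab : ({a, b} : Finset (Ed d)) ∉ edg F
  only : ∀ e ∈ edg F, v ∈ e → e = {v, a} ∨ e = {v, b}
  poly : Poly (F.erase v)
  edges : ∀ e, e ∈ edg (F.erase v) ↔ (e ∈ edg F ∧ v ∉ e) ∨ e = {a, b}

/-- triangulations of a convex polygon -/
structure Tri (F : Finset (Ed d)) (T : Finset (Finset (Ed d))) : Prop where
  sub : ∀ t ∈ T, t ⊆ F ∧ t.card = 3
  cover : hl F ⊆ ⋃ t ∈ T, hl t
  inter : ∀ t ∈ T, ∀ u ∈ T, hl t ∩ hl u ⊆ hl (t ∩ u)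
  edge : ∀ e ∈ edg F, (T.filter fun t => e ⊆ t).card = 1
  two : ∀ e : Finset (Ed d), e.card = 2 → (T.filter fun t => e ⊆ t).card ≤ 2

/-- two marked sides of a common triangle -/
def Lk (Y T : Finset (Finset (Ed d))) (e e' : Finset (Ed d)) : Prop :=
  ∃ t ∈ T, e ∈ Y ∧ e' ∈ Y ∧ e ⊆ t ∧ e' ⊆ t

/-- a triangulation with a set `Y` of marked sides, such that every triangle has exactly two marked
sides and exactly the edges in `X` of the polygon are marked -/
structure Mark (F : Finset (Ed d)) (X Y T : Finset (Finset (Ed d))) : Prop where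
  tri : Tri F T
  ysub : ∀ e ∈ Y, e ⊆ F ∧ e.card = 2
  yedge : ∀ e ∈ edg F, e ∈ Y ↔ e ∈ X
  ycov : ∀ e ∈ Y, ∃ t ∈ T, e ⊆ t
  deg : ∀ t ∈ T, (Y.filter fun e => e ⊆ t).card = 2
  par : ∀ K : Finset (Ed d) → Prop, (∀ e e', Lk Y T e e' → K e → K e') → Even (X.filter K).card

/-- no class of `r` on `X` is a singleton -/
def NoSing (X : Finset (Finset (Ed d))) (r : Finset (Ed d) → Finset (Ed d) → Prop) : Prop :=
  ∀ e ∈ X, ∃ e' ∈ X, e' ≠ e ∧ r e e'

/-- the conclusion of the polygon theorem -/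
def Gd (F : Finset (Ed d)) (X : Finset (Finset (Ed d))) (r : Finset (Ed d) → Finset (Ed d) → Prop) : Prop :=
  ∃ Y T, Mark F X Y T ∧ ∀ e ∈ Y, ∀ e' ∈ Y, Relation.EqvGen (fun p q => r p q ∨ Lk Y T p q) e e'

/-! ## Simple polytopes of dimension three -/

/-- simple 3-polytopes -/
structure Simp (V : Finset (Ed 3)) : Prop where
  vert : IsVert V
  full : Full V
  simple : ∀ v ∈ V, (nb V v).card = 3

/-- facets -/
def Fct (V F : Finset (Ed 3)) : Prop := IsFace V F ∧ dm F = 2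

/-- the facets not containing `w` -/
noncomputable def Fw (V : Finset (Ed 3)) (w : Ed 3) : Finset (Finset (Ed 3)) :=
  V.powerset.filter fun F => Fct V F ∧ w ∉ F

/-- the members of `Γ` contained in `F` -/
noncomputable def xs (Γ : Finset (Finset (Ed 3))) (F : Finset (Ed 3)) : Finset (Finset (Ed 3)) :=
  Γ.filter fun e => e ⊆ F

/-- a spanning trail in the graph of the facets not containing `w`, with its two ends `g`, `g'` -/
structure Trail (V : Finset (Ed 3)) (w : Ed 3) (Γ : Finset (Finset (Ed 3))) (g g' : Finset (Ed 3)) : Prop where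
  edge : ∀ e ∈ Γ, e ∈ edg V
  two : ∀ e ∈ Γ, e ≠ g → e ≠ g' → ((Fw V w).filter fun F => e ⊆ F).card = 2
  one : ((Fw V w).filter fun F => g ⊆ F).card = 1
  one' : ((Fw V w).filter fun F => g' ⊆ F).card = 1
  hg : g ∈ Γ
  hg' : g' ∈ Γ
  hne : g ≠ g'
  even : ∀ F ∈ Fw V w, Even (xs Γ F).card
  nonempty : ∀ F ∈ Fw V w, (xs Γ F).Nonempty
  conn : ∀ e ∈ Γ, ∀ e' ∈ Γ,
    Relation.EqvGen (fun a b => ∃ F ∈ Fw V w, a ∈ xs Γ F ∧ b ∈ xs Γ F) e e'

/-- the links at a stage: the facets in `S` are triangulated, the others still connect all their edges -/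
def Rl (V : Finset (Ed 3)) (w : Ed 3) (Γ : Finset (Finset (Ed 3))) (g g' : Finset (Ed 3))
    (S : Finset (Finset (Ed 3))) (Y T : Finset (Ed 3) → Finset (Finset (Ed 3))) (a b : Finset (Ed 3)) : Prop :=
  (∃ F ∈ S, Lk (Y F) (T F) a b) ∨ (∃ F ∈ Fw V w, F ∉ S ∧ a ∈ xs Γ F ∧ b ∈ xs Γ F) ∨ (a = g ∧ b = g')

/-- the facets in `S` can be triangulated keeping the connection -/
def St (V : Finset (Ed 3)) (w : Ed 3) (Γ : Finset (Finset (Ed 3))) (g g' : Finset (Ed 3))
    (S : Finset (Finset (Ed 3))) : Prop :=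
  ∃ Y T : Finset (Ed 3) → Finset (Finset (Ed 3)), (∀ F ∈ S, Mark F (xs Γ F) (Y F) (T F)) ∧
    ∀ a b, (a ∈ Γ ∨ ∃ F ∈ S, a ∈ Y F) → (b ∈ Γ ∨ ∃ F ∈ S, b ∈ Y F) →
      Relation.EqvGen (Rl V w Γ g g' S Y T) a b

/-- all facets not containing `w` are triangulated and all marked sides are connected -/
structure Fin3 (V : Finset (Ed 3)) (w : Ed 3) (Γ : Finset (Finset (Ed 3)))
    (Y T : Finset (Ed 3) → Finset (Finset (Ed 3))) : Prop where
  mark : ∀ F ∈ Fw V w, Mark F (xs Γ F) (Y F) (T F)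
  conn : ∀ F ∈ Fw V w, ∀ F' ∈ Fw V w, ∀ a ∈ Y F, ∀ b ∈ Y F',
    Relation.EqvGen (fun a b => ∃ F ∈ Fw V w, Lk (Y F) (T F) a b) a b

/-! ## The graph of the facets not containing `w` -/

/-- `x` lies on a facet through `w` -/
def Bd (V : Finset (Ed 3)) (w x : Ed 3) : Prop := ∃ A, Fct V A ∧ w ∈ A ∧ x ∈ A

/-- the edges not contained in a facet through `w` -/
noncomputable def Est (V : Finset (Ed 3)) (w : Ed 3) : Finset (Finset (Ed 3)) :=
  (edg V).filter fun e => ∀ A, Fct V A → w ∈ A → ¬ e ⊆ A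

/-- a boundary edge of `s`: an edge of `s` contained in a facet through `w` -/
def Bg (V : Finset (Ed 3)) (w : Ed 3) (s g : Finset (Ed 3)) : Prop :=
  g ∈ edg V ∧ w ∉ g ∧ g ⊆ s ∧ ∃ A, Fct V A ∧ w ∈ A ∧ g ⊆ A

/-- `e` separates `s` from `t` in the graph of the facets not containing `w` -/
def Sep (V : Finset (Ed 3)) (w : Ed 3) (s t e : Finset (Ed 3)) : Prop :=
  ∃ Q : Finset (Ed 3) → Prop, Q s ∧ ¬ Q t ∧ ∀ F ∈ Fw V w, ∀ F' ∈ Fw V w, Q F → ¬ Q F' →
    ∀ e' ∈ Est V w, e' ⊆ F → e' ⊆ F' → e' = e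

/-- the degrees of `Γ` are odd exactly at `s` and `t` (if `s ≠ t`), or all even (if `s = t`) -/
def Odd2 (V : Finset (Ed 3)) (w : Ed 3) (s t : Finset (Ed 3)) (Γ : Finset (Finset (Ed 3))) : Prop :=
  Γ ⊆ Est V w ∧ ∀ F ∈ Fw V w, Even ((xs Γ F).card + (if F = s then 1 else 0) + (if F = t then 1 else 0))

/-- adjacency of facets not containing `w` through an edge in `Γ` -/
def Fa (V : Finset (Ed 3)) (w : Ed 3) (Γ : Finset (Finset (Ed 3))) (F F' : Finset (Ed 3)) : Prop :=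
  F ∈ Fw V w ∧ F' ∈ Fw V w ∧ ∃ e ∈ Γ, e ⊆ F ∧ e ⊆ F'

/-- a chord `xy` between the facets `A`, `B` through `w`; the plane `h = h w` through `w`, `x`, `y`;
the common neighbour `n` of `w` in `A` and `B` is on the positive side -/
structure Chd (V : Finset (Ed 3)) (w : Ed 3) (A B : Finset (Ed 3)) (x y n : Ed 3) (h : Ed 3 →ₗ[ℝ] ℝ) : Prop where
  fA : Fct V A
  fB : Fct V B
  wA : w ∈ A
  wB : w ∈ B
  AB : A ≠ B
  hn : A ∩ B = {w, n}
  wn : w ≠ n
  xA : x ∈ A
  yB : y ∈ B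
  adj : Adj V x y
  no : ∀ C, Fct V C → w ∈ C → x ∈ C → y ∈ C → False
  hx : h x = h w
  hy : h y = h w
  pos : h w < h n
  cut : ∀ p ∈ hl V, h p = h w → p ∈ hl ({w, x, y} : Finset (Ed 3))

/-- an apex all of whose chords are between `A` and `B` -/
structure Apex (V : Finset (Ed 3)) (w : Ed 3) (A B : Finset (Ed 3)) (n : Ed 3) : Prop where
  hw : w ∈ V
  fA : Fct V A
  fB : Fct V B
  wA : w ∈ A
  wB : w ∈ B
  AB : A ≠ B
  hn : A ∩ B = {w, n}
  wn : w ≠ n
  chd : ∀ A' B' x y n' h, Chd V w A' B' x y n' h → (A' = A ∧ B' = B) ∨ (A' = B ∧ B' = A)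

end Pool.Agent.LibTet88
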