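import Mathlib
import Pool.Agent.LibPol19.G03
import Pool.Agent.LibTet88.Defs

/-! # Convex hulls of finite sets: basic lemmas -/

set_option autoImplicit false

namespace Pool.Agent.LibTet88

open Finset Pool.Agent.LibPol19
open scoped Classical

variable {d : ℕ}

theorem hl_mono {A B : Finset (Ed d)} (h : A ⊆ B) : hl A ⊆ hl B :=
  convexHull_mono (by exact_mod_cast h)

theorem mem_hl {A : Finset (Ed d)} {x : Ed d} (h : x ∈ A) : x ∈ hl A :=
  subset_convexHull ℝ _ (by exact_mod_cast h)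

theorem hl_single (x : Ed d) : hl ({x} : Finset (Ed d)) = {x} := by
  unfold hl
  rw [Finset.coe_singleton, convexHull_singleton]

theorem hl_empty : hl (∅ : Finset (Ed d)) = ∅ := by
  unfold hl
  rw [Finset.coe_empty, convexHull_empty]

/-- a linear functional bounded on `A` is bounded on its hull -/
theorem le_of_hl {A : Finset (Ed d)} (ℓ : Ed d →ₗ[ℝ] ℝ) {c : ℝ} (h : ∀ v ∈ A, ℓ v ≤ c) {p : Ed d}
    (hp : p ∈ hl A) : ℓ p ≤ c := by
  have h1 : hl A ⊆ {q | ℓ q ≤ c} := by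
    refine convexHull_min (fun v hv => h v (by exact_mod_cast hv)) ?_
    exact convex_halfSpace_le ℓ.isLinear c
  exact h1 hp

theorem ge_of_hl {A : Finset (Ed d)} (ℓ : Ed d →ₗ[ℝ] ℝ) {c : ℝ} (h : ∀ v ∈ A, c ≤ ℓ v) {p : Ed d}
    (hp : p ∈ hl A) : c ≤ ℓ p := by
  have h1 : hl A ⊆ {q | c ≤ ℓ q} := by
    refine convexHull_min (fun v hv => h v (by exact_mod_cast hv)) ?_
    exact convex_halfSpace_ge ℓ.isLinear c
  exact h1 hp

theorem eq_of_hl {A : Finset (Ed d)} (ℓ : Ed d →ₗ[ℝ] ℝ) {c : ℝ} (h : ∀ v ∈ A, ℓ v = c) {p : Ed d}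
    (hp : p ∈ hl A) : ℓ p = c :=
  le_antisymm (le_of_hl ℓ (fun v hv => (h v hv).le) hp) (ge_of_hl ℓ (fun v hv => (h v hv).ge) hp)

/-- a point of the hull of `A` where a linear functional attains its upper bound on `A` lies in the
hull of the points where it is attained -/
theorem hl_filter {A : Finset (Ed d)} (ℓ : Ed d →ₗ[ℝ] ℝ) {c : ℝ} (h : ∀ v ∈ A, ℓ v ≤ c) {p : Ed d}
    (hp : p ∈ hl A) (hc : ℓ p = c) : p ∈ hl (A.filter fun v => ℓ v = c) := by
  unfold hl at hp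
  rw [Finset.mem_convexHull'] at hp
  obtain ⟨w, hw0, hw1, hwp⟩ := hp
  have h1 : ∑ y ∈ A, w y * (c - ℓ y) = 0 := by
    have h2 : ∑ y ∈ A, w y * ℓ y = c := by
      have h3 : ℓ (∑ y ∈ A, w y • y) = ∑ y ∈ A, w y * ℓ y := by
        rw [map_sum]
        exact Finset.sum_congr rfl fun y _ => by rw [map_smul, smul_eq_mul]
      rw [← h3, hwp, hc]
    simp only [mul_sub]
    rw [Finset.sum_sub_distrib, ← Finset.sum_mul, hw1, h2]
    ring
  have h2 : ∀ y ∈ A, w y * (c - ℓ y) = 0 := by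
    rw [Finset.sum_eq_zero_iff_of_nonneg (fun y hy => mul_nonneg (hw0 y hy) (sub_nonneg.2 (h y hy)))] at h1
    exact h1
  have h3 : ∀ y ∈ A, ¬ ℓ y = c → w y = 0 := by
    intro y hy hyc
    rcases mul_eq_zero.1 (h2 y hy) with h4 | h4
    · exact h4
    · exact absurd (sub_eq_zero.1 h4).symm hyc
  unfold hl
  rw [Finset.mem_convexHull']
  refine ⟨w, fun y hy => hw0 y (Finset.mem_of_mem_filter y hy), ?_, ?_⟩
  · rw [← hw1, Finset.sum_filter]
    refine Finset.sum_congr rfl fun y hy => ?_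
    by_cases h4 : ℓ y = c
    · rw [if_pos h4]
    · rw [if_neg h4, h3 y hy h4]
  · rw [← hwp, Finset.sum_filter]
    refine Finset.sum_congr rfl fun y hy => ?_
    by_cases h4 : ℓ y = c
    · rw [if_pos h4]
    · rw [if_neg h4, h3 y hy h4, zero_smul]

/-- a point of the hull of `t` lying in the hull of a face `A` lies in the hull of `t ∩ A` -/
theorem hl_face {V A t : Finset (Ed d)} (hA : IsFace V A) (ht : t ⊆ V) {p : Ed d} (hp : p ∈ hl t)
    (hpA : p ∈ hl A) : p ∈ hl (t ∩ A) := by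
  obtain ⟨-, hAV, ℓ, c, hℓ⟩ := hA
  have h1 : ℓ p = c := eq_of_hl ℓ (fun v hv => ((hℓ v (hAV hv)).2).2 hv) hpA
  refine hl_mono ?_ (hl_filter ℓ (fun v hv => (hℓ v (ht hv)).1) hp h1)
  intro v hv
  rw [Finset.mem_filter] at hv
  exact Finset.mem_inter.2 ⟨hv.1, ((hℓ v (ht hv.1)).2).1 hv.2⟩

/-- a vertex in the hull of a set of vertices belongs to the set -/
theorem vert_hl {V A : Finset (Ed d)} (hV : IsVert V) (hA : A ⊆ V) {x : Ed d} (hx : x ∈ V)
    (h : x ∈ hl A) : x ∈ A := by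
  have h1 := hl_face (face_single hV hx) hA h (mem_hl (Finset.mem_singleton_self x))
  by_contra h2
  rw [Finset.inter_singleton_of_notMem h2, hl_empty] at h1
  exact h1

/-- a segment crossing a plane -/
theorem cross (h : Ed d →ₗ[ℝ] ℝ) {c : ℝ} {u v : Ed d} (hu : h u < c) (hv : c < h v) :
    ∃ θ : ℝ, 0 < θ ∧ θ < 1 ∧ h ((1 - θ) • u + θ • v) = c ∧
      (1 - θ) • u + θ • v ∈ hl ({u, v} : Finset (Ed d)) := by
  have h1 : 0 < h v - h u := by linarith
  refine ⟨(c - h u) / (h v - h u), div_pos (by linarith) h1, (div_lt_one h1).2 (by linarith), ?_, ?_⟩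
  · rw [map_add, map_smul, map_smul, smul_eq_mul, smul_eq_mul]
    field_simp
    ring
  · have h2 : (c - h u) / (h v - h u) < 1 := (div_lt_one h1).2 (by linarith)
    have h3 : 0 < (c - h u) / (h v - h u) := div_pos (by linarith) h1
    refine (convex_convexHull ℝ _) (mem_hl (Finset.mem_insert_self _ _))
      (mem_hl (Finset.mem_insert_of_mem (Finset.mem_singleton_self _))) (by linarith) h3.le (by ring)

/-- points of a cone over a convex hull -/
theorem mem_hl_insert {t : Finset (Ed d)} {w p : Ed d} (ht : t.Nonempty) (hp : p ∈ hl (insert w t)) :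
    ∃ q ∈ hl t, ∃ s : ℝ, 0 ≤ s ∧ s ≤ 1 ∧ p = w + s • (q - w) := by
  unfold hl at hp
  rw [Finset.coe_insert, convexHull_insert (by exact_mod_cast ht), convexJoin_singleton_left] at hp
  rw [Set.mem_iUnion₂] at hp
  obtain ⟨q, hq, hp⟩ := hp
  refine ⟨q, hq, ?_⟩
  rw [segment_eq_image_lineMap] at hp
  obtain ⟨s, hs, rfl⟩ := hp
  exact ⟨s, hs.1, hs.2, by rw [AffineMap.lineMap_apply, vsub_eq_sub, vadd_eq_add, add_comm]⟩

theorem hl_insert_mem {t : Finset (Ed d)} {w q : Ed d} (hq : q ∈ hl t) {s : ℝ} (h0 : 0 ≤ s) (h1 : s ≤ 1) :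
    w + s • (q - w) ∈ hl (insert w t) := by
  have h2 : w + s • (q - w) = (1 - s) • w + s • q := by
    rw [smul_sub, sub_smul, one_smul]; abel
  rw [h2]
  exact (convex_convexHull ℝ _) (mem_hl (Finset.mem_insert_self _ _))
    (hl_mono (Finset.subset_insert _ _) hq) (by linarith) h0 (by ring)

theorem mem_edg {F : Finset (Ed d)} {e : Finset (Ed d)} :
    e ∈ edg F ↔ e ⊆ F ∧ e.card = 2 ∧ IsFace F e := by
  unfold edg
  rw [Finset.mem_filter, Finset.mem_powersetCard]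
  tauto

theorem pair_mem_edg {F : Finset (Ed d)} {x y : Ed d} : ({x, y} : Finset (Ed d)) ∈ edg F ↔ Adj F x y := by
  rw [mem_edg]
  constructor
  · rintro ⟨-, h1, h2⟩
    refine ⟨?_, h2⟩
    rintro rfl
    rw [Finset.pair_eq_singleton, Finset.card_singleton] at h1
    omega
  · rintro ⟨h1, h2⟩
    exact ⟨h2.2.1, Finset.card_pair h1, h2⟩

/-- an edge is a pair of adjacent vertices -/
theorem edg_pair {F : Finset (Ed d)} {e : Finset (Ed d)} (h : e ∈ edg F) :
    ∃ x y, e = {x, y} ∧ Adj F x y := by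
  obtain ⟨h1, h2, h3⟩ := mem_edg.1 h
  obtain ⟨x, y, hxy, rfl⟩ := Finset.card_eq_two.1 h2
  exact ⟨x, y, rfl, hxy, h3⟩

end Pool.Agent.LibTet88
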