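import Mathlib
import Pool.Agent.LibTet88.Basic
import Pool.Agent.LibPol19.T02

/-! Row Z2.
IsVert: for v ∈ S, v ∉ hl (S.erase v), closed and convex: geometric_hahn_banach_closed_point, exactly as in Pool/Agent/LibPol19/T01.lean. Full: direction_affineSpan, AffineSubspace.direction_top. Simple: for v ∈ S: (nb S v : set) = {u | u ∈ S ∧ u ≠ v ∧ IsExposed ℝ (convexHull ℝ S) (segment ℝ v u)}, then Set.ncard_coe_finset. u ∈ nb S v ↔ u ∈ S ∧ v ≠ u ∧ IsFace S {v, u}. IsFace S {v, u} → exposed segment: face_hull (T02; P := convexHull ℝ S), convexHull_pair. Exposed segment → IsFace S {v, u}: hull_face (T02) gives A with IsFace S A and segment = convexHull A; then A = {v, u}: v ∈ hl A so v ∈ A (vert_hl), u ∈ A, and z ∈ A lies in segment = hl {v, u}, so z ∈ {v, u} (vert_hl). (Compare P2_face in /workdir/pool/Pool/Agent/LibHP88/P2.lean if you have it.)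
-/

set_option autoImplicit false

namespace Pool.Agent.LibTet88

open Finset Pool.Agent.LibPol19
open scoped Classical

variable {d : ℕ}

theorem Z2_vert {S : Finset (Ed d)}
    (h2 : ∀ p ∈ S, p ∉ convexHull ℝ ((S.erase p : Finset (Ed d)) : Set (Ed d))) : IsVert S := by
  intro v hv
  have hcl : IsClosed (convexHull ℝ ((S.erase v : Finset (Ed d)) : Set (Ed d))) :=
    Set.Finite.isClosed_convexHull ℝ (S.erase v).finite_toSet
  obtain ⟨f, u, h3, h4⟩ := geometric_hahn_banach_closed_point
    (convex_convexHull ℝ ((S.erase v : Finset (Ed d)) : Set (Ed d))) hcl (h2 v hv)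
  refine ⟨f.toLinearMap, fun w hw hwv => ?_⟩
  exact (h3 w (subset_convexHull ℝ _ (by exact_mod_cast Finset.mem_erase.2 ⟨hwv, hw⟩))).trans h4

theorem Z2_pair (v u : Ed d) : hl ({v, u} : Finset (Ed d)) = segment ℝ v u := by
  unfold hl
  rw [Finset.coe_pair, convexHull_pair]

theorem Z2_face {S : Finset (Ed d)} (hS : IsVert S) {v u : Ed d} (hv : v ∈ S) (hu : u ∈ S) :
    IsExposed ℝ (convexHull ℝ (S : Set (Ed d))) (segment ℝ v u) ↔ IsFace S {v, u} := by
  constructor
  · intro h
    obtain ⟨A, hA, hAe⟩ := hull_face (V := S) (P := convexHull ℝ (S : Set (Ed d))) rfl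
      (F := segment ℝ v u) ⟨h, ⟨v, left_mem_segment ℝ v u⟩⟩
    have h1 : A = {v, u} := by
      have hAS := hA.2.1
      have hpS : ({v, u} : Finset (Ed d)) ⊆ S := by
        intro z hz
        rw [Finset.mem_insert, Finset.mem_singleton] at hz
        rcases hz with rfl | rfl
        · exact hv
        · exact hu
      apply Finset.Subset.antisymm
      · intro z hz
        refine vert_hl hS hpS (hAS hz) ?_
        rw [Z2_pair, hAe]
        exact mem_hl hz
      · intro z hz
        have hz' : z ∈ hl A := by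
          change z ∈ convexHull ℝ (A : Set (Ed d))
          rw [← hAe]
          rw [Finset.mem_insert, Finset.mem_singleton] at hz
          rcases hz with rfl | rfl
          · exact left_mem_segment ℝ _ _
          · exact right_mem_segment ℝ _ _
        exact vert_hl hS hAS (hpS hz) hz'
    rw [← h1]
    exact hA
  · intro h
    have h1 := (face_hull (V := S) (P := convexHull ℝ (S : Set (Ed d))) rfl h).1
    have h2 := Z2_pair v u
    unfold hl at h2
    rw [h2] at h1
    exact h1

/-- Z2: translation of the hypotheses -/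
theorem simp_of {S : Finset (Ed 3)} (h1 : affineSpan ℝ (S : Set (Ed 3)) = ⊤)
    (h2 : ∀ p ∈ S, p ∉ convexHull ℝ ((S.erase p : Finset (Ed 3)) : Set (Ed 3)))
    (h3 : ∀ v ∈ S, {u : Ed 3 | u ∈ S ∧ u ≠ v ∧ IsExposed ℝ (convexHull ℝ (S : Set (Ed 3))) (segment ℝ v u)}.ncard = 3) :
    Simp S := by
  have hS : IsVert S := Z2_vert h2
  refine ⟨hS, ?_, ?_⟩
  · unfold Full
    rw [← direction_affineSpan, h1, AffineSubspace.direction_top]
  · intro v hv
    refine Eq.trans ?_ (h3 v hv)
    rw [← Set.ncard_coe_finset]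
    congr 1
    ext u
    have hm : u ∈ nb S v ↔ u ∈ S ∧ Adj S v u := by
      unfold nb
      exact Finset.mem_filter
    rw [Finset.mem_coe, hm]
    constructor
    · rintro ⟨hu, hne, hf⟩
      exact ⟨hu, hne.symm, (Z2_face hS hv hu).2 hf⟩
    · rintro ⟨hu, hne, hf⟩
      exact ⟨hu, hne.symm, (Z2_face hS hv hu).1 hf⟩

end Pool.Agent.LibTet88
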