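import Mathlib
import Pool.Agent.LibTet88.Basic
import Pool.Agent.LibPol19.G08
import Pool.Agent.LibPol19.G13
import Pool.Agent.LibPol19.G14
import Pool.Agent.LibPol19.G15

/-! Row Q1.
(1) simple_face (G13) with I := (nb V v).erase a gives a face F ∋ v with nb V v ∩ F = I; simple_dm (G15): dm F = (nb V v ∩ F).card = 3 - 1 = 2. (2) (nb V v ∩ F).card = dm F = 2, a subset of nb V v of card 3: the difference nb V v \ F has one element a (card_sdiff / Finset.card_eq_one); nb V v ∩ F = (nb V v).erase a. (3) face_sub (G14): F ⊆ F'; if F ≠ F' then F ⊂ F' and dm_lt (G08) gives dm F < dm F', but both are 2.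
(hV.simple : (nb V v).card = 3.)
-/

set_option autoImplicit false

namespace Pool.Agent.LibTet88

open Finset Pool.Agent.LibPol19
open scoped Classical

variable {d : ℕ}

theorem Q1_mem_nb {V : Finset (Ed 3)} {v u : Ed 3} : u ∈ nb V v ↔ u ∈ V ∧ Adj V v u := by
  unfold nb
  rw [Finset.mem_filter]

/-- Q1: the facets at a vertex of a simple polytope -/
theorem fct_at {V : Finset (Ed 3)} (hV : Simp V) {v : Ed 3} (hv : v ∈ V) :
    (∀ a ∈ nb V v, ∃ F, Fct V F ∧ v ∈ F ∧ nb V v ∩ F = (nb V v).erase a) ∧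
    (∀ F, Fct V F → v ∈ F → ∃ a ∈ nb V v, nb V v ∩ F = (nb V v).erase a) ∧
    (∀ F F', Fct V F → Fct V F' → v ∈ F → v ∈ F' → nb V v ∩ F ⊆ F' → F = F') := by
  have h3 := hV.simple v hv
  refine ⟨?_, ?_, ?_⟩
  · intro a ha
    obtain ⟨F, hF, hvF, hI⟩ := simple_face hV.vert hV.full hv h3 (Finset.erase_subset a (nb V v))
    refine ⟨F, ⟨hF, ?_⟩, hvF, hI⟩
    rw [simple_dm hV.vert hV.full h3 hF hvF, hI, Finset.card_erase_of_mem ha, h3]
  · intro F hF hvF
    have h2 : (nb V v ∩ F).card = 2 := by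
      rw [← simple_dm hV.vert hV.full h3 hF.1 hvF, hF.2]
    have h4 : (nb V v \ F).card = 1 := by
      have := Finset.card_sdiff_add_card_inter (nb V v) F
      omega
    obtain ⟨a, ha⟩ := Finset.card_eq_one.1 h4
    have ha' : a ∈ nb V v \ F := by rw [ha]; exact Finset.mem_singleton_self a
    rw [Finset.mem_sdiff] at ha'
    refine ⟨a, ha'.1, ?_⟩
    ext u
    rw [Finset.mem_inter, Finset.mem_erase]
    constructor
    · rintro ⟨hu, huF⟩
      refine ⟨?_, hu⟩
      rintro rfl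
      exact ha'.2 huF
    · rintro ⟨hua, hu⟩
      refine ⟨hu, ?_⟩
      by_contra huF
      have : u ∈ nb V v \ F := Finset.mem_sdiff.2 ⟨hu, huF⟩
      rw [ha, Finset.mem_singleton] at this
      exact hua this
  · intro F F' hF hF' hvF hvF' hsub
    have h4 : F ⊆ F' := face_sub hV.vert hF.1 hF'.1 hvF hvF' hsub
    by_contra hne
    have h5 : F ⊂ F' := Finset.ssubset_iff_subset_ne.2 ⟨h4, hne⟩
    have h6 := dm_lt hF.1 h5 hF'.1.2.1
    rw [hF.2, hF'.2] at h6
    exact lt_irrefl _ h6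

end Pool.Agent.LibTet88
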