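import Mathlib
import Pool.Agent.LibTet88.Basic
import Pool.Agent.LibTet88.Q1
import Pool.Agent.LibPol19.G01
import Pool.Agent.LibPol19.G11

/-! Row Q2.
fct_inter: nb V v ∩ F = (nb V v).erase a, nb V v ∩ F' = (nb V v).erase a' (Q1); a ≠ a' (otherwise F = F' by the third part of Q1). The third neighbour u of v (nb V v = {a, a', u}) lies in both. two_inter (G11) for F, F', v, u: Adj V v u, and every z ∈ F ∩ F' is v or u: F ∩ F' = {v, u}; pair_mem_edg.
three_at: with a, a', u as above take for G the facet with nb V v ∩ G = (nb V v).erase u (Q1). G ≠ F (nb V v ∩ F = erase a contains u), G ≠ F'. A facet H ∋ v has nb V v ∩ H = erase z with z ∈ {a, a', u}: H = F, F' or G by the third part of Q1. F ∩ F' ∩ G: F ∩ F' = {v, u}, u ∉ G, v ∈ G: {v}.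
edge_two: e = {x, y}, Adj V x y (edg_pair), y ∈ nb V x = {y, p, q}. F with nb V x ∩ F = (nb V x).erase p, F' with erase q; they are different, both contain x and y, F ∩ F' = {x, u} by fct_inter, containing y ≠ x: u = y. If G is a facet containing x and y: nb V x ∩ G = erase z with z ≠ y: z = p or z = q: G = F or F'.
exists_fct: two different facets at a vertex: Q1 for two different neighbours.
-/

set_option autoImplicit false

namespace Pool.Agent.LibTet88

open Finset Pool.Agent.LibPol19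
open scoped Classical

variable {d : ℕ}

/-- the three neighbours of `v` with respect to two facets -/
theorem Q2_aux {V : Finset (Ed 3)} (hV : Simp V) {v : Ed 3} {F F' : Finset (Ed 3)} (hF : Fct V F) (hF' : Fct V F')
    (hne : F ≠ F') (hv : v ∈ F) (hv' : v ∈ F') : ∃ a a' u, a ≠ a' ∧ a ≠ u ∧ a' ≠ u ∧ nb V v = {a, a', u} ∧
      nb V v ∩ F = (nb V v).erase a ∧ nb V v ∩ F' = (nb V v).erase a' := by
  have hvV : v ∈ V := hF.1.2.1 hv
  obtain ⟨-, h2, h3⟩ := fct_at hV hvV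
  obtain ⟨a, ha, hFa⟩ := h2 F hF hv
  obtain ⟨a', ha', hFa'⟩ := h2 F' hF' hv'
  have haa : a ≠ a' := by
    rintro rfl
    apply hne
    apply h3 F F' hF hF' hv hv'
    rw [hFa, ← hFa']
    exact Finset.inter_subset_right
  have hcard := hV.simple v hvV
  have h4 : (((nb V v).erase a).erase a').card = 1 := by
    rw [Finset.card_erase_of_mem (Finset.mem_erase.2 ⟨haa.symm, ha'⟩), Finset.card_erase_of_mem ha, hcard]
  obtain ⟨u, hu⟩ := Finset.card_eq_one.1 h4
  have hu' : u ∈ ((nb V v).erase a).erase a' := by rw [hu]; exact Finset.mem_singleton_self u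
  rw [Finset.mem_erase, Finset.mem_erase] at hu'
  refine ⟨a, a', u, haa, fun h => hu'.2.1 h.symm, fun h => hu'.1 h.symm, ?_, hFa, hFa'⟩
  rw [← Finset.insert_erase ha, ← Finset.insert_erase (Finset.mem_erase.2 ⟨haa.symm, ha'⟩), hu]

/-- Q2: two facets through a vertex meet in an edge -/
theorem fct_inter {V : Finset (Ed 3)} (hV : Simp V) {v : Ed 3} {F F' : Finset (Ed 3)} (hF : Fct V F) (hF' : Fct V F')
    (hne : F ≠ F') (hv : v ∈ F) (hv' : v ∈ F') : ∃ u, v ≠ u ∧ F ∩ F' = {v, u} ∧ ({v, u} : Finset (Ed 3)) ∈ edg V := by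
  obtain ⟨a, a', u, haa, hau, hau', hnb, hFa, hFa'⟩ := Q2_aux hV hF hF' hne hv hv'
  have hu : u ∈ nb V v := by rw [hnb]; simp
  have huF : u ∈ F := by
    have h1 : u ∈ nb V v ∩ F := by rw [hFa]; exact Finset.mem_erase.2 ⟨hau.symm, hu⟩
    exact (Finset.mem_inter.1 h1).2
  have huF' : u ∈ F' := by
    have h1 : u ∈ nb V v ∩ F' := by rw [hFa']; exact Finset.mem_erase.2 ⟨hau'.symm, hu⟩
    exact (Finset.mem_inter.1 h1).2
  have hadj : Adj V v u := (Q1_mem_nb.1 hu).2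
  refine ⟨u, hadj.1, ?_, pair_mem_edg.2 hadj⟩
  obtain ⟨-, h2⟩ := two_inter hV.vert hF.1 hF.2 hF'.1 hF'.2 hne hv hv' huF huF' hadj.1
  ext z
  rw [Finset.mem_inter, Finset.mem_insert, Finset.mem_singleton]
  constructor
  · rintro ⟨hz, hz'⟩
    exact h2 z hz hz'
  · rintro (rfl | rfl)
    · exact ⟨hv, hv'⟩
    · exact ⟨huF, huF'⟩

/-- Q2: there are three facets at a vertex -/
theorem three_at {V : Finset (Ed 3)} (hV : Simp V) {v : Ed 3} {F F' : Finset (Ed 3)} (hF : Fct V F) (hF' : Fct V F')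
    (hne : F ≠ F') (hv : v ∈ F) (hv' : v ∈ F') : ∃ G, Fct V G ∧ v ∈ G ∧ G ≠ F ∧ G ≠ F' ∧
      (∀ H, Fct V H → v ∈ H → H = F ∨ H = F' ∨ H = G) ∧ ∀ z, z ∈ F → z ∈ F' → z ∈ G → z = v := by
  obtain ⟨a, a', u, haa, hau, hau', hnb, hFa, hFa'⟩ := Q2_aux hV hF hF' hne hv hv'
  have hvV : v ∈ V := hF.1.2.1 hv
  have hu : u ∈ nb V v := by rw [hnb]; simp
  have hadj : Adj V v u := (Q1_mem_nb.1 hu).2
  obtain ⟨h1, h2, h3⟩ := fct_at hV hvV
  obtain ⟨G, hG, hvG, hGu⟩ := h1 u hu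
  have huG : u ∉ G := by
    intro h
    have h4 : u ∈ nb V v ∩ G := Finset.mem_inter.2 ⟨hu, h⟩
    rw [hGu] at h4
    exact (Finset.mem_erase.1 h4).1 rfl
  have huF : u ∈ F := by
    have h1 : u ∈ nb V v ∩ F := by rw [hFa]; exact Finset.mem_erase.2 ⟨hau.symm, hu⟩
    exact (Finset.mem_inter.1 h1).2
  have huF' : u ∈ F' := by
    have h1 : u ∈ nb V v ∩ F' := by rw [hFa']; exact Finset.mem_erase.2 ⟨hau'.symm, hu⟩
    exact (Finset.mem_inter.1 h1).2
  refine ⟨G, hG, hvG, ?_, ?_, ?_, ?_⟩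
  · rintro rfl
    exact huG huF
  · rintro rfl
    exact huG huF'
  · intro H hH hvH
    obtain ⟨z, hz, hHz⟩ := h2 H hH hvH
    rw [hnb] at hz
    rw [Finset.mem_insert, Finset.mem_insert, Finset.mem_singleton] at hz
    rcases hz with rfl | rfl | rfl
    · left
      apply h3 H F hH hF hvH hv
      rw [hHz, ← hFa]
      exact Finset.inter_subset_right
    · right; left
      apply h3 H F' hH hF' hvH hv'
      rw [hHz, ← hFa']
      exact Finset.inter_subset_right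
    · right; right
      apply h3 H G hH hG hvH hvG
      rw [hHz, ← hGu]
      exact Finset.inter_subset_right
  · intro z hz hz' hzG
    obtain ⟨-, h4⟩ := two_inter hV.vert hF.1 hF.2 hF'.1 hF'.2 hne hv hv' huF huF' hadj.1
    rcases h4 z hz hz' with h5 | h5
    · exact h5
    · rw [h5] at hzG
      exact absurd hzG huG

/-- Q2: an edge is in exactly two facets -/
theorem edge_two {V : Finset (Ed 3)} (hV : Simp V) {e : Finset (Ed 3)} (he : e ∈ edg V) :
    ∃ F F', F ≠ F' ∧ Fct V F ∧ Fct V F' ∧ F ∩ F' = e ∧ ∀ G, Fct V G → e ⊆ G → G = F ∨ G = F' := by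
  obtain ⟨x, y, rfl, hxy⟩ := edg_pair he
  have hxV : x ∈ V := hxy.2.2.1 (by simp)
  have hyV : y ∈ V := hxy.2.2.1 (by simp)
  have hy : y ∈ nb V x := Q1_mem_nb.2 ⟨hyV, hxy⟩
  have hcard := hV.simple x hxV
  have h4 : ((nb V x).erase y).card = 2 := by rw [Finset.card_erase_of_mem hy, hcard]
  obtain ⟨p, q, hpq, hpqe⟩ := Finset.card_eq_two.1 h4
  have hp : p ∈ (nb V x).erase y := by rw [hpqe]; simp
  have hq : q ∈ (nb V x).erase y := by rw [hpqe]; simp
  rw [Finset.mem_erase] at hp hq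
  obtain ⟨h1, h2, h3⟩ := fct_at hV hxV
  obtain ⟨F, hF, hxF, hFp⟩ := h1 p hp.2
  obtain ⟨F', hF', hxF', hFq⟩ := h1 q hq.2
  have hyF : y ∈ F := by
    have h5 : y ∈ nb V x ∩ F := by rw [hFp]; exact Finset.mem_erase.2 ⟨fun h => hp.1 h.symm, hy⟩
    exact (Finset.mem_inter.1 h5).2
  have hyF' : y ∈ F' := by
    have h5 : y ∈ nb V x ∩ F' := by rw [hFq]; exact Finset.mem_erase.2 ⟨fun h => hq.1 h.symm, hy⟩
    exact (Finset.mem_inter.1 h5).2
  have hne : F ≠ F' := by
    rintro rfl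
    rw [hFp] at hFq
    have h5 : q ∈ (nb V x).erase p := Finset.mem_erase.2 ⟨hpq.symm, hq.2⟩
    rw [hFq] at h5
    exact (Finset.mem_erase.1 h5).1 rfl
  refine ⟨F, F', hne, hF, hF', ?_, ?_⟩
  · obtain ⟨-, h5⟩ := two_inter hV.vert hF.1 hF.2 hF'.1 hF'.2 hne hxF hxF' hyF hyF' hxy.1
    ext z
    rw [Finset.mem_inter, Finset.mem_insert, Finset.mem_singleton]
    constructor
    · rintro ⟨hz, hz'⟩
      exact h5 z hz hz'
    · rintro (rfl | rfl)
      · exact ⟨hxF, hxF'⟩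
      · exact ⟨hyF, hyF'⟩
  · intro G hG heG
    have hxG : x ∈ G := heG (by simp)
    have hyG : y ∈ G := heG (by simp)
    obtain ⟨z, hz, hGz⟩ := h2 G hG hxG
    have hzy : z ≠ y := by
      rintro rfl
      have h5 : z ∈ nb V x ∩ G := Finset.mem_inter.2 ⟨hy, hyG⟩
      rw [hGz] at h5
      exact (Finset.mem_erase.1 h5).1 rfl
    have hz' : z ∈ (nb V x).erase y := Finset.mem_erase.2 ⟨hzy, hz⟩
    rw [hpqe, Finset.mem_insert, Finset.mem_singleton] at hz'
    rcases hz' with rfl | rfl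
    · left
      apply h3 G F hG hF hxG hxF
      rw [hGz, ← hFp]
      exact Finset.inter_subset_right
    · right
      apply h3 G F' hG hF' hxG hxF'
      rw [hGz, ← hFq]
      exact Finset.inter_subset_right

/-- Q2: there are two facets at a vertex -/
theorem exists_fct {V : Finset (Ed 3)} (hV : Simp V) {v : Ed 3} (hv : v ∈ V) :
    ∃ F F', F ≠ F' ∧ Fct V F ∧ Fct V F' ∧ v ∈ F ∧ v ∈ F' := by
  have hcard := hV.simple v hv
  obtain ⟨a, b, c, hab, hac, hbc, hnb⟩ := Finset.card_eq_three.1 hcard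
  obtain ⟨h1, -, -⟩ := fct_at hV hv
  obtain ⟨F, hF, hvF, hFa⟩ := h1 a (by rw [hnb]; simp)
  obtain ⟨F', hF', hvF', hFb⟩ := h1 b (by rw [hnb]; simp)
  refine ⟨F, F', ?_, hF, hF', hvF, hvF'⟩
  rintro rfl
  rw [hFa] at hFb
  have h5 : b ∈ (nb V v).erase a := Finset.mem_erase.2 ⟨hab.symm, by rw [hnb]; simp⟩
  rw [hFb] at h5
  exact (Finset.mem_erase.1 h5).1 rfl

end Pool.Agent.LibTet88
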