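import Mathlib
import Pool.Agent.LibTet88.Basic
import Pool.Agent.LibPol19.G08
import Pool.Agent.LibPol19.G09
import Pool.Agent.LibPol19.G10
import Pool.Agent.LibPol19.G17

/-! Row P1.
Ears. F is a polygon: IsVert F, dm F = 2; `polygon` (LibPol19/G10, with V := F, R := F, face_self) says (nb F x ∩ F).card = 2, and nb F x ⊆ F, so nb F x = {·, ·} for every x ∈ F (Finset.card_eq_two). Let nb F v = {a, b}. Basic: pair_mem_edg : {x, y} ∈ edg F ↔ Adj F x y; edg_pair; mem_edg. `only`: e ∈ edg F, v ∈ e: e = {v, u}, Adj F v u, so u ∈ nb F v.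
F' := F.erase v: IsVert F' (vert_sub), dm F' ≤ dm F = 2 (dm_mono) and 2 ≤ dm F' (two_le_dm, F'.card ≥ 3): poly.
nab: if Adj F a b, then nb F a = {v, b} and nb F b = {v, a} (two elements each, adj_symm), so {v, a, b} is closed under adjacency; conn_face (V := F, face F) from v to any x ∈ F gives (induction on the ReflTransGen) x ∈ {v, a, b}: F.card ≤ 3: contradiction.
edges: (1) if x, y ≠ v and Adj F x y then Adj F' x y (face_restrict with V := F; {x, y} ⊆ F' ⊆ F). (2) For x ∈ F', x ≠ a, b: nb F x ⊆ nb F' x (v ∉ nb F x because x ∉ nb F v), both have two elements (polygon for F' ), so nb F' x = nb F x. (3) nb F a = {v, a'} with a' ≠ v; nb F' a has two elements, one is a', let z be the other one, z ≠ a'. If z ≠ b, then z ∉ {a, b}, so by (2) a ∈ nb F' z = nb F z, so z ∈ nb F a = {v, a'}: contradiction (z ∈ F' is not v). So z = b: Adj F' a b. The same for b (by symmetry) is not needed for Adj F' a b, but for: Adj F' x y with x = a: y ∈ nb F' a = {a', b}: either Adj F a y or y = b; x = b: nb F' b has two elements,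 contains a and the neighbour b' ≠ v of b in F (b' ≠ a by nab), so it is {a, b'}. Altogether e ∈ edg F' iff (e ∈ edg F and v ∉ e) or e = {a, b}.
-/

set_option autoImplicit false

namespace Pool.Agent.LibTet88

open Finset Pool.Agent.LibPol19
open scoped Classical

variable {d : ℕ}

theorem P1_mem {F : Finset (Ed d)} {x y : Ed d} : y ∈ nb F x ↔ Adj F x y := by
  unfold nb
  rw [Finset.mem_filter]
  constructor
  · exact fun h => h.2
  · intro h
    exact ⟨h.2.2.1 (Finset.mem_insert_of_mem (Finset.mem_singleton_self _)), h⟩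

theorem P1_left {F : Finset (Ed d)} {x y : Ed d} (h : Adj F x y) : x ∈ F :=
  h.2.2.1 (Finset.mem_insert_self _ _)

theorem P1_right {F : Finset (Ed d)} {x y : Ed d} (h : Adj F x y) : y ∈ F :=
  h.2.2.1 (Finset.mem_insert_of_mem (Finset.mem_singleton_self _))

theorem P1_card {F : Finset (Ed d)} (hF : Poly F) {v : Ed d} (hv : v ∈ F) : (nb F v).card = 2 := by
  have h1 := polygon hF.1 (face_self ⟨v, hv⟩) hF.2 hv
  have h2 : nb F v ∩ F = nb F v := by
    refine Finset.inter_eq_left.2 ?_
    intro u hu
    exact P1_right (P1_mem.1 hu)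
  rw [h2] at h1
  exact h1

/-- two neighbours known -/
theorem P1_eq {F : Finset (Ed d)} (hF : Poly F) {v x y : Ed d} (hx : Adj F v x) (hy : Adj F v y)
    (hxy : x ≠ y) : nb F v = {x, y} := by
  symm
  refine Finset.eq_of_subset_of_card_le ?_ ?_
  · intro u hu
    rw [Finset.mem_insert, Finset.mem_singleton] at hu
    rcases hu with rfl | rfl
    · exact P1_mem.2 hx
    · exact P1_mem.2 hy
  · rw [P1_card hF (P1_left hx), Finset.card_pair hxy]

/-- one neighbour known -/
theorem P1_other {F : Finset (Ed d)} (hF : Poly F) {v x : Ed d} (hx : Adj F v x) :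
    ∃ y, y ≠ x ∧ nb F v = {x, y} := by
  obtain ⟨p, q, hpq, h⟩ := Finset.card_eq_two.1 (P1_card hF (P1_left hx))
  have h1 : x ∈ nb F v := P1_mem.2 hx
  rw [h, Finset.mem_insert, Finset.mem_singleton] at h1
  rcases h1 with rfl | rfl
  · exact ⟨q, hpq.symm, h⟩
  · exact ⟨p, hpq, by rw [h, Finset.pair_comm]⟩

theorem P1_adj {F : Finset (Ed d)} {v x y : Ed d} (h : Adj F x y) (hx : x ≠ v) (hy : y ≠ v) :
    Adj (F.erase v) x y := by
  refine ⟨h.1, face_restrict h.2 ?_ (Finset.erase_subset _ _)⟩
  intro u hu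
  rw [Finset.mem_insert, Finset.mem_singleton] at hu
  rcases hu with rfl | rfl
  · exact Finset.mem_erase.2 ⟨hx, P1_left h⟩
  · exact Finset.mem_erase.2 ⟨hy, P1_right h⟩

theorem P1_same {F : Finset (Ed d)} (hF : Poly F) {v a b x : Ed d} (hF' : Poly (F.erase v))
    (hnb : nb F v = {a, b}) (hx : x ∈ F.erase v) (hxa : x ≠ a) (hxb : x ≠ b) :
    nb (F.erase v) x = nb F x := by
  symm
  rw [Finset.mem_erase] at hx
  refine Finset.eq_of_subset_of_card_le ?_ ?_
  · intro u hu
    have h1 := P1_mem.1 hu
    refine P1_mem.2 (P1_adj h1 hx.1 ?_)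
    rintro rfl
    have h2 : x ∈ nb F u := P1_mem.2 (adj_symm h1)
    rw [hnb, Finset.mem_insert, Finset.mem_singleton] at h2
    tauto
  · rw [P1_card hF hx.2, P1_card hF' (Finset.mem_erase.2 hx)]

theorem P1_step {F : Finset (Ed d)} (hF : Poly F) {v a b : Ed d} (hF' : Poly (F.erase v))
    (hnb : nb F v = {a, b}) :
    ∃ a', Adj F a a' ∧ a' ≠ v ∧ nb (F.erase v) a = {a', b} := by
  have hva : Adj F v a := P1_mem.1 (by rw [hnb]; exact Finset.mem_insert_self _ _)
  obtain ⟨a', ha', h1⟩ := P1_other hF (adj_symm hva)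
  have haa' : Adj F a a' := P1_mem.1 (by
    rw [h1]; exact Finset.mem_insert_of_mem (Finset.mem_singleton_self _))
  have h2 : Adj (F.erase v) a a' := P1_adj haa' (fun h => hva.1 h.symm) ha'
  obtain ⟨z, hz, h3⟩ := P1_other hF' h2
  refine ⟨a', haa', ha', ?_⟩
  rw [h3]
  congr 2
  by_contra hzb
  have h4 : Adj (F.erase v) a z := P1_mem.1 (by
    rw [h3]; exact Finset.mem_insert_of_mem (Finset.mem_singleton_self _))
  have h5 : a ∈ nb (F.erase v) z := P1_mem.2 (adj_symm h4)
  rw [P1_same hF hF' hnb (P1_right h4) (fun h => h4.1 h.symm) hzb] at h5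
  have h6 : z ∈ nb F a := P1_mem.2 (adj_symm (P1_mem.1 h5))
  rw [h1, Finset.mem_insert, Finset.mem_singleton] at h6
  rcases h6 with h6 | h6
  · exact (Finset.mem_erase.1 (P1_right h4)).1 h6
  · exact hz h6

/-- P1: the neighbours of a vertex of a polygon; removing the vertex -/
theorem exists_ear {F : Finset (Ed d)} (hF : Poly F) (h4 : 4 ≤ F.card) {v : Ed d} (hv : v ∈ F) :
    ∃ a b, Ear F v a b := by
  obtain ⟨a, b, hab, hnb⟩ := Finset.card_eq_two.1 (P1_card hF hv)
  have hva : Adj F v a := P1_mem.1 (by rw [hnb]; exact Finset.mem_insert_self _ _)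
  have hvb : Adj F v b := P1_mem.1 (by
    rw [hnb]; exact Finset.mem_insert_of_mem (Finset.mem_singleton_self _))
  have hsub : F.erase v ⊆ F := Finset.erase_subset _ _
  have hF' : Poly (F.erase v) := by
    refine ⟨vert_sub hF.1 hsub, le_antisymm ?_ ?_⟩
    · rw [← hF.2]; exact dm_mono hsub
    · refine two_le_dm hF.1 hsub ?_
      rw [Finset.card_erase_of_mem hv]; omega
  have hnb' : nb F v = {b, a} := by rw [hnb, Finset.pair_comm]
  obtain ⟨a', haa', ha'v, hna⟩ := P1_step hF hF' hnb
  obtain ⟨b', hbb', hb'v, hnb2⟩ := P1_step hF hF' hnb'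
  refine ⟨a, b, hv, P1_right hva, P1_right hvb, hva.1, hvb.1, hab, pair_mem_edg.2 hva,
    pair_mem_edg.2 hvb, ?_, ?_, hF', ?_⟩
  · intro h
    have h1 := pair_mem_edg.1 h
    have h2 : nb F a = {v, b} := P1_eq hF (adj_symm hva) h1 hvb.1
    have h3 : nb F b = {v, a} := P1_eq hF (adj_symm hvb) (adj_symm h1) hva.1
    have h5 : ∀ x, Relation.ReflTransGen (fun u w => Adj F u w ∧ w ∈ F) v x →
        x ∈ ({v, a, b} : Finset (Ed d)) := by
      intro x hx
      induction hx with
      | refl => exact Finset.mem_insert_self _ _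
      | @tail y z _ h6 ih =>
        have h7 : z ∈ nb F y := P1_mem.2 h6.1
        simp only [Finset.mem_insert, Finset.mem_singleton] at ih ⊢
        rcases ih with rfl | rfl | rfl
        · rw [hnb] at h7
          simp only [Finset.mem_insert, Finset.mem_singleton] at h7
          tauto
        · rw [h2] at h7
          simp only [Finset.mem_insert, Finset.mem_singleton] at h7
          tauto
        · rw [h3] at h7
          simp only [Finset.mem_insert, Finset.mem_singleton] at h7
          tauto
    have h6 : F ⊆ {v, a, b} := fun x hx => h5 x (conn_face hF.1 (face_self ⟨v, hv⟩) hv hx)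
    have h7 := Finset.card_le_card h6
    have h8 : ({v, a, b} : Finset (Ed d)).card ≤ 3 := Finset.card_le_three
    omega
  · intro e he hve
    obtain ⟨x, y, rfl, hxy⟩ := edg_pair he
    rw [Finset.mem_insert, Finset.mem_singleton] at hve
    rcases hve with rfl | rfl
    · have h1 : y ∈ nb F v := P1_mem.2 hxy
      rw [hnb, Finset.mem_insert, Finset.mem_singleton] at h1
      rcases h1 with rfl | rfl
      · exact Or.inl rfl
      · exact Or.inr rfl
    · have h1 : x ∈ nb F v := P1_mem.2 (adj_symm hxy)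
      rw [hnb, Finset.mem_insert, Finset.mem_singleton] at h1
      rw [Finset.pair_comm]
      rcases h1 with rfl | rfl
      · exact Or.inl rfl
      · exact Or.inr rfl
  · intro e
    constructor
    · intro he
      obtain ⟨x, y, rfl, hxy⟩ := edg_pair he
      have hx := Finset.mem_erase.1 (P1_left hxy)
      have hy := Finset.mem_erase.1 (P1_right hxy)
      have hve : v ∉ ({x, y} : Finset (Ed d)) := by
        rw [Finset.mem_insert, Finset.mem_singleton]
        rintro (h | h)
        · exact hx.1 h.symm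
        · exact hy.1 h.symm
      have h1 : y ∈ nb (F.erase v) x := P1_mem.2 hxy
      by_cases hxa : x = a
      · subst hxa
        rw [hna, Finset.mem_insert, Finset.mem_singleton] at h1
        rcases h1 with rfl | rfl
        · exact Or.inl ⟨pair_mem_edg.2 haa', hve⟩
        · exact Or.inr rfl
      · by_cases hxb : x = b
        · subst hxb
          rw [hnb2, Finset.mem_insert, Finset.mem_singleton] at h1
          rcases h1 with rfl | rfl
          · exact Or.inl ⟨pair_mem_edg.2 hbb', hve⟩
          · exact Or.inr (Finset.pair_comm _ _)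
        · rw [P1_same hF hF' hnb (P1_left hxy) hxa hxb] at h1
          exact Or.inl ⟨pair_mem_edg.2 (P1_mem.1 h1), hve⟩
    · rintro (⟨he, hve⟩ | rfl)
      · obtain ⟨x, y, rfl, hxy⟩ := edg_pair he
        rw [Finset.mem_insert, Finset.mem_singleton, not_or] at hve
        exact pair_mem_edg.2 (P1_adj hxy (fun h => hve.1 h.symm) (fun h => hve.2 h.symm))
      · refine pair_mem_edg.2 (P1_mem.1 ?_)
        rw [hna]
        exact Finset.mem_insert_of_mem (Finset.mem_singleton_self _)

end Pool.Agent.LibTet88
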