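import Mathlib
import Pool.Agent.LibTet88.Basic
import Pool.Agent.LibPol19.G10

/-! Row P4.
Triangles. (polygon with V := F, R := F, face_self): every x ∈ F has (nb F x ∩ F).card = 2, x ∉ nb F x, F.card = 3: so nb F x = F.erase x and any two different vertices are adjacent: e ⊆ F, e.card = 2, e = {x, y}: Adj F x y, pair_mem_edg. Tri F {F}: sub, cover, inter (F ∩ F = F) clear; edge: the filter is {F} (mem_edg: e ⊆ F); two: the filter of a singleton has at most one element.
-/

set_option autoImplicit false

namespace Pool.Agent.LibTet88

open Finset Pool.Agent.LibPol19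
open scoped Classical

variable {d : ℕ}

/-- P4: triangles -/
theorem tri_base {F : Finset (Ed d)} (hF : Poly F) (h3 : F.card = 3) :
    Tri F {F} ∧ ∀ e : Finset (Ed d), e ⊆ F → e.card = 2 → e ∈ edg F := by
  have hne : F.Nonempty := by
    rw [← Finset.card_pos]
    omega
  constructor
  · refine ⟨?_, ?_, ?_, ?_, ?_⟩
    · intro t ht
      rw [Finset.mem_singleton] at ht
      subst ht
      exact ⟨Finset.Subset.refl _, h3⟩
    · intro p hp
      simp only [Set.mem_iUnion]
      exact ⟨F, Finset.mem_singleton_self F, hp⟩
    · intro t ht u hu p hp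
      rw [Finset.mem_singleton] at ht hu
      subst ht
      subst hu
      rw [Finset.inter_self]
      exact hp.1
    · intro e he
      have h1 : ({F} : Finset (Finset (Ed d))).filter (fun t => e ⊆ t) = {F} := by
        rw [Finset.filter_singleton, if_pos (mem_edg.1 he).1]
      rw [h1, Finset.card_singleton]
    · intro e _
      refine (Finset.card_filter_le _ _).trans ?_
      rw [Finset.card_singleton]
      omega
  · intro e he h2
    obtain ⟨x, y, hxy, rfl⟩ := Finset.card_eq_two.1 h2
    have hx : x ∈ F := he (Finset.mem_insert_self x {y})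
    have hy : y ∈ F := he (Finset.mem_insert_of_mem (Finset.mem_singleton_self y))
    have hc := polygon hF.1 (face_self hne) hF.2 hx
    have hsub : nb F x ∩ F ⊆ F.erase x := by
      intro u hu
      rw [Finset.mem_inter] at hu
      refine Finset.mem_erase.2 ⟨?_, hu.2⟩
      unfold nb at hu
      have h4 := (Finset.mem_filter.1 hu.1).2
      exact h4.1.symm
    have heq : nb F x ∩ F = F.erase x := by
      refine Finset.eq_of_subset_of_card_le hsub ?_
      rw [hc, Finset.card_erase_of_mem hx, h3]
    have hy2 : y ∈ nb F x ∩ F := by
      rw [heq]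
      exact Finset.mem_erase.2 ⟨hxy.symm, hy⟩
    have hy3 := (Finset.mem_inter.1 hy2).1
    unfold nb at hy3
    exact pair_mem_edg.2 (Finset.mem_filter.1 hy3).2

end Pool.Agent.LibTet88
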