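import Mathlib
import Pool.Agent.LibTet88.Basic
import Pool.Agent.LibTet88.P4

/-! Row P5.
Take Y = X, T = {F}. (edg F).card ≤ 3 (edg F ⊆ F.powersetCard 2, card = choose 3 2 = 3), X ⊆ edg F is nonempty of even cardinality, so X.card = 2.
Mark F X X {F}: tri: tri_base. ysub: mem_edg. yedge: trivial. ycov: F. deg: t = F: the filter is X (every e ∈ X is ⊆ F), card 2. par: any two elements of X are linked (Lk X {F} e e' for e, e' ∈ X), so K holds for all or for none of the elements of X: the filter is X or ∅: even.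
The connection: EqvGen.rel of Or.inr (Lk ..).
-/

set_option autoImplicit false

namespace Pool.Agent.LibTet88

open Finset Pool.Agent.LibPol19
open scoped Classical

variable {d : ℕ}

/-- P5: the polygon theorem for triangles -/
theorem mark_base {F : Finset (Ed d)} (hF : Poly F) (h3 : F.card = 3) {X : Finset (Finset (Ed d))}
    (hX : X ⊆ edg F) (hne : X.Nonempty) (he : Even X.card) (r : Finset (Ed d) → Finset (Ed d) → Prop) :
    Gd F X r := by
  obtain ⟨htri, -⟩ := tri_base hF h3
  have hsub : ∀ e ∈ X, e ⊆ F ∧ e.card = 2 := fun e h => by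
    obtain ⟨h1, h2, -⟩ := mem_edg.1 (hX h)
    exact ⟨h1, h2⟩
  have hc3 : X.card ≤ 3 := by
    have h1 : X ⊆ F.powersetCard 2 := by
      intro e h
      rw [Finset.mem_powersetCard]
      exact hsub e h
    have h2 := Finset.card_le_card h1
    rw [Finset.card_powersetCard, h3] at h2
    have h4 : Nat.choose 3 2 = 3 := by decide
    rw [h4] at h2
    exact h2
  have hc2 : X.card = 2 := by
    have h1 : 0 < X.card := Finset.card_pos.2 hne
    obtain ⟨k, hk⟩ := he
    omega
  have hlk : ∀ e ∈ X, ∀ e' ∈ X, Lk X {F} e e' := fun e h e' h' =>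
    ⟨F, Finset.mem_singleton_self F, h, h', (hsub e h).1, (hsub e' h').1⟩
  refine ⟨X, {F}, ⟨htri, hsub, fun e _ => Iff.rfl, ?_, ?_, ?_⟩, ?_⟩
  · intro e h
    exact ⟨F, Finset.mem_singleton_self F, (hsub e h).1⟩
  · intro t ht
    rw [Finset.mem_singleton] at ht
    subst ht
    rw [Finset.filter_true_of_mem (fun e h => (hsub e h).1)]
    exact hc2
  · intro K hK
    by_cases hex : ∃ e ∈ X, K e
    · obtain ⟨e, h, hKe⟩ := hex
      rw [Finset.filter_true_of_mem (fun e' h' => hK e e' (hlk e h e' h') hKe)]
      exact he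
    · push Not at hex
      rw [Finset.filter_false_of_mem hex, Finset.card_empty]
      exact Even.zero
  · intro e h e' h'
    exact Relation.EqvGen.rel _ _ (Or.inr (hlk e h e' h'))

end Pool.Agent.LibTet88
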