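import Mathlib
import Pool.Agent.LibTet88.Basic
import Pool.Agent.LibPol19.G06
import Pool.Agent.LibPol19.G08
import Pool.Agent.LibPol19.G09

/-! Row P2.
Geometry of an ear. By h.edges {a, b} ∈ edg (F.erase v), so there are ℓ, c with ℓ u ≤ c and (ℓ u = c ↔ u ∈ {a, b}) for u ∈ F.erase v. Claim ℓ v > c. If ℓ v < c then ℓ, c show IsFace F {a, b}, against h.nab. If ℓ v = c then IsFace F {v, a, b}; F.card ≥ 4 (dm (F.erase v) = 2 by h.poly, so (F.erase v).card ≥ 3: for card ≤ 2 use dm_zero, dm_one; card 0: erase contains a), so {v, a, b} ⊂ F, dm {v, a, b} < dm F = 2 (dm_lt), but 2 ≤ dm {v, a, b} (two_le_dm).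
nb F v ∩ F = {a, b}: u ∈ nb F v gives {v, u} ∈ edg F, so {v, u} = {v, a} or {v, b} (h.only), u = a or u = b.
Part 2: p in both: ℓ p ≤ c by le_of_hl on F.erase v; p ∈ hl {v, a, b}: p = x v + y a + z b (convexHull_insert, mem_hl_insert or Finset.mem_convexHull'), ℓ p = c + x (ℓ v - c), so x = 0 and p ∈ hl {a, b}. (Shorter: use hl_filter for -ℓ on {v, a, b}: (-ℓ) ≤ -c there, and (-ℓ) p = -c, because ℓ p ≤ c and ge_of_hl gives c ≤ ℓ p; the filter is {a, b}.)
Part 1: p ∈ hl F = hl (insert v (F.erase v)): mem_hl_insert: p = v + s (q - v), q ∈ hl (F.erase v), 0 ≤ s ≤ 1. By `cone` (G06, V := F, A := F) every u ∈ F has u - v = α (a - v) + β (b - v), α, β ≥ 0; the set of points x with x - v in the cone generated by a - v, b - v is convex, so q - v = α (a - v) + β (b - v), α, β ≥ 0. Apply ℓ: ℓ q - ℓ v = (α + β) (c - ℓ v) and ℓ q ≤ c give α + β ≥ 1. If s (α + β) ≤ 1: p = (1 - s α - s β) v + s α a + s β b ∈ hl {v, a, b}. Otherwise let m := (α/(α+β)) a + (β/(α+β)) b ∈ hl {a, b} ⊆ hl (F.erase v);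 q = v + (α+β)(m - v), p = v + s (α+β) (m - v), 1 < s(α+β) ≤ α+β, so p lies on the segment from m to q, both in the convex set hl (F.erase v).
-/

set_option autoImplicit false

namespace Pool.Agent.LibTet88

open Finset Pool.Agent.LibPol19
open scoped Classical

variable {d : ℕ}

/-- the functional exposing the diagonal -/
theorem P2_fun {F : Finset (Ed d)} (hF : Poly F) {v a b : Ed d} (h : Ear F v a b) :
    ∃ (ℓ : Ed d →ₗ[ℝ] ℝ) (c : ℝ), (∀ u ∈ F.erase v, ℓ u ≤ c) ∧ ℓ a = c ∧ ℓ b = c ∧ c < ℓ v := by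
  obtain ⟨hab1, hab2, hab3⟩ := mem_edg.1 ((h.edges {a, b}).2 (Or.inr rfl))
  obtain ⟨-, -, ℓ, c, hℓ⟩ := hab3
  have ha' : a ∈ F.erase v := Finset.mem_erase.2 ⟨h.va.symm, h.ha⟩
  have hb' : b ∈ F.erase v := Finset.mem_erase.2 ⟨h.vb.symm, h.hb⟩
  have hac : ℓ a = c := (hℓ a ha').2.2 (by simp)
  have hbc : ℓ b = c := (hℓ b hb').2.2 (by simp)
  refine ⟨ℓ, c, fun u hu => (hℓ u hu).1, hac, hbc, ?_⟩
  have hvab : v ∉ ({a, b} : Finset (Ed d)) := by
    rw [Finset.mem_insert, Finset.mem_singleton]
    rintro (h1 | h1)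
    · exact h.va h1
    · exact h.vb h1
  rcases lt_trichotomy (ℓ v) c with hlt | heq | hgt
  · exfalso
    refine h.nab (mem_edg.2 ⟨?_, hab2, ⟨a, by simp⟩, ?_, ℓ, c, ?_⟩)
    · exact hab1.trans (Finset.erase_subset _ _)
    · exact hab1.trans (Finset.erase_subset _ _)
    · intro u hu
      by_cases huv : u = v
      · subst huv
        exact ⟨hlt.le, iff_of_false hlt.ne hvab⟩
      · exact hℓ u (Finset.mem_erase.2 ⟨huv, hu⟩)
  · exfalso
    have hsub : ({v, a, b} : Finset (Ed d)) ⊆ F := by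
      intro x hx
      rw [Finset.mem_insert, Finset.mem_insert, Finset.mem_singleton] at hx
      rcases hx with rfl | rfl | rfl
      · exact h.hv
      · exact h.ha
      · exact h.hb
    have hface : IsFace F {v, a, b} := by
      refine ⟨⟨v, by simp⟩, hsub, ℓ, c, ?_⟩
      intro u hu
      by_cases huv : u = v
      · subst huv
        exact ⟨heq.le, iff_of_true heq (by simp)⟩
      · have h1 := hℓ u (Finset.mem_erase.2 ⟨huv, hu⟩)
        refine ⟨h1.1, h1.2.trans ?_⟩
        rw [Finset.mem_insert (a := u) (b := v)]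
        exact ⟨Or.inr, fun h2 => h2.resolve_left huv⟩
    have hcard3 : 3 ≤ (F.erase v).card := by
      by_contra hcon
      have h0 : 0 < (F.erase v).card := Finset.card_pos.2 ⟨a, ha'⟩
      have h12 : (F.erase v).card = 1 ∨ (F.erase v).card = 2 := by omega
      rcases h12 with h1 | h1
      · have := dm_zero h1
        have := h.poly.2
        omega
      · have := dm_one h1
        have := h.poly.2
        omega
    have hcardF : (F.erase v).card + 1 = F.card := Finset.card_erase_add_one h.hv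
    have hss : ({v, a, b} : Finset (Ed d)) ⊂ F := by
      refine Finset.ssubset_iff_subset_ne.2 ⟨hsub, fun he => ?_⟩
      have h1 : ({v, a, b} : Finset (Ed d)).card ≤ 3 := Finset.card_le_three
      rw [he] at h1
      omega
    have hlt2 := dm_lt hface hss (Finset.Subset.refl F)
    have hge2 : 2 ≤ dm ({v, a, b} : Finset (Ed d)) := by
      refine two_le_dm hF.1 hsub ?_
      rw [Finset.card_insert_of_notMem (by
        rw [Finset.mem_insert, Finset.mem_singleton]
        rintro (h1 | h1)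
        · exact h.va h1
        · exact h.vb h1), Finset.card_pair h.ab]
    have := hF.2
    omega
  · exact hgt

/-- every vertex of the polygon is in the cone at `v` spanned by `a`, `b` -/
theorem P2_cone {F : Finset (Ed d)} (hF : Poly F) {v a b : Ed d} (h : Ear F v a b) {u : Ed d}
    (hu : u ∈ F) : ∃ α β : ℝ, 0 ≤ α ∧ 0 ≤ β ∧ u - v = α • (a - v) + β • (b - v) := by
  have hnb : nb F v ∩ F = {a, b} := by
    ext x
    rw [Finset.mem_inter, Finset.mem_insert, Finset.mem_singleton]
    unfold nb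
    rw [Finset.mem_filter]
    constructor
    · rintro ⟨⟨hx, hadj⟩, -⟩
      have h1 := h.only _ (pair_mem_edg.2 hadj) (by simp)
      rcases h1 with h1 | h1
      · left
        have h2 : x ∈ ({v, a} : Finset (Ed d)) := by rw [← h1]; simp
        rw [Finset.mem_insert, Finset.mem_singleton] at h2
        exact h2.resolve_left hadj.1.symm
      · right
        have h2 : x ∈ ({v, b} : Finset (Ed d)) := by rw [← h1]; simp
        rw [Finset.mem_insert, Finset.mem_singleton] at h2
        exact h2.resolve_left hadj.1.symm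
    · rintro (rfl | rfl)
      · exact ⟨⟨h.ha, pair_mem_edg.1 h.eva⟩, h.ha⟩
      · exact ⟨⟨h.hb, pair_mem_edg.1 h.evb⟩, h.hb⟩
  obtain ⟨c, hc0, hc⟩ := cone hF.1 (face_self ⟨v, h.hv⟩) h.hv hu
  rw [hnb, Finset.sum_pair h.ab] at hc
  exact ⟨c a, c b, hc0 a, hc0 b, hc⟩

theorem P2_cone_hl {F : Finset (Ed d)} (hF : Poly F) {v a b : Ed d} (h : Ear F v a b) {q : Ed d}
    (hq : q ∈ hl (F.erase v)) : ∃ α β : ℝ, 0 ≤ α ∧ 0 ≤ β ∧ q - v = α • (a - v) + β • (b - v) := by
  have h1 : hl (F.erase v) ⊆ {x | ∃ α β : ℝ, 0 ≤ α ∧ 0 ≤ β ∧ x - v = α • (a - v) + β • (b - v)} := by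
    refine convexHull_min ?_ ?_
    · intro x hx
      exact P2_cone hF h (Finset.mem_of_mem_erase (by exact_mod_cast hx))
    · rintro x ⟨α, β, h1, h2, h3⟩ y ⟨α', β', h1', h2', h3'⟩ s t hs ht hst
      refine ⟨s * α + t * α', s * β + t * β', by positivity, by positivity, ?_⟩
      have h4 : s • x + t • y - v = s • (x - v) + t • (y - v) := by
        have h5 : v = (s + t) • v := by rw [hst, one_smul]
        nth_rewrite 1 [h5]
        module
      rw [h4, h3, h3']
      module
  exact h1 hq

/-- P2: the hull of a polygon is the union of the ear and the rest, which meet in the diagonal -/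
theorem ear_hull {F : Finset (Ed d)} (hF : Poly F) {v a b : Ed d} (h : Ear F v a b) :
    hl F ⊆ hl (F.erase v) ∪ hl ({v, a, b} : Finset (Ed d)) ∧
      hl (F.erase v) ∩ hl ({v, a, b} : Finset (Ed d)) ⊆ hl ({a, b} : Finset (Ed d)) := by
  obtain ⟨ℓ, c, hℓ, hac, hbc, hvc⟩ := P2_fun hF h
  have ha' : a ∈ F.erase v := Finset.mem_erase.2 ⟨h.va.symm, h.ha⟩
  have hb' : b ∈ F.erase v := Finset.mem_erase.2 ⟨h.vb.symm, h.hb⟩
  constructor
  · intro p hp
    rw [← Finset.insert_erase h.hv] at hp
    obtain ⟨q, hq, s, hs0, hs1, rfl⟩ := mem_hl_insert ⟨a, ha'⟩ hp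
    obtain ⟨α, β, hα, hβ, hqv⟩ := P2_cone_hl hF h hq
    have hlq : ℓ q ≤ c := le_of_hl ℓ hℓ hq
    have hlq2 : ℓ q - ℓ v = (α + β) * (c - ℓ v) := by
      rw [← map_sub, hqv, map_add, map_smul, map_smul, map_sub, map_sub, hac, hbc, smul_eq_mul,
        smul_eq_mul]
      ring
    have hσ1 : 1 ≤ α + β := by
      by_contra hcon
      push Not at hcon
      have h1 : (1 - (α + β)) * (c - ℓ v) < 0 := mul_neg_of_pos_of_neg (by linarith) (by linarith)
      have h2 : (1 - (α + β)) * (c - ℓ v) = (c - ℓ v) - (α + β) * (c - ℓ v) := by ring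
      linarith
    have hσ0 : 0 < α + β := by linarith
    obtain ⟨m, hm, hqm⟩ : ∃ m ∈ hl ({a, b} : Finset (Ed d)), q - v = (α + β) • (m - v) := by
      refine ⟨(α / (α + β)) • a + (β / (α + β)) • b, ?_, ?_⟩
      · refine (convex_convexHull ℝ _) (mem_hl (Finset.mem_insert_self _ _))
          (mem_hl (Finset.mem_insert_of_mem (Finset.mem_singleton_self _))) (by positivity)
          (by positivity) ?_
        field_simp
      · have h1 : (α + β) • ((α / (α + β)) • a + (β / (α + β)) • b - v) =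
            ((α + β) * (α / (α + β))) • a + ((α + β) * (β / (α + β))) • b - (α + β) • v := by module
        rw [h1, mul_div_cancel₀ _ hσ0.ne', mul_div_cancel₀ _ hσ0.ne', hqv]
        module
    rw [hqm, smul_smul]
    by_cases hle : s * (α + β) ≤ 1
    · right
      exact hl_insert_mem hm (by positivity) hle
    · left
      push Not at hle
      have hgt : 1 < α + β := by nlinarith
      have hmF : m ∈ hl (F.erase v) := by
        refine hl_mono ?_ hm
        intro x hx
        rw [Finset.mem_insert, Finset.mem_singleton] at hx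
        rcases hx with rfl | rfl
        · exact ha'
        · exact hb'
      have hq' : q = v + (α + β) • (m - v) := by rw [← hqm]; abel
      have hd : 0 < α + β - 1 := by linarith
      have hkey : v + (s * (α + β)) • (m - v) =
          (1 - (s * (α + β) - 1) / (α + β - 1)) • m + ((s * (α + β) - 1) / (α + β - 1)) • q := by
        rw [hq']
        obtain ⟨θ, hθ⟩ : ∃ θ : ℝ, θ = (s * (α + β) - 1) / (α + β - 1) := ⟨_, rfl⟩
        have hθ2 : s * (α + β) = 1 + θ * (α + β - 1) := by rw [hθ]; field_simp; ring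
        rw [← hθ, hθ2]
        module
      rw [hkey]
      refine (convex_convexHull ℝ _) hmF hq ?_ (div_nonneg (by linarith) hd.le) (by ring)
      rw [sub_nonneg, div_le_one hd]
      nlinarith
  · rintro p ⟨hp1, hp2⟩
    have h1 : ℓ p ≤ c := le_of_hl ℓ hℓ hp1
    have hge : ∀ x ∈ ({v, a, b} : Finset (Ed d)), c ≤ ℓ x := by
      intro x hx
      rw [Finset.mem_insert, Finset.mem_insert, Finset.mem_singleton] at hx
      rcases hx with rfl | rfl | rfl
      · exact hvc.le
      · exact hac.ge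
      · exact hbc.ge
    have h2 : c ≤ ℓ p := ge_of_hl ℓ hge hp2
    have h3 := hl_filter (-ℓ) (c := -c) (fun x hx => by
      rw [LinearMap.neg_apply]; linarith [hge x hx]) hp2 (by rw [LinearMap.neg_apply]; linarith)
    refine hl_mono ?_ h3
    intro x hx
    rw [Finset.mem_filter, Finset.mem_insert] at hx
    rcases hx with ⟨rfl | hx, h4⟩
    · rw [LinearMap.neg_apply] at h4
      linarith
    · exact hx

end Pool.Agent.LibTet88
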