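import Mathlib
import Pool.Agent.LibTet88.Basic
import Pool.Agent.LibTet88.P2

/-! Row P3.
t0 := {v, a, b}. sub: clear (h.hv, h.ha, h.hb, card 3 from va, vb, ab; T' triangles are subsets of F.erase v). cover: (ear_hull hF h).1 and hT.cover.
inter: t, u ∈ T': hT. t = u = t0: t0 ∩ t0 = t0. t ∈ T', u = t0 (or conversely, Set.inter_comm): a point p of hl t ∩ hl t0 is in hl (F.erase v) ∩ hl t0 (hl_mono), so in hl {a, b}; {a, b} is a face of F.erase v (h.edges, mem_edg), so hl_face gives p ∈ hl (t ∩ {a, b}) and t ∩ {a, b} ⊆ t ∩ t0.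
edge: e ∈ edg F. If v ∈ e: e = {v, a} or {v, b} (h.only), e ⊆ t0 and e is not contained in any t ∈ T' (v ∉ t): the filter is {t0}. If v ∉ e: e ∈ edg (F.erase v), the filter for T' has one element; e is not ⊆ t0: otherwise e ⊆ {a, b}, so e = {a, b} (card), against h.nab. Finset.filter_insert.
two: if e ⊆ t0 is false: hT.two. If e ⊆ t0 and v ∈ e: no t ∈ T' contains e: the card is 1. If e ⊆ t0, v ∉ e: e = {a, b} ∈ edg (F.erase v): the card for T' is 1 (hT.edge), so 2 in total (Finset.card_insert_le).
-/

set_option autoImplicit false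

namespace Pool.Agent.LibTet88

open Finset Pool.Agent.LibPol19
open scoped Classical

variable {d : ℕ}

theorem P3_card {v a b : Ed d} (hva : v ≠ a) (hvb : v ≠ b) (hab : a ≠ b) :
    ({v, a, b} : Finset (Ed d)).card = 3 :=
  Finset.card_eq_three.2 ⟨v, a, b, hva, hvb, hab, rfl⟩

/-- a pair without `v` in `{v, a, b}` is `{a, b}` -/
theorem P3_pair {v a b : Ed d} (hab : a ≠ b) {e : Finset (Ed d)} (he : e.card = 2)
    (hs : e ⊆ ({v, a, b} : Finset (Ed d))) (hv : v ∉ e) : e = {a, b} := by
  refine Finset.eq_of_subset_of_card_le ?_ ?_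
  · intro x hx
    rcases Finset.mem_insert.1 (hs hx) with h1 | h1
    · exact absurd (h1 ▸ hx) hv
    · exact h1
  · rw [Finset.card_pair hab, he]

/-- P3: adding an ear to a triangulation -/
theorem tri_ear {F : Finset (Ed d)} (hF : Poly F) {v a b : Ed d} (h : Ear F v a b) {T : Finset (Finset (Ed d))}
    (hT : Tri (F.erase v) T) : Tri F (insert {v, a, b} T) := by
  have hvT : ∀ t ∈ T, v ∉ t := fun t ht hvt =>
    Finset.notMem_erase v F ((hT.sub t ht).1 hvt)
  have hab : ({a, b} : Finset (Ed d)) ∈ edg (F.erase v) := (h.edges _).2 (Or.inr rfl)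
  have hsub : ({a, b} : Finset (Ed d)) ⊆ {v, a, b} := Finset.subset_insert _ _
  have hemp : ∀ e : Finset (Ed d), v ∈ e → (T.filter fun t => e ⊆ t) = ∅ := by
    intro e he
    rw [Finset.filter_eq_empty_iff]
    intro t ht h1
    exact hvT t ht (h1 he)
  have mix : ∀ t ∈ T, ∀ p, p ∈ hl t → p ∈ hl ({v, a, b} : Finset (Ed d)) →
      p ∈ hl (t ∩ ({v, a, b} : Finset (Ed d))) := by
    intro t ht p hp hp0
    have h1 : p ∈ hl (F.erase v) := hl_mono (hT.sub t ht).1 hp
    have h2 : p ∈ hl ({a, b} : Finset (Ed d)) := (ear_hull hF h).2 ⟨h1, hp0⟩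
    exact hl_mono (Finset.inter_subset_inter (Finset.Subset.refl t) hsub)
      (hl_face (mem_edg.1 hab).2.2 (hT.sub t ht).1 hp h2)
  refine ⟨?_, ?_, ?_, ?_, ?_⟩
  · intro t ht
    rcases Finset.mem_insert.1 ht with rfl | ht
    · refine ⟨?_, P3_card h.va h.vb h.ab⟩
      intro x hx
      rw [Finset.mem_insert, Finset.mem_insert, Finset.mem_singleton] at hx
      rcases hx with rfl | rfl | rfl
      · exact h.hv
      · exact h.ha
      · exact h.hb
    · exact ⟨(hT.sub t ht).1.trans (Finset.erase_subset _ _), (hT.sub t ht).2⟩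
  · intro p hp
    rcases (ear_hull hF h).1 hp with h1 | h1
    · obtain ⟨t, ht, hpt⟩ := Set.mem_iUnion₂.1 (hT.cover h1)
      exact Set.mem_iUnion₂.2 ⟨t, Finset.mem_insert_of_mem ht, hpt⟩
    · exact Set.mem_iUnion₂.2 ⟨_, Finset.mem_insert_self _ _, h1⟩
  · intro t ht u hu
    rcases Finset.mem_insert.1 ht with rfl | ht
    · rcases Finset.mem_insert.1 hu with rfl | hu
      · rintro p ⟨hp, -⟩
        rwa [Finset.inter_self]
      · rintro p ⟨hp, hp'⟩
        rw [Finset.inter_comm]
        exact mix u hu p hp' hp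
    · rcases Finset.mem_insert.1 hu with rfl | hu
      · rintro p ⟨hp, hp'⟩
        exact mix t ht p hp hp'
      · exact hT.inter t ht u hu
  · intro e he
    by_cases hve : v ∈ e
    · have h1 : e ⊆ ({v, a, b} : Finset (Ed d)) := by
        rcases h.only e he hve with rfl | rfl
        · intro x hx
          rw [Finset.mem_insert, Finset.mem_singleton] at hx
          rcases hx with rfl | rfl <;> simp
        · intro x hx
          rw [Finset.mem_insert, Finset.mem_singleton] at hx
          rcases hx with rfl | rfl <;> simp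
      rw [Finset.filter_insert, if_pos h1, hemp e hve]
      rfl
    · have h1 : ¬ e ⊆ ({v, a, b} : Finset (Ed d)) := by
        intro h2
        have h3 := P3_pair h.ab (mem_edg.1 he).2.1 h2 hve
        rw [h3] at he
        exact h.nab he
      rw [Finset.filter_insert, if_neg h1]
      exact hT.edge e ((h.edges e).2 (Or.inl ⟨he, hve⟩))
  · intro e he
    by_cases h1 : e ⊆ ({v, a, b} : Finset (Ed d))
    · rw [Finset.filter_insert, if_pos h1]
      by_cases hve : v ∈ e
      · rw [hemp e hve]
        have h2 := Finset.card_insert_le ({v, a, b} : Finset (Ed d)) (∅ : Finset (Finset (Ed d)))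
        rw [Finset.card_empty] at h2
        omega
      · have h2 := P3_pair h.ab he h1 hve
        have h3 := hT.edge _ hab
        rw [← h2] at h3
        have h4 := Finset.card_insert_le ({v, a, b} : Finset (Ed d)) (T.filter fun t => e ⊆ t)
        omega
    · rw [Finset.filter_insert, if_neg h1]
      exact hT.two e he

end Pool.Agent.LibTet88
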