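import Mathlib
import Pool.Agent.LibTet88.Basic
import Pool.Agent.LibTet88.P3

/-! Row P6.
F' := F.erase v, X' := insert {a, b} (X.erase {v, b}), t0 := {v, a, b}, Y' := insert {v, b} Y. Facts: every e ∈ Y is ⊆ F' (hM.ysub), so v ∉ e for e ∈ Y; {a, b} ∈ edg F' (h.edges), {a, b} ∈ X', so {a, b} ∈ Y (hM.yedge). {v, b} ∉ Y. The only elements of X containing v: X ⊆ edg F, h.only, {v, a} ∉ X: only {v, b}.
tri: tri_ear. ysub: {v, b} ⊆ F, card 2. yedge: e ∈ edg F. If v ∈ e: e = {v, a} or {v, b}: {v, a} is neither in Y' ({v, a} ≠ {v, b} since a ≠ b; v ∉ members of Y) nor in X; {v, b} is in both. If v ∉ e: e ∈ edg F', e ≠ {a, b} (h.nab), e ≠ {v, b}: e ∈ Y' ↔ e ∈ Y ↔ e ∈ X' ↔ e ∈ X. ycov: {v, b} ⊆ t0; others hM.ycov. deg: t ∈ T: the filter does not contain {v, b} (v ∉ t, since t ⊆ F'), so it is that of Y. t = t0: e ∈ Y', e ⊆ t0: e = {v, b}, or e ∈ Y, e ⊆ F', so e ⊆ {a, b}, so e = {a, b} (card 2): the filter is {{v, b}, {a, b}}, card 2.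
par: K closed for Lk Y' (insert t0 T). Then K is closed for Lk Y T, so Even (X'.filter K).card by hM.par. Also K {v, b} ↔ K {a, b} (both in Y', both ⊆ t0: Lk in both directions). X = insert {v, b} (X.erase {v, b}); cards: (X.filter K).card = ((X.erase {v,b}).filter K).card + (if K {v,b} then 1 else 0) and (X'.filter K).card = ((X.erase {v,b}).filter K).card + (if K {a,b} then 1 else 0) ({a, b} ∉ X because {a, b} ∉ edg F): Finset.filter_insert, card_insert_of_notMem.
-/

set_option autoImplicit false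

namespace Pool.Agent.LibTet88

open Finset Pool.Agent.LibPol19
open scoped Classical

variable {d : ℕ}

theorem P6_eq {v a b : Ed d} (hab : a ≠ b) {e : Finset (Ed d)} (h1 : v ∉ e)
    (h2 : e ⊆ ({v, a, b} : Finset (Ed d))) (h3 : e.card = 2) : e = {a, b} := by
  refine Finset.eq_of_subset_of_card_le (fun x hx => ?_) (by rw [h3, Finset.card_pair hab])
  have h4 := h2 hx
  rw [Finset.mem_insert] at h4
  rcases h4 with h4 | h4
  · exact absurd (h4 ▸ hx) h1
  · exact h4

theorem P6_vY {F : Finset (Ed d)} {v : Ed d} {X Y T : Finset (Finset (Ed d))} (hM : Mark (F.erase v) X Y T) :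
    ∀ e ∈ Y, v ∉ e := fun e he hve => (Finset.mem_erase.1 ((hM.ysub e he).1 hve)).1 rfl

theorem P6_vT {F : Finset (Ed d)} {v : Ed d} {X Y T : Finset (Finset (Ed d))} (hM : Mark (F.erase v) X Y T) :
    ∀ t ∈ T, v ∉ t := fun t ht hvt => (Finset.mem_erase.1 ((hM.tri.sub t ht).1 hvt)).1 rfl

theorem P6_pair {v a b : Ed d} (hab : a ≠ b) (hva : v ≠ a) : ({v, a} : Finset (Ed d)) ≠ {v, b} := by
  intro h1
  have h2 : a ∈ ({v, b} : Finset (Ed d)) := by rw [← h1]; simp
  rw [Finset.mem_insert, Finset.mem_singleton] at h2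
  rcases h2 with h2 | h2
  · exact hva h2.symm
  · exact hab h2

theorem P6_Lk {Y Y' T T' : Finset (Finset (Ed d))} (hY : Y ⊆ Y') (hT : T ⊆ T') {e e' : Finset (Ed d)}
    (h : Lk Y T e e') : Lk Y' T' e e' := by
  obtain ⟨t, h1, h2, h3, h4⟩ := h
  exact ⟨t, hT h1, hY h2, hY h3, h4⟩

/-- P6: adding an ear with exactly one marked edge -/
theorem mark_one {F : Finset (Ed d)} (hF : Poly F) {v a b : Ed d} (h : Ear F v a b) {X Y T : Finset (Finset (Ed d))}
    (hX : X ⊆ edg F) (hb : ({v, b} : Finset (Ed d)) ∈ X) (ha : ({v, a} : Finset (Ed d)) ∉ X)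
    (hM : Mark (F.erase v) (insert {a, b} (X.erase {v, b})) Y T) :
    Mark F X (insert {v, b} Y) (insert {v, a, b} T) := by
  have hvY := P6_vY hM
  have hvT := P6_vT hM
  have habF : ({a, b} : Finset (Ed d)) ∈ edg (F.erase v) := (h.edges _).2 (Or.inr rfl)
  have habX : ({a, b} : Finset (Ed d)) ∉ X := fun h' => h.nab (hX h')
  have habY : ({a, b} : Finset (Ed d)) ∈ Y := (hM.yedge _ habF).2 (Finset.mem_insert_self _ _)
  have hvbY : ({v, b} : Finset (Ed d)) ∉ Y := fun h' => hvY _ h' (Finset.mem_insert_self _ _)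
  have hab0 : ({a, b} : Finset (Ed d)) ⊆ {v, a, b} := Finset.subset_insert _ _
  have hvb0 : ({v, b} : Finset (Ed d)) ⊆ {v, a, b} := by
    intro x hx
    simp only [Finset.mem_insert, Finset.mem_singleton] at hx ⊢
    tauto
  have hvab : ({v, b} : Finset (Ed d)) ≠ {a, b} := by
    intro h1
    exact hvbY (h1 ▸ habY)
  refine ⟨tri_ear hF h hM.tri, ?_, ?_, ?_, ?_, ?_⟩
  · intro e he
    rcases Finset.mem_insert.1 he with rfl | he
    · refine ⟨?_, Finset.card_pair h.vb⟩
      intro x hx
      simp only [Finset.mem_insert, Finset.mem_singleton] at hx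
      rcases hx with rfl | rfl
      · exact h.hv
      · exact h.hb
    · exact ⟨(hM.ysub e he).1.trans (Finset.erase_subset _ _), (hM.ysub e he).2⟩
  · intro e he
    by_cases hve : v ∈ e
    · rcases h.only e he hve with rfl | rfl
      · constructor
        · intro h1
          rcases Finset.mem_insert.1 h1 with h1 | h1
          · exact absurd h1 (P6_pair h.ab h.va)
          · exact absurd (Finset.mem_insert_self _ _) (hvY _ h1)
        · intro h1
          exact absurd h1 ha
      · exact ⟨fun _ => hb, fun _ => Finset.mem_insert_self _ _⟩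
    · have h1 : e ∈ edg (F.erase v) := (h.edges e).2 (Or.inl ⟨he, hve⟩)
      have h2 : e ≠ {v, b} := by
        rintro rfl
        exact hve (Finset.mem_insert_self _ _)
      have h3 : e ≠ {a, b} := by
        rintro rfl
        exact h.nab he
      rw [Finset.mem_insert, hM.yedge e h1, Finset.mem_insert, Finset.mem_erase]
      constructor
      · rintro (h4 | h4 | h4)
        · exact absurd h4 h2
        · exact absurd h4 h3
        · exact h4.2
      · intro h4
        exact Or.inr (Or.inr ⟨h2, h4⟩)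
  · intro e he
    rcases Finset.mem_insert.1 he with rfl | he
    · exact ⟨_, Finset.mem_insert_self _ _, hvb0⟩
    · obtain ⟨t, ht, h1⟩ := hM.ycov e he
      exact ⟨t, Finset.mem_insert_of_mem ht, h1⟩
  · intro t ht
    rcases Finset.mem_insert.1 ht with rfl | ht
    · have h1 : ((insert {v, b} Y : Finset (Finset (Ed d))).filter fun e => e ⊆ ({v, a, b} : Finset (Ed d))) =
          {{v, b}, {a, b}} := by
        ext e
        rw [Finset.mem_filter, Finset.mem_insert, Finset.mem_insert, Finset.mem_singleton]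
        constructor
        · rintro ⟨h1 | h1, h2⟩
          · exact Or.inl h1
          · exact Or.inr (P6_eq h.ab (hvY e h1) h2 (hM.ysub e h1).2)
        · rintro (rfl | rfl)
          · exact ⟨Or.inl rfl, hvb0⟩
          · exact ⟨Or.inr habY, hab0⟩
      rw [h1, Finset.card_pair hvab]
    · rw [Finset.filter_insert, if_neg]
      · exact hM.deg t ht
      · intro h1
        exact hvT t ht (h1 (Finset.mem_insert_self _ _))
  · intro K hK
    have hE := hM.par K (fun e e' hl hKe =>
      hK e e' (P6_Lk (Finset.subset_insert _ _) (Finset.subset_insert _ _) hl) hKe)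
    have hKK : K {v, b} ↔ K {a, b} := by
      constructor
      · exact hK _ _ ⟨_, Finset.mem_insert_self _ _, Finset.mem_insert_self _ _, Finset.mem_insert_of_mem habY,
          hvb0, hab0⟩
      · exact hK _ _ ⟨_, Finset.mem_insert_self _ _, Finset.mem_insert_of_mem habY, Finset.mem_insert_self _ _,
          hab0, hvb0⟩
    rw [Finset.filter_insert] at hE
    rw [← Finset.insert_erase hb, Finset.filter_insert]
    have h1 : ({v, b} : Finset (Ed d)) ∉ (X.erase {v, b}).filter K := by
      intro h1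
      exact (Finset.mem_erase.1 (Finset.mem_filter.1 h1).1).1 rfl
    have h2 : ({a, b} : Finset (Ed d)) ∉ (X.erase {v, b}).filter K := by
      intro h1
      exact habX (Finset.mem_erase.1 (Finset.mem_filter.1 h1).1).2
    by_cases hk : K {v, b}
    · rw [if_pos hk, Finset.card_insert_of_notMem h1]
      rw [if_pos (hKK.1 hk), Finset.card_insert_of_notMem h2] at hE
      exact hE
    · rw [if_neg hk]
      rw [if_neg (fun h3 => hk (hKK.2 h3))] at hE
      exact hE

end Pool.Agent.LibTet88
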