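import Mathlib
import Pool.Agent.LibTet88.Basic
import Pool.Agent.LibTet88.P6

/-! Row P8.
r' := EqvGen (fun p q => r p q ∨ (p = {v, b} ∧ q = {a, b})): an equivalence (Relation.EqvGen.is_equivalence). X' := insert {a, b} (X.erase {v, b}).
NoSing X' r': for {a, b}: by hs {v, b} has a partner e' ∈ X, e' ≠ {v, b}, r {v, b} e'; e' ∈ X.erase {v, b}, e' ≠ {a, b} ({a, b} ∉ edg F), {a, b} r' {v, b} r' e'. For e ∈ X, e ≠ {v, b}: partner e' ∈ X, e' ≠ e, r e e': if e' ≠ {v, b} take e'; if e' = {v, b} take {a, b} (≠ e).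
IH gives Y, T with Mark F' X' Y T and connection for r' and Lk Y T. Take insert {v, b} Y, insert {v, a, b} T: mark_one. Write R1 p q := r' p q ∨ Lk Y T p q, R2 p q := r p q ∨ Lk (insert {v, b} Y) (insert t0 T) p q. EqvGen R1 p q → EqvGen R2 p q: induction; r' p q: induction: r: rel; ({v, b}, {a, b}): Lk through t0 ({a, b} ∈ Y, see P6). So all elements of Y are connected in R2, and {v, b} is linked with {a, b} ∈ Y.
-/

set_option autoImplicit false

namespace Pool.Agent.LibTet88

open Finset Pool.Agent.LibPol19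
open scoped Classical

variable {d : ℕ}

theorem P8_lift {α : Type*} {R S : α → α → Prop} (h : ∀ x y, R x y → Relation.EqvGen S x y) {x y : α}
    (h' : Relation.EqvGen R x y) : Relation.EqvGen S x y := by
  induction h' with
  | rel x y h1 => exact h x y h1
  | refl x => exact Relation.EqvGen.refl x
  | symm x y _ ih => exact Relation.EqvGen.symm _ _ ih
  | trans x y z _ _ ih1 ih2 => exact Relation.EqvGen.trans _ _ _ ih1 ih2

/-- P8: the polygon theorem, step with one marked edge -/
theorem step_one {F : Finset (Ed d)} (hF : Poly F) {v a b : Ed d} (h : Ear F v a b) {X : Finset (Finset (Ed d))}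
    (hX : X ⊆ edg F) (hb : ({v, b} : Finset (Ed d)) ∈ X) (ha : ({v, a} : Finset (Ed d)) ∉ X)
    {r : Finset (Ed d) → Finset (Ed d) → Prop} (hr : Equivalence r) (hs : NoSing X r)
    (IH : ∀ r' : Finset (Ed d) → Finset (Ed d) → Prop, Equivalence r' →
      NoSing (insert {a, b} (X.erase {v, b})) r' → Gd (F.erase v) (insert {a, b} (X.erase {v, b})) r') :
    Gd F X r := by
  have habF : ({a, b} : Finset (Ed d)) ∈ edg (F.erase v) := (h.edges _).2 (Or.inr rfl)
  have habX : ({a, b} : Finset (Ed d)) ∉ X := fun h' => h.nab (hX h')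
  have hr' : Equivalence (Relation.EqvGen (fun p q => r p q ∨ (p = ({v, b} : Finset (Ed d)) ∧ q = {a, b}))) :=
    Relation.EqvGen.is_equivalence _
  have hin : ∀ p q, r p q →
      Relation.EqvGen (fun p q => r p q ∨ (p = ({v, b} : Finset (Ed d)) ∧ q = {a, b})) p q :=
    fun p q hpq => Relation.EqvGen.rel _ _ (Or.inl hpq)
  have hvb : Relation.EqvGen (fun p q => r p q ∨ (p = ({v, b} : Finset (Ed d)) ∧ q = {a, b})) {v, b} {a, b} :=
    Relation.EqvGen.rel _ _ (Or.inr ⟨rfl, rfl⟩)
  obtain ⟨Y, T, hM, hc⟩ := IH _ hr' (by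
    intro e he
    rcases Finset.mem_insert.1 he with rfl | he
    · obtain ⟨e', he', h1, h2⟩ := hs _ hb
      refine ⟨e', Finset.mem_insert_of_mem (Finset.mem_erase.2 ⟨h1, he'⟩), ?_, hr'.trans (hr'.symm hvb) (hin _ _ h2)⟩
      rintro rfl
      exact habX he'
    · obtain ⟨h1, h2⟩ := Finset.mem_erase.1 he
      obtain ⟨e', he', h3, h4⟩ := hs _ h2
      by_cases h5 : e' = {v, b}
      · refine ⟨{a, b}, Finset.mem_insert_self _ _, ?_, hr'.trans (hin _ _ h4) (h5 ▸ hvb)⟩
        rintro rfl
        exact habX h2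
      · exact ⟨e', Finset.mem_insert_of_mem (Finset.mem_erase.2 ⟨h5, he'⟩), h3, hin _ _ h4⟩)
  have habY : ({a, b} : Finset (Ed d)) ∈ Y := (hM.yedge _ habF).2 (Finset.mem_insert_self _ _)
  have hab0 : ({a, b} : Finset (Ed d)) ⊆ {v, a, b} := Finset.subset_insert _ _
  have hvb0 : ({v, b} : Finset (Ed d)) ⊆ {v, a, b} := by
    intro x hx
    simp only [Finset.mem_insert, Finset.mem_singleton] at hx ⊢
    tauto
  refine ⟨insert {v, b} Y, insert {v, a, b} T, mark_one hF h hX hb ha hM, ?_⟩
  have hlink : Relation.EqvGen (fun p q => r p q ∨ Lk (insert {v, b} Y) (insert {v, a, b} T) p q)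
      ({v, b} : Finset (Ed d)) {a, b} :=
    Relation.EqvGen.rel _ _ (Or.inr ⟨_, Finset.mem_insert_self _ _, Finset.mem_insert_self _ _,
      Finset.mem_insert_of_mem habY, hvb0, hab0⟩)
  have hlift : ∀ p q, Relation.EqvGen (fun p q =>
      Relation.EqvGen (fun p q => r p q ∨ (p = ({v, b} : Finset (Ed d)) ∧ q = {a, b})) p q ∨ Lk Y T p q) p q →
      Relation.EqvGen (fun p q => r p q ∨ Lk (insert {v, b} Y) (insert {v, a, b} T) p q) p q := by
    intro p q hpq
    refine P8_lift ?_ hpq
    rintro x y (hxy | hxy)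
    · refine P8_lift ?_ hxy
      rintro x y (hxy | ⟨rfl, rfl⟩)
      · exact Relation.EqvGen.rel _ _ (Or.inl hxy)
      · exact hlink
    · exact Relation.EqvGen.rel _ _ (Or.inr (P6_Lk (Finset.subset_insert _ _) (Finset.subset_insert _ _) hxy))
  have hall : ∀ e ∈ insert {v, b} Y, Relation.EqvGen
      (fun p q => r p q ∨ Lk (insert {v, b} Y) (insert {v, a, b} T) p q) e {a, b} := by
    intro e he
    rcases Finset.mem_insert.1 he with rfl | he
    · exact hlink
    · exact hlift _ _ (hc e he _ habY)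
  intro e he e' he'
  exact Relation.EqvGen.trans _ _ _ (hall e he) (Relation.EqvGen.symm _ _ (hall e' he'))

end Pool.Agent.LibTet88
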