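import Mathlib
import Pool.Agent.LibTet88.Basic
import Pool.Agent.LibTet88.P3
import Pool.Agent.LibTet88.P6

/-! Row P7.
F' := F.erase v, X' := (X.erase {v, a}).erase {v, b}, t0 := {v, a, b}, Y' := insert {v, a} (insert {v, b} Y). Every e ∈ Y is ⊆ F', so v ∉ e. {a, b} ∈ edg F' but {a, b} ∉ X' ({a, b} ∉ edg F ⊇ X), so {a, b} ∉ Y (hM.yedge).
tri: tri_ear. ysub, yedge, ycov as in P6: e ∈ edg F with v ∈ e is {v, a} or {v, b}, in Y' and in X; e ∈ edg F with v ∉ e: e ∈ edg F', e ∈ Y' ↔ e ∈ Y ↔ e ∈ X' ↔ e ∈ X. deg: t ∈ T: v ∉ t, the filter is that of Y. t0: e ∈ Y, e ⊆ t0 implies e ⊆ {a, b}, e = {a, b} ∉ Y: the filter is {{v, a}, {v, b}}, card 2.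
par: K closed for Lk Y' (insert t0 T): closed for Lk Y T, Even (X'.filter K).card. K {v, a} ↔ K {v, b}. X = insert {v, a} (insert {v, b} X'), so (X.filter K).card = (X'.filter K).card + 0 or + 2.
-/

set_option autoImplicit false

namespace Pool.Agent.LibTet88

open Finset Pool.Agent.LibPol19
open scoped Classical

variable {d : ℕ}

/-- P7: adding an ear with two marked edges -/
theorem mark_two {F : Finset (Ed d)} (hF : Poly F) {v a b : Ed d} (h : Ear F v a b) {X Y T : Finset (Finset (Ed d))}
    (hX : X ⊆ edg F) (ha : ({v, a} : Finset (Ed d)) ∈ X) (hb : ({v, b} : Finset (Ed d)) ∈ X)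
    (hM : Mark (F.erase v) ((X.erase {v, a}).erase {v, b}) Y T) :
    Mark F X (insert {v, a} (insert {v, b} Y)) (insert {v, a, b} T) := by
  have hvY := P6_vY hM
  have hvT := P6_vT hM
  have habF : ({a, b} : Finset (Ed d)) ∈ edg (F.erase v) := (h.edges _).2 (Or.inr rfl)
  have habX : ({a, b} : Finset (Ed d)) ∉ X := fun h' => h.nab (hX h')
  have habY : ({a, b} : Finset (Ed d)) ∉ Y := by
    intro h1
    exact habX (Finset.mem_of_mem_erase (Finset.mem_of_mem_erase ((hM.yedge _ habF).1 h1)))
  have hvbY : ({v, b} : Finset (Ed d)) ∉ Y := fun h' => hvY _ h' (Finset.mem_insert_self _ _)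
  have hvaY : ({v, a} : Finset (Ed d)) ∉ Y := fun h' => hvY _ h' (Finset.mem_insert_self _ _)
  have hvb0 : ({v, b} : Finset (Ed d)) ⊆ {v, a, b} := by
    intro x hx
    simp only [Finset.mem_insert, Finset.mem_singleton] at hx ⊢
    tauto
  have hva0 : ({v, a} : Finset (Ed d)) ⊆ {v, a, b} := by
    intro x hx
    simp only [Finset.mem_insert, Finset.mem_singleton] at hx ⊢
    tauto
  have hne : ({v, a} : Finset (Ed d)) ≠ {v, b} := P6_pair h.ab h.va
  have hmv : ({v, a} : Finset (Ed d)) ∈ (insert {v, a} (insert {v, b} Y) : Finset (Finset (Ed d))) :=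
    Finset.mem_insert_self _ _
  have hmb : ({v, b} : Finset (Ed d)) ∈ (insert {v, a} (insert {v, b} Y) : Finset (Finset (Ed d))) :=
    Finset.mem_insert_of_mem (Finset.mem_insert_self _ _)
  have hsub : Y ⊆ (insert {v, a} (insert {v, b} Y) : Finset (Finset (Ed d))) :=
    (Finset.subset_insert _ _).trans (Finset.subset_insert _ _)
  refine ⟨tri_ear hF h hM.tri, ?_, ?_, ?_, ?_, ?_⟩
  · intro e he
    rcases Finset.mem_insert.1 he with rfl | he
    · refine ⟨?_, Finset.card_pair h.va⟩
      intro x hx
      simp only [Finset.mem_insert, Finset.mem_singleton] at hx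
      rcases hx with rfl | rfl
      · exact h.hv
      · exact h.ha
    rcases Finset.mem_insert.1 he with rfl | he
    · refine ⟨?_, Finset.card_pair h.vb⟩
      intro x hx
      simp only [Finset.mem_insert, Finset.mem_singleton] at hx
      rcases hx with rfl | rfl
      · exact h.hv
      · exact h.hb
    · exact ⟨(hM.ysub e he).1.trans (Finset.erase_subset _ _), (hM.ysub e he).2⟩
  · intro e he
    by_cases hve : v ∈ e
    · rcases h.only e he hve with rfl | rfl
      · exact ⟨fun _ => ha, fun _ => hmv⟩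
      · exact ⟨fun _ => hb, fun _ => hmb⟩
    · have h1 : e ∈ edg (F.erase v) := (h.edges e).2 (Or.inl ⟨he, hve⟩)
      have h2 : e ≠ {v, b} := by
        rintro rfl
        exact hve (Finset.mem_insert_self _ _)
      have h3 : e ≠ {v, a} := by
        rintro rfl
        exact hve (Finset.mem_insert_self _ _)
      rw [Finset.mem_insert, Finset.mem_insert, hM.yedge e h1, Finset.mem_erase, Finset.mem_erase]
      constructor
      · rintro (h4 | h4 | h4)
        · exact absurd h4 h3
        · exact absurd h4 h2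
        · exact h4.2.2
      · intro h4
        exact Or.inr (Or.inr ⟨h2, h3, h4⟩)
  · intro e he
    rcases Finset.mem_insert.1 he with rfl | he
    · exact ⟨_, Finset.mem_insert_self _ _, hva0⟩
    rcases Finset.mem_insert.1 he with rfl | he
    · exact ⟨_, Finset.mem_insert_self _ _, hvb0⟩
    · obtain ⟨t, ht, h1⟩ := hM.ycov e he
      exact ⟨t, Finset.mem_insert_of_mem ht, h1⟩
  · intro t ht
    rcases Finset.mem_insert.1 ht with rfl | ht
    · have h1 : ((insert {v, a} (insert {v, b} Y) : Finset (Finset (Ed d))).filter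
          fun e => e ⊆ ({v, a, b} : Finset (Ed d))) = {{v, a}, {v, b}} := by
        ext e
        rw [Finset.mem_filter, Finset.mem_insert, Finset.mem_insert, Finset.mem_insert, Finset.mem_singleton]
        constructor
        · rintro ⟨h1 | h1 | h1, h2⟩
          · exact Or.inl h1
          · exact Or.inr h1
          · exact absurd (P6_eq h.ab (hvY e h1) h2 (hM.ysub e h1).2 ▸ h1) habY
        · rintro (rfl | rfl)
          · exact ⟨Or.inl rfl, hva0⟩
          · exact ⟨Or.inr (Or.inl rfl), hvb0⟩
      rw [h1, Finset.card_pair hne]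
    · rw [Finset.filter_insert, if_neg, Finset.filter_insert, if_neg]
      · exact hM.deg t ht
      · intro h1
        exact hvT t ht (h1 (Finset.mem_insert_self _ _))
      · intro h1
        exact hvT t ht (h1 (Finset.mem_insert_self _ _))
  · intro K hK
    have hE := hM.par K (fun e e' hl hKe =>
      hK e e' (P6_Lk hsub (Finset.subset_insert _ _) hl) hKe)
    have hKK : K {v, a} ↔ K {v, b} := by
      constructor
      · exact hK _ _ ⟨_, Finset.mem_insert_self _ _, hmv, hmb, hva0, hvb0⟩
      · exact hK _ _ ⟨_, Finset.mem_insert_self _ _, hmb, hmv, hvb0, hva0⟩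
    have hb' : ({v, b} : Finset (Ed d)) ∈ X.erase {v, a} := Finset.mem_erase.2 ⟨hne.symm, hb⟩
    rw [← Finset.insert_erase ha, ← Finset.insert_erase hb', Finset.filter_insert, Finset.filter_insert]
    have h1 : ({v, b} : Finset (Ed d)) ∉ ((X.erase {v, a}).erase {v, b}).filter K := by
      intro h1
      exact (Finset.mem_erase.1 (Finset.mem_filter.1 h1).1).1 rfl
    have h2 : ({v, a} : Finset (Ed d)) ∉ insert {v, b} (((X.erase {v, a}).erase {v, b}).filter K) := by
      intro h1
      rcases Finset.mem_insert.1 h1 with h1 | h1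
      · exact hne h1
      · exact (Finset.mem_erase.1 (Finset.mem_of_mem_erase (Finset.mem_filter.1 h1).1)).1 rfl
    by_cases hk : K {v, b}
    · rw [if_pos hk, if_pos (hKK.2 hk), Finset.card_insert_of_notMem h2, Finset.card_insert_of_notMem h1]
      rw [Nat.even_add_one, Nat.even_add_one, not_not]
      exact hE
    · rw [if_neg hk, if_neg (fun h3 => hk (hKK.1 h3))]
      exact hE

end Pool.Agent.LibTet88
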