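import Mathlib
import Pool.Agent.LibTet88.Basic
import Pool.Agent.LibTet88.P7
import Pool.Agent.LibTet88.P8

/-! Row P9.
r' := EqvGen (fun p q => r p q ∨ (p = {v, a} ∧ q = {v, b})). X' := (X.erase {v, a}).erase {v, b}. Write α := {v, a}, β := {v, b}, α ≠ β.
NoSing X' r': let e ∈ X'. Case 2 (4 ≤ X.card and all elements r-equivalent): X'.card ≥ 2, so there is e' ∈ X', e' ≠ e (Finset.exists_mem_ne), r e e'. Case 1 (¬ r α β): partner e' of e in X. If e' ∈ X': done. If e' = α: r e α; β has a partner e'' ∈ X, e'' ≠ β, r β e''; e'' ≠ α (¬ r α β, symmetry), so e'' ∈ X'; e'' ≠ e, since otherwise r β e and r e α give r α β. And e r' α r' β r' e''. If e' = β: symmetric.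
IH gives Y, T; take insert α (insert β Y), insert t0 T: mark_two. With R1, R2 as in P8 EqvGen R1 → EqvGen R2 (the pair (α, β) is linked through t0). So all elements of Y are connected. α is connected to β (t0), and one of them has an r-partner in X' ⊆ Y (X' ⊆ edg F' by h.edges, yedge): case 1: the partner of α is ≠ β; case 2: any element of X' (nonempty). So everything is connected.
-/

set_option autoImplicit false

namespace Pool.Agent.LibTet88

open Finset Pool.Agent.LibPol19
open scoped Classical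

variable {d : ℕ}

/-- P9: the polygon theorem, step with two marked edges -/
theorem step_two {F : Finset (Ed d)} (hF : Poly F) {v a b : Ed d} (h : Ear F v a b) {X : Finset (Finset (Ed d))}
    (hX : X ⊆ edg F) (ha : ({v, a} : Finset (Ed d)) ∈ X) (hb : ({v, b} : Finset (Ed d)) ∈ X)
    {r : Finset (Ed d) → Finset (Ed d) → Prop} (hr : Equivalence r) (hs : NoSing X r)
    (hc : ¬ r {v, a} {v, b} ∨ (4 ≤ X.card ∧ ∀ e ∈ X, ∀ e' ∈ X, r e e'))
    (IH : ∀ r' : Finset (Ed d) → Finset (Ed d) → Prop, Equivalence r' →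
      NoSing ((X.erase {v, a}).erase {v, b}) r' → Gd (F.erase v) ((X.erase {v, a}).erase {v, b}) r') :
    Gd F X r := by
  have hne : ({v, a} : Finset (Ed d)) ≠ {v, b} := P6_pair h.ab h.va
  have hr' : Equivalence (Relation.EqvGen (fun p q => r p q ∨ (p = ({v, a} : Finset (Ed d)) ∧ q = {v, b}))) :=
    Relation.EqvGen.is_equivalence _
  have hin : ∀ p q, r p q →
      Relation.EqvGen (fun p q => r p q ∨ (p = ({v, a} : Finset (Ed d)) ∧ q = {v, b})) p q :=
    fun p q hpq => Relation.EqvGen.rel _ _ (Or.inl hpq)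
  have hvab : Relation.EqvGen (fun p q => r p q ∨ (p = ({v, a} : Finset (Ed d)) ∧ q = {v, b})) {v, a} {v, b} :=
    Relation.EqvGen.rel _ _ (Or.inr ⟨rfl, rfl⟩)
  have hmem : ∀ e, e ≠ {v, a} → e ≠ {v, b} → e ∈ X → e ∈ (X.erase {v, a}).erase {v, b} :=
    fun e h1 h2 h3 => Finset.mem_erase.2 ⟨h2, Finset.mem_erase.2 ⟨h1, h3⟩⟩
  have hb' : ({v, b} : Finset (Ed d)) ∈ X.erase {v, a} := Finset.mem_erase.2 ⟨hne.symm, hb⟩
  have hcard : ((X.erase {v, a}).erase {v, b}).card + 2 = X.card := by
    have h1 := Finset.card_erase_add_one hb'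
    have h2 := Finset.card_erase_add_one ha
    omega
  -- one of the two marked edges is connected with the rest
  have hpart : ∃ e ∈ (X.erase {v, a}).erase {v, b}, r {v, a} e := by
    rcases hc with hc | ⟨hc1, hc2⟩
    · obtain ⟨e', he', h1, h2⟩ := hs _ ha
      refine ⟨e', hmem _ h1 ?_ he', h2⟩
      rintro rfl
      exact hc h2
    · have h1 : ((X.erase {v, a}).erase {v, b}).Nonempty := Finset.card_pos.1 (by omega)
      obtain ⟨e, he⟩ := h1
      exact ⟨e, he, hc2 _ ha _ (Finset.mem_of_mem_erase (Finset.mem_of_mem_erase he))⟩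
  obtain ⟨Y, T, hM, hcn⟩ := IH _ hr' (by
    intro e he
    obtain ⟨h1, h2⟩ := Finset.mem_erase.1 he
    obtain ⟨h2, h3⟩ := Finset.mem_erase.1 h2
    rcases hc with hc | ⟨hc1, hc2⟩
    · obtain ⟨e', he', h4, h5⟩ := hs _ h3
      by_cases h6 : e' = {v, a}
      · subst h6
        obtain ⟨e'', he'', h7, h8⟩ := hs _ hb
        have h9 : e'' ≠ {v, a} := by
          rintro rfl
          exact hc (hr.symm h8)
        refine ⟨e'', hmem _ h9 h7 he'', ?_, hr'.trans (hin _ _ h5) (hr'.trans hvab (hin _ _ h8))⟩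
        rintro rfl
        exact hc (hr.symm (hr.trans h8 h5))
      · by_cases h7 : e' = {v, b}
        · subst h7
          obtain ⟨e'', he'', h7, h8⟩ := hs _ ha
          have h9 : e'' ≠ {v, b} := by
            rintro rfl
            exact hc h8
          refine ⟨e'', hmem _ h7 h9 he'', ?_, hr'.trans (hin _ _ h5) (hr'.trans (hr'.symm hvab) (hin _ _ h8))⟩
          rintro rfl
          exact hc (hr.trans h8 h5)
        · exact ⟨e', hmem _ h6 h7 he', h4, hin _ _ h5⟩
    · have h4 : 1 < ((X.erase {v, a}).erase {v, b}).card := by omega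
      obtain ⟨e', he', h5⟩ := Finset.exists_mem_ne h4 e
      exact ⟨e', he', h5, hin _ _ (hc2 _ h3 _ (Finset.mem_of_mem_erase (Finset.mem_of_mem_erase he')))⟩)
  have hvb0 : ({v, b} : Finset (Ed d)) ⊆ {v, a, b} := by
    intro x hx
    simp only [Finset.mem_insert, Finset.mem_singleton] at hx ⊢
    tauto
  have hva0 : ({v, a} : Finset (Ed d)) ⊆ {v, a, b} := by
    intro x hx
    simp only [Finset.mem_insert, Finset.mem_singleton] at hx ⊢
    tauto
  have hsub : Y ⊆ (insert {v, a} (insert {v, b} Y) : Finset (Finset (Ed d))) :=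
    (Finset.subset_insert _ _).trans (Finset.subset_insert _ _)
  refine ⟨insert {v, a} (insert {v, b} Y), insert {v, a, b} T, mark_two hF h hX ha hb hM, ?_⟩
  have hlink : Relation.EqvGen (fun p q => r p q ∨ Lk (insert {v, a} (insert {v, b} Y)) (insert {v, a, b} T) p q)
      ({v, a} : Finset (Ed d)) {v, b} :=
    Relation.EqvGen.rel _ _ (Or.inr ⟨_, Finset.mem_insert_self _ _, Finset.mem_insert_self _ _,
      Finset.mem_insert_of_mem (Finset.mem_insert_self _ _), hva0, hvb0⟩)
  have hlift : ∀ p q, Relation.EqvGen (fun p q =>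
      Relation.EqvGen (fun p q => r p q ∨ (p = ({v, a} : Finset (Ed d)) ∧ q = {v, b})) p q ∨ Lk Y T p q) p q →
      Relation.EqvGen (fun p q => r p q ∨ Lk (insert {v, a} (insert {v, b} Y)) (insert {v, a, b} T) p q) p q := by
    intro p q hpq
    refine P8_lift ?_ hpq
    rintro x y (hxy | hxy)
    · refine P8_lift ?_ hxy
      rintro x y (hxy | ⟨rfl, rfl⟩)
      · exact Relation.EqvGen.rel _ _ (Or.inl hxy)
      · exact hlink
    · exact Relation.EqvGen.rel _ _ (Or.inr (P6_Lk hsub (Finset.subset_insert _ _) hxy))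
  obtain ⟨e₀, he₀, hre₀⟩ := hpart
  have he₀X : e₀ ∈ X := Finset.mem_of_mem_erase (Finset.mem_of_mem_erase he₀)
  have hve₀ : v ∉ e₀ := by
    intro h1
    rcases h.only e₀ (hX he₀X) h1 with h2 | h2
    · exact (Finset.mem_erase.1 (Finset.mem_of_mem_erase he₀)).1 h2
    · exact (Finset.mem_erase.1 he₀).1 h2
  have he₀Y : e₀ ∈ Y := (hM.yedge e₀ ((h.edges e₀).2 (Or.inl ⟨hX he₀X, hve₀⟩))).2 he₀
  have hva : Relation.EqvGen
      (fun p q => r p q ∨ Lk (insert {v, a} (insert {v, b} Y)) (insert {v, a, b} T) p q) {v, a} e₀ :=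
    Relation.EqvGen.rel _ _ (Or.inl hre₀)
  have hall : ∀ e ∈ insert {v, a} (insert {v, b} Y), Relation.EqvGen
      (fun p q => r p q ∨ Lk (insert {v, a} (insert {v, b} Y)) (insert {v, a, b} T) p q) e e₀ := by
    intro e he
    rcases Finset.mem_insert.1 he with rfl | he
    · exact hva
    rcases Finset.mem_insert.1 he with rfl | he
    · exact Relation.EqvGen.trans _ _ _ (Relation.EqvGen.symm _ _ hlink) hva
    · exact hlift _ _ (hcn e he _ he₀Y)
  intro e he e' he'
  exact Relation.EqvGen.trans _ _ _ (hall e he) (Relation.EqvGen.symm _ _ (hall e' he'))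

end Pool.Agent.LibTet88
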