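import Mathlib
import Pool.Agent.LibTet88.Basic
import Pool.Agent.LibTet88.P1
import Pool.Agent.LibTet88.P5
import Pool.Agent.LibTet88.P8
import Pool.Agent.LibTet88.P9
import Pool.Agent.LibPol19.G17
import Pool.Agent.LibPol19.G09

/-! Row P10.
The polygon theorem. Induction on F.card (strong, generalizing F, X, r). F.card ≥ 3 (dm F = 2: dm_zero, dm_one; card 0: dm ∅ = 0). F.card = 3: mark_base. F.card ≥ 4:
(A) some ear (v, a, b) (exists_ear) has exactly one of {v, a}, {v, b} in X. By symmetry of Ear in a, b (prove Ear.symm : Ear F v a b → Ear F v b a; {a, b} = {b, a}: Finset.pair_comm) let {v, b} ∈ X, {v, a} ∉ X. step_one; the induction hypothesis for F.erase v and X' = insert {a, b} (X.erase {v, b}): X' ⊆ edg (F.erase v) (h.edges; the elements of X other than {v, b} do not contain v by h.only and ha), nonempty, X'.card = X.card ({a, b} ∉ X).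
(B) otherwise, for every v ∈ F and every ear (v, a, b): {v, a} ∈ X ↔ {v, b} ∈ X. Then X = edg F: let {x, y} ∈ X; claim: for every z reachable from x (conn_face for V := F and the face F) all edges at z are in X: at x: both edges at x by (B) ({x, y} is one of them by `only`); step z → z' adjacent: {z, z'} ∈ X is an edge at z', so both edges at z' are in X. Every edge {z, z'} ∈ edg F then is in X.
 Now {v, a}, {v, b} ∈ X for any ear. X.card ≥ 3: with Ear F v a b: {v, a}, {v, b} and, with Ear F a c e ({v, a} is {a, c} or {a, e}), the other edge at a, which is different from {v, a} and does not equal {v, b} (it contains a ∉ {v, b}). X.card even, so ≥ 4.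
 (B1) if some ear has ¬ r {v, a} {v, b}: step_two with Or.inl. (B2) otherwise r {v, a} {v, b} for all ears: then all elements of X are r-equivalent: fix v0 and the edge {v0, a0}; for z reachable from v0 all edges at z are r-equivalent to {v0, a0} (same induction). step_two with Or.inr.
 In both cases X' := (X.erase {v, a}).erase {v, b} ⊆ edg (F.erase v), X'.card = X.card - 2 is even and ≥ 2 (nonempty).
-/

set_option autoImplicit false

namespace Pool.Agent.LibTet88

open Finset Pool.Agent.LibPol19
open scoped Classical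

variable {d : ℕ}

theorem P10_symm {F : Finset (Ed d)} {v a b : Ed d} (h : Ear F v a b) : Ear F v b a where
  hv := h.hv
  ha := h.hb
  hb := h.ha
  va := h.vb
  vb := h.va
  ab := h.ab.symm
  eva := h.evb
  evb := h.eva
  nab := by
    rw [Finset.pair_comm]
    exact h.nab
  only := fun e he hv => (h.only e he hv).symm
  poly := h.poly
  edges := fun e => by rw [h.edges e, Finset.pair_comm a b]

theorem P10_card {F : Finset (Ed d)} (hF : Poly F) : 3 ≤ F.card := by
  by_contra hcon
  have h2 := hF.2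
  have h3 : F.card = 0 ∨ F.card = 1 ∨ F.card = 2 := by omega
  rcases h3 with h3 | h3 | h3
  · rw [Finset.card_eq_zero] at h3
    rw [h3] at h2
    unfold dm at h2
    rw [Finset.coe_empty, vectorSpan_empty, finrank_bot] at h2
    omega
  · rw [dm_zero h3] at h2
    omega
  · rw [dm_one h3] at h2
    omega

theorem P10_at {F : Finset (Ed d)} {P : Finset (Ed d) → Prop}
    (hP : ∀ v a b, Ear F v a b → (P {v, a} ↔ P {v, b})) (hF : Poly F) (h4 : 4 ≤ F.card) {e e' : Finset (Ed d)}
    (he : e ∈ edg F) (he' : e' ∈ edg F) {z : Ed d} (hz : z ∈ e) (hz' : z ∈ e') (h : P e) : P e' := by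
  obtain ⟨a, b, h1⟩ := exists_ear hF h4 ((mem_edg.1 he).1 hz)
  have h2 := hP z a b h1
  rcases h1.only e he hz with h3 | h3 <;> rcases h1.only e' he' hz' with h4 | h4
  · rw [h4, ← h3]
    exact h
  · rw [h4]
    rw [h3] at h
    exact h2.1 h
  · rw [h4]
    rw [h3] at h
    exact h2.2 h
  · rw [h4, ← h3]
    exact h

theorem P10_prop {F : Finset (Ed d)} {P : Finset (Ed d) → Prop}
    (hP : ∀ v a b, Ear F v a b → (P {v, a} ↔ P {v, b})) (hF : Poly F) (h4 : 4 ≤ F.card) {e e' : Finset (Ed d)}
    (he : e ∈ edg F) (he' : e' ∈ edg F) (h : P e) : P e' := by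
  obtain ⟨x, y, rfl, hxy⟩ := edg_pair he
  obtain ⟨x', y', rfl, hxy'⟩ := edg_pair he'
  have hx : x ∈ F := (mem_edg.1 he).1 (Finset.mem_insert_self _ _)
  have hx' : x' ∈ F := (mem_edg.1 he').1 (Finset.mem_insert_self _ _)
  have h1 := conn_face hF.1 (face_self ⟨x, hx⟩) hx hx'
  have h2 : ∀ w, Relation.ReflTransGen (fun u w => Adj F u w ∧ w ∈ F) x w → ∀ g ∈ edg F, w ∈ g → P g := by
    intro w hw
    induction hw with
    | refl =>
      intro g hg hxg
      exact P10_at hP hF h4 he hg (Finset.mem_insert_self _ _) hxg h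
    | @tail z w _ hzw ih =>
      intro g hg hwg
      have h5 : ({z, w} : Finset (Ed d)) ∈ edg F := pair_mem_edg.2 hzw.1
      exact P10_at hP hF h4 h5 hg (Finset.mem_insert_of_mem (Finset.mem_singleton_self _)) hwg
        (ih _ h5 (Finset.mem_insert_self _ _))
  exact h2 _ h1 _ he' (Finset.mem_insert_self _ _)

/-- P10: the polygon theorem -/
theorem poly_thm {F : Finset (Ed d)} (hF : Poly F) {X : Finset (Finset (Ed d))} (hX : X ⊆ edg F) (hne : X.Nonempty)
    (he : Even X.card) {r : Finset (Ed d) → Finset (Ed d) → Prop} (hr : Equivalence r) (hs : NoSing X r) :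
    Gd F X r := by
  obtain ⟨n, hn⟩ : ∃ n, n = F.card := ⟨_, rfl⟩
  induction n using Nat.strong_induction_on generalizing F X r with
  | _ n ih =>
  have h3 : 3 ≤ F.card := P10_card hF
  rcases Nat.eq_or_lt_of_le h3 with h3 | h4
  · exact mark_base hF h3.symm hX hne he r
  have h4 : 4 ≤ F.card := h4
  by_cases hA : ∃ v a b, Ear F v a b ∧ ({v, b} : Finset (Ed d)) ∈ X ∧ ({v, a} : Finset (Ed d)) ∉ X
  · obtain ⟨v, a, b, h, hb, ha⟩ := hA
    have habX : ({a, b} : Finset (Ed d)) ∉ X := fun h' => h.nab (hX h')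
    refine step_one hF h hX hb ha hr hs (fun r' hr' hs' => ih (F.erase v).card ?_ h.poly ?_ ?_ ?_ hr' hs' rfl)
    · rw [hn]
      exact Finset.card_erase_lt_of_mem h.hv
    · intro e he
      rcases Finset.mem_insert.1 he with rfl | he
      · exact (h.edges _).2 (Or.inr rfl)
      · obtain ⟨h1, h2⟩ := Finset.mem_erase.1 he
        refine (h.edges e).2 (Or.inl ⟨hX h2, fun hv => ?_⟩)
        rcases h.only e (hX h2) hv with h3 | h3
        · exact ha (h3 ▸ h2)
        · exact h1 h3
    · exact ⟨_, Finset.mem_insert_self _ _⟩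
    · rw [Finset.card_insert_of_notMem (fun h' => habX (Finset.mem_of_mem_erase h')),
        Finset.card_erase_add_one hb]
      exact he
  have hB : ∀ v a b, Ear F v a b → (({v, a} : Finset (Ed d)) ∈ X ↔ ({v, b} : Finset (Ed d)) ∈ X) := by
    intro v a b h
    constructor
    · intro h1
      by_contra h2
      exact hA ⟨v, b, a, P10_symm h, h1, h2⟩
    · intro h1
      by_contra h2
      exact hA ⟨v, a, b, h, h1, h2⟩
  obtain ⟨e₀, he₀⟩ := hne
  have hXall : ∀ e ∈ edg F, e ∈ X := fun e he => P10_prop hB hF h4 (hX he₀) he he₀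
  have hcard : 4 ≤ X.card := by
    obtain ⟨v, hv⟩ : F.Nonempty := Finset.card_pos.1 (by omega)
    obtain ⟨a, b, h⟩ := exists_ear hF h4 hv
    obtain ⟨c, e, h'⟩ := exists_ear hF h4 h.ha
    obtain ⟨g, hg, hag, hgv⟩ : ∃ g ∈ edg F, a ∈ g ∧ g ≠ {v, a} := by
      by_cases h1 : ({a, c} : Finset (Ed d)) = {v, a}
      · refine ⟨{a, e}, h'.evb, Finset.mem_insert_self _ _, fun h2 => ?_⟩
        exact P6_pair h'.ab h'.va (h1.trans h2.symm)
      · exact ⟨{a, c}, h'.eva, Finset.mem_insert_self _ _, h1⟩
    have hgb : g ≠ {v, b} := by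
      rintro rfl
      rw [Finset.mem_insert, Finset.mem_singleton] at hag
      rcases hag with h1 | h1
      · exact h.va h1.symm
      · exact h.ab h1
    have h5 : ({{v, a}, {v, b}, g} : Finset (Finset (Ed d))) ⊆ X := by
      intro x hx
      simp only [Finset.mem_insert, Finset.mem_singleton] at hx
      rcases hx with rfl | rfl | rfl
      · exact hXall _ h.eva
      · exact hXall _ h.evb
      · exact hXall _ hg
    have h6 : ({{v, a}, {v, b}, g} : Finset (Finset (Ed d))).card = 3 :=
      Finset.card_eq_three.2 ⟨_, _, _, P6_pair h.ab h.va, hgv.symm, hgb.symm, rfl⟩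
    have h7 := Finset.card_le_card h5
    rw [h6] at h7
    obtain ⟨k, hk⟩ := he
    omega
  have hstep : ∀ v a b, Ear F v a b → (¬ r {v, a} {v, b} ∨ (4 ≤ X.card ∧ ∀ e ∈ X, ∀ e' ∈ X, r e e')) → Gd F X r := by
    intro v a b h hc
    have ha := hXall _ h.eva
    have hb := hXall _ h.evb
    have hne : ({v, a} : Finset (Ed d)) ≠ {v, b} := P6_pair h.ab h.va
    have hb' : ({v, b} : Finset (Ed d)) ∈ X.erase {v, a} := Finset.mem_erase.2 ⟨hne.symm, hb⟩
    have hcd : ((X.erase {v, a}).erase {v, b}).card + 2 = X.card := by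
      have h1 := Finset.card_erase_add_one hb'
      have h2 := Finset.card_erase_add_one ha
      omega
    refine step_two hF h hX ha hb hr hs hc (fun r' hr' hs' => ih (F.erase v).card ?_ h.poly ?_ ?_ ?_ hr' hs' rfl)
    · rw [hn]
      exact Finset.card_erase_lt_of_mem h.hv
    · intro e he
      obtain ⟨h1, h2⟩ := Finset.mem_erase.1 he
      obtain ⟨h2, h3⟩ := Finset.mem_erase.1 h2
      refine (h.edges e).2 (Or.inl ⟨hX h3, fun hv => ?_⟩)
      rcases h.only e (hX h3) hv with h5 | h5
      · exact h2 h5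
      · exact h1 h5
    · exact Finset.card_pos.1 (by omega)
    · rw [← hcd, Nat.even_add] at he
      exact he.2 even_two
  by_cases hr1 : ∃ v a b, Ear F v a b ∧ ¬ r {v, a} {v, b}
  · obtain ⟨v, a, b, h, h1⟩ := hr1
    exact hstep v a b h (Or.inl h1)
  · have hr2 : ∀ v a b, Ear F v a b → r {v, a} {v, b} := by
      intro v a b h
      by_contra h1
      exact hr1 ⟨v, a, b, h, h1⟩
    obtain ⟨v, hv⟩ : F.Nonempty := Finset.card_pos.1 (by omega)
    obtain ⟨a, b, h⟩ := exists_ear hF h4 hv
    refine hstep v a b h (Or.inr ⟨hcard, fun e he e' he' => ?_⟩)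
    refine P10_prop (P := fun g => r e g) (fun v a b h => ?_) hF h4 (hX he) (hX he') (hr.refl e)
    exact ⟨fun h1 => hr.trans h1 (hr2 v a b h), fun h1 => hr.trans h1 (hr.symm (hr2 v a b h))⟩

end Pool.Agent.LibTet88
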