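import Mathlib
import Pool.Agent.LibTet88.Basic
import Pool.Agent.LibTet88.Q3

/-! Row R1.
Double counting modulo 2. Let Γ_K := Γ.filter K. Since ((xs Γ F).filter K).card = (Γ_K.filter (· ⊆ F)).card (filter_filter, and_comm), the sum over F ∈ Fw V w equals ∑ e ∈ Γ_K, ((Fw V w).filter (e ⊆ ·)).card (Finset.sum_card_bipartiteAbove_eq_sum_card_bipartiteBelow, or write card (filter) as a sum of ite and use Finset.sum_comm). For e ∈ Γ_K: the term is 2 if e ≠ g, g', and 1 if e = g or e = g' (h.two, h.one, h.one'; g ≠ g'). So modulo 2 the sum is (if K g then 1 else 0) + (if K g' then 1 else 0) (e.g. ∑ e ∈ Γ_K, term ≡ ∑ e ∈ Γ_K, ((if e = g then 1 else 0) + (if e = g' then 1 else 0)) [MOD 2], then Finset.sum_ite_eq, g, g' ∈ Γ).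
par_one: the sum over Fw is the term of F0 plus the sum over the others, which is even (Finset.even_sum / sum over Fw.erase F0, Finset.add_sum_erase); with K g ↔ K g' the right side is even. par_all: if all terms are even then the right side is even: K g and not K g' is impossible.
-/

set_option autoImplicit false

namespace Pool.Agent.LibTet88

open Finset Pool.Agent.LibPol19
open scoped Classical

variable {d : ℕ}

theorem R1_count {α β : Type*} (A : Finset α) (B : Finset β) (r : α → β → Prop)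
    [∀ a b, Decidable (r a b)] :
    ∑ b ∈ B, (A.filter fun a => r a b).card = ∑ a ∈ A, (B.filter fun b => r a b).card := by
  simp only [Finset.card_filter]
  exact Finset.sum_comm

/-- R1: the parity lemma -/
theorem trail_parity {V : Finset (Ed 3)} {w : Ed 3} {Γ : Finset (Finset (Ed 3))} {g g' : Finset (Ed 3)}
    (h : Trail V w Γ g g') (K : Finset (Ed 3) → Prop) :
    (∑ F ∈ Fw V w, ((xs Γ F).filter K).card) % 2 = ((if K g then 1 else 0) + (if K g' then 1 else 0)) % 2 := by
  have h1 : ∑ F ∈ Fw V w, ((xs Γ F).filter K).card =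
      ∑ e ∈ Γ.filter K, ((Fw V w).filter fun F => e ⊆ F).card := by
    rw [← R1_count (Γ.filter K) (Fw V w) (fun e F => e ⊆ F)]
    apply Finset.sum_congr rfl
    intro F _
    have h2 : (xs Γ F).filter K = (Γ.filter K).filter fun e => e ⊆ F := by
      unfold xs
      ext e
      simp only [Finset.mem_filter]
      tauto
    rw [h2]
  have h3 : ∀ e ∈ Γ.filter K, ((Fw V w).filter fun F => e ⊆ F).card % 2 =
      ((if e = g then 1 else 0) + (if e = g' then 1 else 0)) % 2 := by
    intro e he
    rw [Finset.mem_filter] at he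
    by_cases h4 : e = g
    · have h5 : ¬ e = g' := fun h5 => h.hne (h4.symm.trans h5)
      rw [if_pos h4, if_neg h5, h4, h.one]
    · by_cases h5 : e = g'
      · rw [if_neg h4, if_pos h5, h5, h.one']
      · rw [if_neg h4, if_neg h5, h.two e he.1 h4 h5]
  rw [h1, Finset.sum_nat_mod, Finset.sum_congr rfl h3, ← Finset.sum_nat_mod,
    Finset.sum_add_distrib, Finset.sum_ite_eq', Finset.sum_ite_eq']
  have h6 : (if g ∈ Γ.filter K then 1 else 0) = (if K g then 1 else 0) := by
    by_cases h7 : K g
    · rw [if_pos h7, if_pos (Finset.mem_filter.2 ⟨h.hg, h7⟩)]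
    · rw [if_neg h7, if_neg (fun h8 => h7 (Finset.mem_filter.1 h8).2)]
  have h6' : (if g' ∈ Γ.filter K then 1 else 0) = (if K g' then 1 else 0) := by
    by_cases h7 : K g'
    · rw [if_pos h7, if_pos (Finset.mem_filter.2 ⟨h.hg', h7⟩)]
    · rw [if_neg h7, if_neg (fun h8 => h7 (Finset.mem_filter.1 h8).2)]
  rw [h6, h6']

theorem par_one {V : Finset (Ed 3)} {w : Ed 3} {Γ : Finset (Finset (Ed 3))} {g g' : Finset (Ed 3)}
    (h : Trail V w Γ g g') (K : Finset (Ed 3) → Prop) (hK : K g ↔ K g') {F₀ : Finset (Ed 3)} (hF₀ : F₀ ∈ Fw V w)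
    (he : ∀ F ∈ Fw V w, F ≠ F₀ → Even ((xs Γ F).filter K).card) : Even ((xs Γ F₀).filter K).card := by
  have h1 := trail_parity h K
  rw [← Finset.add_sum_erase _ _ hF₀] at h1
  have h2 : Even (∑ F ∈ (Fw V w).erase F₀, ((xs Γ F).filter K).card) := by
    apply Finset.even_sum
    intro F hF
    rw [Finset.mem_erase] at hF
    exact he F hF.2 hF.1
  rw [Nat.even_iff] at h2 ⊢
  have h3 : ((if K g then 1 else 0) + (if K g' then 1 else 0)) % 2 = 0 := by
    by_cases h4 : K g
    · rw [if_pos h4, if_pos (hK.1 h4)]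
    · rw [if_neg h4, if_neg (fun h5 => h4 (hK.2 h5))]
  rw [h3] at h1
  omega

theorem par_all {V : Finset (Ed 3)} {w : Ed 3} {Γ : Finset (Finset (Ed 3))} {g g' : Finset (Ed 3)}
    (h : Trail V w Γ g g') (K : Finset (Ed 3) → Prop)
    (he : ∀ F ∈ Fw V w, Even ((xs Γ F).filter K).card) (hg : K g) : K g' := by
  have h1 := trail_parity h K
  have h2 : Even (∑ F ∈ Fw V w, ((xs Γ F).filter K).card) := Finset.even_sum _ he
  rw [Nat.even_iff] at h2
  by_contra h3
  rw [h2, if_pos hg, if_neg h3] at h1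
  omega

end Pool.Agent.LibTet88
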