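import Mathlib
import Pool.Agent.LibTet88.Basic

/-! Row R4.
Only combinatorics. Let P k := ∃ f : ℕ → α, f 0 = a₀ ∧ (∀ i < k, f i ∈ s) ∧ (∀ i < k, ∀ j < k, f i = f j → i = j) ∧ ∀ i, i + 1 < k → adj (f i) (f (i + 1)). P 1 holds; P k implies k ≤ s.card (Finset.card_le_card_of_injOn from range k). Take the largest k ≥ 1 with P k (Nat.findGreatest, or Nat.find on s.card - k). Suppose k < s.card. The image I of f on range k is ≠ s, so some a ∈ s is not in I. Along the ReflTransGen chain from a₀ = f 0 ∈ I to a there is a step x → y, adj x y, y ∈ s, x ∈ I, y ∉ I (induction: if the chain never leaves I then a ∈ I). x = f i, i < k. If i = k - 1: extend f by f k := y (Function.update f k y): P (k + 1). If 0 < i < k - 1: f (i - 1), f (i + 1), y are three different elements of s.filter (b ≠ f i ∧ adj (f i) b) (hsymm for i - 1): card ≥ 3, contradiction with hdeg. If i = 0 < k - 1: f 1 and y are two different elements of the filter for a₀: contradiction with h1. So k = s.card.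
-/

set_option autoImplicit false

namespace Pool.Agent.LibTet88

open Finset Pool.Agent.LibPol19
open scoped Classical

variable {d : ℕ}

theorem R4_step {α : Type*} (r : α → α → Prop) (I : α → Prop) (a b : α)
    (h : Relation.ReflTransGen r a b) (ha : I a) (hb : ¬ I b) : ∃ x y, I x ∧ ¬ I y ∧ r x y := by
  induction h with
  | refl => exact absurd ha hb
  | @tail c e _ hce ih =>
    by_cases hc : I c
    · exact ⟨c, e, hc, hb, hce⟩
    · exact ih hc

/-- a path of length `k` from `a₀` -/
def R4_P {α : Type*} (s : Finset α) (adj : α → α → Prop) (a₀ : α) (k : ℕ) : Prop :=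
  ∃ f : ℕ → α, f 0 = a₀ ∧ (∀ i < k, f i ∈ s) ∧ (∀ i < k, ∀ j < k, f i = f j → i = j) ∧
    ∀ i, i + 1 < k → adj (f i) (f (i + 1))

theorem R4_ext {α : Type*} (s : Finset α) (adj : α → α → Prop) (hsymm : ∀ a b, adj a b → adj b a)
    (hdeg : ∀ a ∈ s, (s.filter fun b => b ≠ a ∧ adj a b).card ≤ 2) {a₀ : α}
    (h1 : (s.filter fun b => b ≠ a₀ ∧ adj a₀ b).card ≤ 1)
    (hconn : ∀ a ∈ s, Relation.ReflTransGen (fun a b => adj a b ∧ b ∈ s) a₀ a) (k : ℕ)
    (hk1 : 1 ≤ k) (hk2 : k < s.card) (hP : R4_P s adj a₀ k) : R4_P s adj a₀ (k + 1) := by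
  obtain ⟨f, hf0, hfs, hfi, hfa⟩ := hP
  have hcard : ((Finset.range k).image f).card < s.card := by
    refine lt_of_le_of_lt Finset.card_image_le ?_
    rw [Finset.card_range]
    exact hk2
  obtain ⟨a, ha, haI⟩ := Finset.exists_mem_notMem_of_card_lt_card hcard
  obtain ⟨x, y, hx, hy, hxy, hys⟩ := R4_step (fun a b => adj a b ∧ b ∈ s)
    (fun z => z ∈ (Finset.range k).image f) a₀ a (hconn a ha) (by
      rw [Finset.mem_image]
      exact ⟨0, Finset.mem_range.2 (by omega), hf0⟩) haI
  have hy' : ∀ i < k, f i ≠ y := by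
    intro i hi hiy
    apply hy
    rw [Finset.mem_image]
    exact ⟨i, Finset.mem_range.2 hi, hiy⟩
  rw [Finset.mem_image] at hx
  obtain ⟨i, hi, hix⟩ := hx
  rw [Finset.mem_range] at hi
  rw [← hix] at hxy
  rcases Nat.lt_or_ge (i + 1) k with hik | hik
  · exfalso
    have hne1 : f (i + 1) ≠ f i := fun h => by
      have := hfi (i + 1) hik i hi h
      omega
    have hm1 : f (i + 1) ∈ s.filter fun b => b ≠ f i ∧ adj (f i) b := by
      rw [Finset.mem_filter]
      exact ⟨hfs _ hik, hne1, hfa i hik⟩
    have hm2 : y ∈ s.filter fun b => b ≠ f i ∧ adj (f i) b := by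
      rw [Finset.mem_filter]
      exact ⟨hys, fun h => hy' i hi h.symm, hxy⟩
    rcases Nat.eq_zero_or_pos i with h0 | h0
    · rw [h0, hf0] at hm2
      have hm1' : f (i + 1) ∈ s.filter fun b => b ≠ a₀ ∧ adj a₀ b := by
        rw [h0, hf0] at hm1
        rw [h0]
        exact hm1
      have h2 := Finset.card_le_one.1 h1 _ hm1' _ hm2
      exact hy' (i + 1) hik h2
    · have hi1 : i - 1 + 1 = i := by omega
      have hadj : adj (f i) (f (i - 1)) := by
        apply hsymm
        have h3 := hfa (i - 1) (by omega)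
        rw [hi1] at h3
        exact h3
      have hne2 : f (i - 1) ≠ f i := fun h => by
        have := hfi (i - 1) (by omega) i hi h
        omega
      have hne3 : f (i - 1) ≠ f (i + 1) := fun h => by
        have := hfi (i - 1) (by omega) (i + 1) hik h
        omega
      have hm3 : f (i - 1) ∈ s.filter fun b => b ≠ f i ∧ adj (f i) b := by
        rw [Finset.mem_filter]
        exact ⟨hfs _ (by omega), hne2, hadj⟩
      have hsub : ({f (i - 1), f (i + 1), y} : Finset α) ⊆
          s.filter fun b => b ≠ f i ∧ adj (f i) b := by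
        intro z hz
        rw [Finset.mem_insert, Finset.mem_insert, Finset.mem_singleton] at hz
        rcases hz with hz | hz | hz
        · rw [hz]; exact hm3
        · rw [hz]; exact hm1
        · rw [hz]; exact hm2
      have hc3 : ({f (i - 1), f (i + 1), y} : Finset α).card = 3 := by
        rw [Finset.card_insert_of_notMem, Finset.card_pair (hy' (i + 1) hik)]
        rw [Finset.mem_insert, Finset.mem_singleton]
        rintro (h | h)
        · exact hne3 h
        · exact hy' (i - 1) (by omega) h
      have := Finset.card_le_card hsub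
      have h4 := hdeg (f i) (hfs i hi)
      omega
  · have hik' : i + 1 = k := by omega
    refine ⟨fun j => if j = k then y else f j, ?_, ?_, ?_, ?_⟩
    · simp only
      rw [if_neg (by omega)]
      exact hf0
    · intro j hj
      simp only
      by_cases hjk : j = k
      · rw [if_pos hjk]
        exact hys
      · rw [if_neg hjk]
        exact hfs j (by omega)
    · intro j hj l hl hjl
      simp only at hjl
      by_cases hjk : j = k
      · by_cases hlk : l = k
        · omega
        · rw [if_pos hjk, if_neg hlk] at hjl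
          exact absurd hjl.symm (hy' l (by omega))
      · by_cases hlk : l = k
        · rw [if_neg hjk, if_pos hlk] at hjl
          exact absurd hjl (hy' j (by omega))
        · rw [if_neg hjk, if_neg hlk] at hjl
          exact hfi j (by omega) l (by omega) hjl
    · intro j hj
      simp only
      rw [if_neg (by omega : ¬ j = k)]
      by_cases hjk : j + 1 = k
      · rw [if_pos hjk]
        have hji : j = i := by omega
        rw [hji]
        exact hxy
      · rw [if_neg hjk]
        exact hfa j (by omega)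

/-- R4: a connected graph with all degrees at most two and an end has a Hamiltonian path -/
theorem ham_path {α : Type*} (s : Finset α) (adj : α → α → Prop) (hsymm : ∀ a b, adj a b → adj b a)
    (hdeg : ∀ a ∈ s, (s.filter fun b => b ≠ a ∧ adj a b).card ≤ 2) {a₀ : α} (ha₀ : a₀ ∈ s)
    (h1 : (s.filter fun b => b ≠ a₀ ∧ adj a₀ b).card ≤ 1)
    (hconn : ∀ a ∈ s, Relation.ReflTransGen (fun a b => adj a b ∧ b ∈ s) a₀ a) :
    ∃ f : ℕ → α, (∀ i < s.card, f i ∈ s) ∧ (∀ i < s.card, ∀ j < s.card, f i = f j → i = j) ∧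
      ∀ i, i + 1 < s.card → adj (f i) (f (i + 1)) := by
  have hb : ∀ k, R4_P s adj a₀ k → k ≤ s.card := by
    rintro k ⟨f, _, hfs, hfi, _⟩
    have h2 : (Finset.range k).card ≤ s.card := by
      apply Finset.card_le_card_of_injOn f
      · intro i hi
        exact Finset.mem_coe.2 (hfs i (Finset.mem_range.1 (Finset.mem_coe.1 hi)))
      · intro i hi j hj hij
        exact hfi i (Finset.mem_range.1 (Finset.mem_coe.1 hi)) j
          (Finset.mem_range.1 (Finset.mem_coe.1 hj)) hij
    rw [Finset.card_range] at h2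
    exact h2
  have hP1 : R4_P s adj a₀ 1 := by
    refine ⟨fun _ => a₀, rfl, fun _ _ => ha₀, ?_, ?_⟩
    · intro i hi j hj _
      omega
    · intro i hi
      omega
  have hs1 : 1 ≤ s.card := Finset.card_pos.2 ⟨a₀, ha₀⟩
  have hPk := Nat.findGreatest_spec (P := R4_P s adj a₀) hs1 hP1
  have hk1 := Nat.le_findGreatest (P := R4_P s adj a₀) hs1 hP1
  have hk2 := hb _ hPk
  obtain ⟨k, hk⟩ : ∃ k, k = Nat.findGreatest (R4_P s adj a₀) s.card := ⟨_, rfl⟩
  rw [← hk] at hPk hk1 hk2
  have hks : k = s.card := by
    by_contra hne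
    have hlt : k < s.card := lt_of_le_of_ne hk2 hne
    have h3 := R4_ext s adj hsymm hdeg h1 hconn k hk1 hlt hPk
    have h4 := Nat.le_findGreatest (P := R4_P s adj a₀) (hb _ h3) h3
    rw [← hk] at h4
    omega
  rw [hks] at hPk
  obtain ⟨f, _, hfs, hfi, hfa⟩ := hPk
  exact ⟨f, hfs, hfi, hfa⟩

end Pool.Agent.LibTet88
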