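import Mathlib
import Pool.Agent.LibTet88.Basic
import Pool.Agent.LibTet88.Q3

/-! Row G3.
face_tri: p ∈ hl t ∩ hl t': p ∈ hl F' and t ⊆ V, so p ∈ hl (t ∩ F') (hl_face), likewise p ∈ hl (t' ∩ F). t ∩ F' and t' ∩ F are subsets of F ∩ F', which has at most 2 elements. Subsets of a set {x, y} (or of a set with ≤ 1 element): if one of t ∩ F', t' ∩ F is ∅: impossible (hl_empty). If t ∩ F' = t' ∩ F: then it is ⊆ t ∩ t'. Otherwise one of them is a singleton {z} (or the two are {x} and {y}): p = z ∈ V; by vert_hl z ∈ t (p ∈ hl t) and z ∈ t': p = z ∈ t ∩ t'. (In fact: if one of the two sets is a singleton {z}, then p = z, vert_hl gives z ∈ t ∩ t'. Otherwise both have two elements and are equal to F ∩ F', so F ∩ F' ⊆ t ∩ t'.)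
cone_inter: p in both hulls. If p = w: mem_hl (w is in the intersection). Otherwise mem_hl_insert (t, t' nonempty): p = w + s (q - w) = w + s' (q' - w), q ∈ hl t, q' ∈ hl t', s, s' ∈ (0, 1] (s ≠ 0 since p ≠ w). F: ℓ, c: ℓ q = c (eq_of_hl, t ⊆ F), ℓ w < c, ℓ q' ≤ c. ℓ p - ℓ w = s (c - ℓ w) = s' (ℓ q' - ℓ w) ≤ s' (c - ℓ w): s ≤ s'. By symmetry (F') s' ≤ s. So s = s', q = q' ∈ hl t ∩ hl t' ⊆ hl (t ∩ t') (hi), and p = w + s (q - w) ∈ hl (insert w (t ∩ t')) (hl_insert_mem) = hl (insert w t ∩ insert w t') (Finset.insert_inter_distrib).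
-/

set_option autoImplicit false

namespace Pool.Agent.LibTet88

open Finset Pool.Agent.LibPol19
open scoped Classical

variable {d : ℕ}

theorem G3_small {V S t' : Finset (Ed 3)} (hV : IsVert V) (hS : S ⊆ V) (ht' : t' ⊆ V) (hc : S.card ≤ 1)
    {p : Ed 3} (hp : p ∈ hl S) (hp' : p ∈ hl t') : p ∈ S ∧ p ∈ t' := by
  have h0 : S.card ≠ 0 := by
    intro h
    rw [Finset.card_eq_zero] at h
    rw [h, hl_empty] at hp
    exact hp
  obtain ⟨z, rfl⟩ := Finset.card_eq_one.1 (show S.card = 1 by omega)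
  rw [hl_single, Set.mem_singleton_iff] at hp
  subst hp
  exact ⟨Finset.mem_singleton_self _,
    vert_hl hV ht' (hS (Finset.mem_singleton_self _)) hp'⟩

/-- G3: triangles in different facets -/
theorem face_tri {V : Finset (Ed 3)} (hV : IsVert V) {F F' t t' : Finset (Ed 3)} (hF : IsFace V F) (hF' : IsFace V F')
    (ht : t ⊆ F) (ht' : t' ⊆ F') (h2 : (F ∩ F').card ≤ 2) : hl t ∩ hl t' ⊆ hl (t ∩ t') := by
  rintro p ⟨hp, hp'⟩
  have htV : t ⊆ V := ht.trans hF.2.1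
  have htV' : t' ⊆ V := ht'.trans hF'.2.1
  have h3 : p ∈ hl (t ∩ F') := hl_face hF' htV hp (hl_mono ht' hp')
  have h4 : p ∈ hl (t' ∩ F) := hl_face hF htV' hp' (hl_mono ht hp)
  by_cases hc : (t ∩ F').card ≤ 1
  · obtain ⟨h5, h6⟩ := G3_small hV (Finset.inter_subset_left.trans htV) htV' hc h3 hp'
    exact mem_hl (Finset.mem_inter.2 ⟨(Finset.mem_inter.1 h5).1, h6⟩)
  by_cases hc' : (t' ∩ F).card ≤ 1
  · obtain ⟨h5, h6⟩ := G3_small hV (Finset.inter_subset_left.trans htV') htV hc' h4 hp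
    exact mem_hl (Finset.mem_inter.2 ⟨h6, (Finset.mem_inter.1 h5).1⟩)
  have h5 : t ∩ F' = F ∩ F' :=
    Finset.eq_of_subset_of_card_le (Finset.inter_subset_inter_right ht) (by omega)
  have h6 : t' ∩ F = F ∩ F' :=
    Finset.eq_of_subset_of_card_le (by
      intro v hv
      rw [Finset.mem_inter] at hv ⊢
      exact ⟨hv.2, ht' hv.1⟩) (by omega)
  refine hl_mono ?_ h3
  intro v hv
  rw [Finset.mem_inter]
  refine ⟨(Finset.mem_inter.1 hv).1, ?_⟩
  rw [h5, ← h6] at hv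
  exact (Finset.mem_inter.1 hv).1

theorem G3_le {V : Finset (Ed 3)} {w : Ed 3} (hw : w ∈ V) {F t t' : Finset (Ed 3)} (hF : IsFace V F)
    (hwF : w ∉ F) (ht : t ⊆ F) (ht' : t' ⊆ V) {p q q' : Ed 3} (hq : q ∈ hl t) (hq' : q' ∈ hl t')
    {s s' : ℝ} (hs' : 0 ≤ s') (h1 : p = w + s • (q - w)) (h2 : p = w + s' • (q' - w)) : s ≤ s' := by
  obtain ⟨-, hFV, ℓ, c, hℓ⟩ := hF
  have h3 : ℓ q = c := eq_of_hl ℓ (fun v hv => (hℓ v (hFV (ht hv))).2.2 (ht hv)) hq
  have h4 : ℓ q' ≤ c := le_of_hl ℓ (fun v hv => (hℓ v (ht' hv)).1) hq'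
  have h5 : ℓ w < c := lt_of_le_of_ne (hℓ w hw).1 (fun h => hwF ((hℓ w hw).2.1 h))
  have h6 : ℓ p = ℓ w + s * (c - ℓ w) := by
    rw [h1, map_add, map_smul, map_sub, smul_eq_mul, h3]
  have h7 : ℓ p = ℓ w + s' * (ℓ q' - ℓ w) := by
    rw [h2, map_add, map_smul, map_sub, smul_eq_mul]
  have h8 : s' * (ℓ q' - ℓ w) ≤ s' * (c - ℓ w) := mul_le_mul_of_nonneg_left (by linarith) hs'
  exact le_of_mul_le_mul_right (show s * (c - ℓ w) ≤ s' * (c - ℓ w) by linarith) (by linarith)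

/-- G3: cones over triangles -/
theorem cone_inter {V : Finset (Ed 3)} {w : Ed 3} (hw : w ∈ V) {F F' t t' : Finset (Ed 3)} (hF : F ∈ Fw V w)
    (hF' : F' ∈ Fw V w) (ht : t ⊆ F) (ht' : t' ⊆ F') (hn : t.Nonempty) (hn' : t'.Nonempty)
    (hi : hl t ∩ hl t' ⊆ hl (t ∩ t')) : hl (insert w t) ∩ hl (insert w t') ⊆ hl (insert w t ∩ insert w t') := by
  rintro p ⟨hp, hp'⟩
  obtain ⟨⟨fF, -⟩, wF⟩ := mem_Fw.1 hF
  obtain ⟨⟨fF', -⟩, wF'⟩ := mem_Fw.1 hF'
  have heq : insert w t ∩ insert w t' = insert w (t ∩ t') := (Finset.insert_inter_distrib t t' w).symm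
  rw [heq]
  by_cases hpw : p = w
  · rw [hpw]
    exact mem_hl (Finset.mem_insert_self _ _)
  obtain ⟨q, hq, s, hs0, hs1, hps⟩ := mem_hl_insert hn hp
  obtain ⟨q', hq', s', hs0', hs1', hps'⟩ := mem_hl_insert hn' hp'
  have h1 : s ≤ s' := G3_le hw fF wF ht (ht'.trans fF'.2.1) hq hq' hs0' hps hps'
  have h2 : s' ≤ s := G3_le hw fF' wF' ht' (ht.trans fF.2.1) hq' hq hs0 hps' hps
  have h3 : s = s' := le_antisymm h1 h2
  subst h3
  have hsne : s ≠ 0 := by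
    rintro rfl
    apply hpw
    rw [hps, zero_smul, add_zero]
  have hqq : q = q' := by
    have h4 : s • (q - w) = s • (q' - w) := by
      rw [hps] at hps'
      exact add_left_cancel hps'
    have h5 := smul_right_injective _ hsne h4
    exact sub_left_injective h5
  subst hqq
  rw [hps]
  exact hl_insert_mem (hi ⟨hq, hq'⟩) hs0 hs1

end Pool.Agent.LibTet88
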