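import Mathlib
import Pool.Agent.LibTet88.Basic
import Pool.Agent.LibTet88.Q3
import Pool.Agent.LibPol19.G09
import Pool.Agent.LibPol19.G18

/-! Row C1.
Facets A ∋ w, x and B ∋ w, y (hx, hy : Bd). By he ({x, y} ∈ Est V w) no facet through w contains both x and y; so A ≠ B, x ∉ B, y ∉ A. A ∩ B = {w, n} (fct_inter). Adj V x y. w ≠ x (x ∉ B), w ≠ y, x ≠ y.
exists_fun (G18) with F := V (dm V = 3 since Full V), v := w, S := {x, y} (card ≤ 2 < 3): ℓ with ℓ x = ℓ y = ℓ w, not constant on V.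
cut: let p ∈ hl V, ℓ p = ℓ w. {w, x, y} has three elements of V, so dm {w, x, y} ≥ 2 (two_le_dm); vectorSpan ℝ {w, x, y} ≤ ker ℓ, finrank (ker ℓ) = 2 (ℓ ≠ 0; LinearMap.finrank_range_add_finrank_ker, range = ⊤), so they are equal (Submodule.eq_of_le_of_finrank_le); p - w ∈ ker ℓ = vectorSpan = span {x - w, y - w} (vectorSpan_eq_span_vsub_set_right or similar): p = w + β (x - w) + γ (y - w) (Submodule.mem_span_pair). Let α := 1 - β - γ. Functional m, c of the face A: m w = m x = c, m y < c (y ∉ A), m p ≤ c (le_of_hl): γ (m y - c) ≤ 0, so γ ≥ 0. Face B: β ≥ 0. Face {x, y}: m x = m y = c, m w < c: α (m w - c) ≤ 0: α ≥ 0. So p ∈ hl {w, x, y}.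
ℓ n ≠ ℓ w: otherwise n ∈ hl V gives n ∈ hl {w, x, y}, so n ∈ {w, x, y} (vert_hl); n ≠ w, n ≠ x (x ∉ B), n ≠ y (y ∉ A). If ℓ n > ℓ w take h := ℓ, otherwise h := -ℓ (cut is the same condition).
-/

set_option autoImplicit false

namespace Pool.Agent.LibTet88

open Finset Pool.Agent.LibPol19
open scoped Classical

variable {d : ℕ}

theorem C1_span {V : Finset (Ed 3)} (hV : IsVert V) {w x y : Ed 3} (hw : w ∈ V) (hx : x ∈ V)
    (hy : y ∈ V) (hwx : w ≠ x) (hwy : w ≠ y) (hxy : x ≠ y) (ℓ : Ed 3 →ₗ[ℝ] ℝ)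
    (hlx : ℓ x = ℓ w) (hly : ℓ y = ℓ w) {z : Ed 3} (hz : ℓ z ≠ ℓ w) {p : Ed 3} (hp : ℓ p = ℓ w) :
    ∃ β γ : ℝ, p = w + β • (x - w) + γ • (y - w) := by
  have hsub : ({w, x, y} : Finset (Ed 3)) ⊆ V := by
    intro v hv
    simp only [Finset.mem_insert, Finset.mem_singleton] at hv
    rcases hv with rfl | rfl | rfl
    · exact hw
    · exact hx
    · exact hy
  have hcard : ({w, x, y} : Finset (Ed 3)).card = 3 :=
    Finset.card_eq_three.2 ⟨w, x, y, hwx, hwy, hxy, rfl⟩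
  have h2 : 2 ≤ dm ({w, x, y} : Finset (Ed 3)) := two_le_dm hV hsub hcard.ge
  have hspan : vectorSpan ℝ ((({w, x, y} : Finset (Ed 3))) : Set (Ed 3)) =
      Submodule.span ℝ ({x - w, y - w} : Set (Ed 3)) := by
    have hwm : w ∈ ((({w, x, y} : Finset (Ed 3))) : Set (Ed 3)) := by simp
    have h3 := vectorSpan_eq_span_vsub_set_right ℝ hwm
    have h4 : (fun v => v -ᵥ w) '' ((({w, x, y} : Finset (Ed 3))) : Set (Ed 3)) =
        insert (0 : Ed 3) ({x - w, y - w} : Set (Ed 3)) := by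
      simp [Set.image_insert_eq]
    rw [h3, h4, Submodule.span_insert_zero]
  have hle : Submodule.span ℝ ({x - w, y - w} : Set (Ed 3)) ≤ LinearMap.ker ℓ := by
    rw [Submodule.span_le]
    rintro v (rfl | rfl)
    · rw [SetLike.mem_coe, LinearMap.mem_ker, map_sub, hlx, sub_self]
    · rw [SetLike.mem_coe, LinearMap.mem_ker, map_sub, hly, sub_self]
  have hl0 : ℓ ≠ 0 := by
    rintro rfl
    exact hz rfl
  have hrank : Module.finrank ℝ (LinearMap.ker ℓ) = 2 := by
    have h3 := LinearMap.finrank_range_add_finrank_ker ℓ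
    rw [LinearMap.range_eq_top.2 (LinearMap.surjective hl0), finrank_top, Module.finrank_self,
      finrank_euclideanSpace_fin] at h3
    omega
  have heq : Submodule.span ℝ ({x - w, y - w} : Set (Ed 3)) = LinearMap.ker ℓ := by
    refine Submodule.eq_of_le_of_finrank_le hle ?_
    rw [hrank, ← hspan]
    exact h2
  have hpk : p - w ∈ Submodule.span ℝ ({x - w, y - w} : Set (Ed 3)) := by
    rw [heq, LinearMap.mem_ker, map_sub, hp, sub_self]
  rw [Submodule.mem_span_pair] at hpk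
  obtain ⟨β, γ, hβγ⟩ := hpk
  refine ⟨β, γ, ?_⟩
  rw [add_assoc, hβγ]
  abel

theorem C1_map (m : Ed 3 →ₗ[ℝ] ℝ) {w x y p : Ed 3} {β γ : ℝ}
    (hp : p = w + β • (x - w) + γ • (y - w)) :
    m p = m w + β * (m x - m w) + γ * (m y - m w) := by
  rw [hp, map_add, map_add, map_smul, map_smul, map_sub, map_sub, smul_eq_mul, smul_eq_mul]

theorem C1_nonneg {a b : ℝ} (h : a * b ≤ 0) (hb : b < 0) : 0 ≤ a := by
  by_contra hcon
  push Not at hcon
  exact absurd h (not_le.2 (mul_pos_of_neg_of_neg hcon hb))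

theorem C1_cut {V : Finset (Ed 3)} (hV : IsVert V) {w x y : Ed 3} {A B : Finset (Ed 3)}
    (hw : w ∈ V) (hx : x ∈ V)
    (hy : y ∈ V) (hwx : w ≠ x) (hwy : w ≠ y) (hxy : x ≠ y) (fA : IsFace V A) (fB : IsFace V B)
    (fE : IsFace V {x, y}) (wA : w ∈ A) (wB : w ∈ B) (xA : x ∈ A) (yB : y ∈ B) (xB : x ∉ B)
    (yA : y ∉ A) (ℓ : Ed 3 →ₗ[ℝ] ℝ)
    (hlx : ℓ x = ℓ w) (hly : ℓ y = ℓ w) {z : Ed 3} (hz : ℓ z ≠ ℓ w) {p : Ed 3} (hpV : p ∈ hl V)
    (hp : ℓ p = ℓ w) : p ∈ hl ({w, x, y} : Finset (Ed 3)) := by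
  obtain ⟨β, γ, hβγ⟩ := C1_span hV hw hx hy hwx hwy hxy ℓ hlx hly hz hp
  have hγ : 0 ≤ γ := by
    obtain ⟨-, -, m, c, hm⟩ := fA
    have h1 := le_of_hl m (fun v hv => (hm v hv).1) hpV
    have h2 : m w = c := (hm w hw).2.2 wA
    have h3 : m x = c := (hm x hx).2.2 xA
    have h4 : m y < c := lt_of_le_of_ne (hm y hy).1 (fun h => yA ((hm y hy).2.1 h))
    rw [C1_map m hβγ, h2, h3, sub_self, mul_zero, add_zero] at h1
    exact C1_nonneg (b := m y - c) (by linarith) (by linarith)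
  have hβ : 0 ≤ β := by
    obtain ⟨-, -, m, c, hm⟩ := fB
    have h1 := le_of_hl m (fun v hv => (hm v hv).1) hpV
    have h2 : m w = c := (hm w hw).2.2 wB
    have h3 : m y = c := (hm y hy).2.2 yB
    have h4 : m x < c := lt_of_le_of_ne (hm x hx).1 (fun h => xB ((hm x hx).2.1 h))
    rw [C1_map m hβγ, h2, h3, sub_self, mul_zero, add_zero] at h1
    exact C1_nonneg (b := m x - c) (by linarith) (by linarith)
  have hα : 0 ≤ 1 - β - γ := by
    obtain ⟨-, -, m, c, hm⟩ := fE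
    have h1 := le_of_hl m (fun v hv => (hm v hv).1) hpV
    have h2 : m x = c := (hm x hx).2.2 (by simp)
    have h3 : m y = c := (hm y hy).2.2 (by simp)
    have h4 : m w < c := lt_of_le_of_ne (hm w hw).1 (fun h => by
      have := (hm w hw).2.1 h
      simp only [Finset.mem_insert, Finset.mem_singleton] at this
      tauto)
    rw [C1_map m hβγ, h2, h3] at h1
    exact C1_nonneg (b := m w - c) (by linarith) (by linarith)
  have h5 : p = (1 - β - γ) • w + β • x + γ • y := by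
    rw [hβγ, smul_sub, smul_sub, sub_smul, sub_smul, one_smul]
    abel
  have h6 := (convex_convexHull ℝ ((({w, x, y} : Finset (Ed 3))) : Set (Ed 3))).sum_mem
    (t := (Finset.univ : Finset (Fin 3))) (w := ![1 - β - γ, β, γ]) (z := ![w, x, y])
    (by
      intro i _
      fin_cases i
      · exact hα
      · exact hβ
      · exact hγ)
    (by
      rw [Fin.sum_univ_three]
      change 1 - β - γ + β + γ = 1
      ring)
    (by
      intro i _
      fin_cases i
      · exact mem_hl (by simp)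
      · exact mem_hl (by simp)
      · exact mem_hl (by simp))
  rw [Fin.sum_univ_three] at h6
  rw [h5]
  exact h6

/-- C1: a chord and its plane -/
theorem exists_chd {V : Finset (Ed 3)} (hV : Simp V) {w x y : Ed 3} (hw : w ∈ V)
    (he : ({x, y} : Finset (Ed 3)) ∈ Est V w) (hx : Bd V w x) (hy : Bd V w y) :
    ∃ A B n h, Chd V w A B x y n h := by
  obtain ⟨A, fA, wA, xA⟩ := hx
  obtain ⟨B, fB, wB, yB⟩ := hy
  unfold Est at he
  rw [Finset.mem_filter] at he
  obtain ⟨hE, hno⟩ := he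
  have no : ∀ C, Fct V C → w ∈ C → x ∈ C → y ∈ C → False := by
    intro C hC hwC hxC hyC
    refine hno C hC hwC ?_
    intro v hv
    simp only [Finset.mem_insert, Finset.mem_singleton] at hv
    rcases hv with rfl | rfl
    · exact hxC
    · exact hyC
  have yA : y ∉ A := fun h => no A fA wA xA h
  have xB : x ∉ B := fun h => no B fB wB h yB
  have AB : A ≠ B := by
    rintro rfl
    exact yA yB
  obtain ⟨n, wn, hn, -⟩ := fct_inter hV fA fB AB wA wB
  have hadj : Adj V x y := pair_mem_edg.1 hE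
  have hwx : w ≠ x := by
    rintro rfl
    exact xB wB
  have hwy : w ≠ y := by
    rintro rfl
    exact yA wA
  have hxV : x ∈ V := fA.1.2.1 xA
  have hyV : y ∈ V := fB.1.2.1 yB
  have hdm : dm V = 3 := by
    unfold dm
    have h1 := hV.full
    unfold Full at h1
    rw [h1, finrank_top, finrank_euclideanSpace_fin]
  obtain ⟨ℓ, hℓ, z, -, hz⟩ := exists_fun (F := V) (S := ({x, y} : Finset (Ed 3))) hw (by
    rw [hdm]
    exact lt_of_le_of_lt Finset.card_le_two (by norm_num))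
  have hlx : ℓ x = ℓ w := hℓ x (by simp)
  have hly : ℓ y = ℓ w := hℓ y (by simp)
  have hcut : ∀ p ∈ hl V, ℓ p = ℓ w → p ∈ hl ({w, x, y} : Finset (Ed 3)) := fun p hp h =>
    C1_cut hV.vert hw hxV hyV hwx hwy hadj.1 fA.1 fB.1 hadj.2 wA wB xA yB xB yA ℓ hlx hly hz hp h
  have hnAB : n ∈ A ∩ B := by
    rw [hn]
    simp
  obtain ⟨nA, nB⟩ := Finset.mem_inter.1 hnAB
  have hnV : n ∈ V := fA.1.2.1 nA
  have hln : ℓ n ≠ ℓ w := by
    intro h
    have h1 := hcut n (mem_hl hnV) h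
    have h2 := vert_hl hV.vert (A := {w, x, y}) (by
      intro v hv
      simp only [Finset.mem_insert, Finset.mem_singleton] at hv
      rcases hv with rfl | rfl | rfl
      · exact hw
      · exact hxV
      · exact hyV) hnV h1
    simp only [Finset.mem_insert, Finset.mem_singleton] at h2
    rcases h2 with rfl | rfl | rfl
    · exact wn rfl
    · exact xB nB
    · exact yA nA
  rcases lt_or_gt_of_ne hln with hlt | hlt
  · refine ⟨A, B, n, -ℓ, ⟨fA, fB, wA, wB, AB, hn, wn, xA, yB, hadj, no, ?_, ?_, ?_, ?_⟩⟩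
    · simp [hlx]
    · simp [hly]
    · simp only [LinearMap.neg_apply]
      linarith
    · intro p hp h
      simp only [LinearMap.neg_apply, neg_inj] at h
      exact hcut p hp h
  · exact ⟨A, B, n, ℓ, ⟨fA, fB, wA, wB, AB, hn, wn, xA, yB, hadj, no, hlx, hly, hlt, hcut⟩⟩

theorem Chd.symm {V : Finset (Ed 3)} {w x y n : Ed 3} {A B : Finset (Ed 3)} {h : Ed 3 →ₗ[ℝ] ℝ}
    (hc : Chd V w A B x y n h) : Chd V w B A y x n h := by
  refine ⟨hc.fB, hc.fA, hc.wB, hc.wA, hc.AB.symm, ?_, hc.wn, hc.yB, hc.xA, adj_symm hc.adj,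
    fun C h1 h2 h3 h4 => hc.no C h1 h2 h4 h3, hc.hy, hc.hx, hc.pos, ?_⟩
  · rw [Finset.inter_comm]
    exact hc.hn
  · intro p hp hh
    rw [Finset.pair_comm y x]
    exact hc.cut p hp hh

end Pool.Agent.LibTet88
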