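import Mathlib
import Pool.Agent.LibTet88.Basic
import Pool.Agent.LibTet88.Q3
import Pool.Agent.LibPol19.G06
import Pool.Agent.LibPol19.G09

/-! Row C2.
chd_only: v ∈ hl V, so v ∈ hl {w, x, y} by hc.cut, and v ∈ {w, x, y} by vert_hl.
chd_side: cross gives p = (1 - θ) u + θ u', 0 < θ < 1, h p = h w, p ∈ hl {u, u'}. p ∈ hl F ⊆ hl V. hc.cut: p ∈ hl {w, x, y}; hl_face with the face F: p ∈ hl ({w, x, y} ∩ F) ⊆ hl E (hFE). hl_face with the face E and t = {u, u'}: p ∈ hl ({u, u'} ∩ E) = hl ∅ = ∅.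
chd_notin: x ∉ B (otherwise hc.no B), y ∉ A, x ≠ w, y ≠ w (w ∈ A ∩ B), x ≠ n, y ≠ n (n ∈ A ∩ B).
chd_nadj: Suppose Adj V w x. edge_two for {w, x}: the two facets containing it; A is one, let A₁ be the other, {w, x} = A ∩ A₁. At x the facets are A, A₁ and a third one E (three_at). The edge {x, y} (hc.adj) is contained in two different facets (edge_two), so in A or in A₁, which both contain w: contradiction with hc.no. (Both facets given by edge_two for {x, y} contain x, so they are among A, A₁, E; being different, one of them is A or A₁.)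
chd_nbr: u ∈ A, Adj V w u, u ≠ n. nb V w ∩ A = {n, u} (fct_at: two elements; n ∈ nb V w since {w, n} ∈ edg V by fct_inter). `cone` (G06): x - w = α (n - w) + β (u - w), α, β ≥ 0. Apply h: 0 = α (h n - h w) + β (h u - h w). β ≠ 0: otherwise α (h n - h w) = 0, α = 0, x = w: contradiction. α ≠ 0: otherwise x - w = β (u - w), β > 0: w, x, u are three different points of V (u ≠ x because ¬ Adj V w x) on a line, with x, u on the same side of w: use g09_btw (G09; Wbtw ℝ w x u or Wbtw ℝ w u x), or: the functional exposing the edge {w, u}: m w = m u = c, m x < c, but m (x - w) = β m (u - w) = 0. So β (h u - h w) = - α (h n - h w) < 0, h u < h w.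
-/

set_option autoImplicit false

namespace Pool.Agent.LibTet88

open Finset Pool.Agent.LibPol19
open scoped Classical

variable {d : ℕ}

theorem chd_only {V : Finset (Ed 3)} (hV : Simp V) {w x y n : Ed 3} {A B : Finset (Ed 3)} {h : Ed 3 →ₗ[ℝ] ℝ}
    (hc : Chd V w A B x y n h) {v : Ed 3} (hv : v ∈ V) (h0 : h v = h w) : v = w ∨ v = x ∨ v = y := by
  have hsub : ({w, x, y} : Finset (Ed 3)) ⊆ V := by
    intro z hz
    rw [mem_insert, mem_insert, mem_singleton] at hz
    rcases hz with rfl | rfl | rfl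
    · exact hc.fA.1.2.1 hc.wA
    · exact hc.fA.1.2.1 hc.xA
    · exact hc.fB.1.2.1 hc.yB
  have h1 := vert_hl hV.vert hsub hv (hc.cut v (mem_hl hv) h0)
  rw [mem_insert, mem_insert, mem_singleton] at h1
  exact h1

/-- C2: a face does not cross the plane outside a smaller face -/
theorem chd_side {V : Finset (Ed 3)} (hV : Simp V) {w x y n : Ed 3} {A B : Finset (Ed 3)} {h : Ed 3 →ₗ[ℝ] ℝ}
    (hc : Chd V w A B x y n h) {F E : Finset (Ed 3)} (hF : IsFace V F) (hE : IsFace V E)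
    (hFE : ∀ z ∈ F, z = w ∨ z = x ∨ z = y → z ∈ E) {u u' : Ed 3} (hu : u ∈ F) (hu' : u' ∈ F) (huE : u ∉ E)
    (huE' : u' ∉ E) (h1 : h u < h w) (h2 : h w < h u') : False := by
  obtain ⟨θ, h0, h3, h4, h5⟩ := cross h h1 h2
  generalize (1 - θ) • u + θ • u' = p at h4 h5
  have hpair : ({u, u'} : Finset (Ed 3)) ⊆ F := by
    intro z hz
    rw [mem_insert, mem_singleton] at hz
    rcases hz with rfl | rfl
    · exact hu
    · exact hu'
  have hpF : p ∈ hl F := hl_mono hpair h5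
  have hpV : p ∈ hl V := hl_mono hF.2.1 hpF
  have hsub : ({w, x, y} : Finset (Ed 3)) ⊆ V := by
    intro z hz
    rw [mem_insert, mem_insert, mem_singleton] at hz
    rcases hz with rfl | rfl | rfl
    · exact hc.fA.1.2.1 hc.wA
    · exact hc.fA.1.2.1 hc.xA
    · exact hc.fB.1.2.1 hc.yB
  have h6 := hl_face hF hsub (hc.cut p hpV h4) hpF
  have h7 : p ∈ hl E := by
    refine hl_mono ?_ h6
    intro z hz
    rw [mem_inter, mem_insert, mem_insert, mem_singleton] at hz
    exact hFE z hz.2 hz.1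
  have h8 := hl_face hE (hpair.trans hF.2.1) h5 h7
  have h9 : ({u, u'} : Finset (Ed 3)) ∩ E = ∅ := by
    rw [Finset.eq_empty_iff_forall_notMem]
    intro z hz
    rw [mem_inter, mem_insert, mem_singleton] at hz
    rcases hz with ⟨rfl | rfl, hz⟩
    · exact huE hz
    · exact huE' hz
  rw [h9, hl_empty] at h8
  exact h8

theorem chd_notin {V : Finset (Ed 3)} {w x y n : Ed 3} {A B : Finset (Ed 3)} {h : Ed 3 →ₗ[ℝ] ℝ}
    (hc : Chd V w A B x y n h) : x ∉ B ∧ y ∉ A ∧ x ≠ w ∧ y ≠ w ∧ x ≠ n ∧ y ≠ n := by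
  have hnAB : n ∈ A ∩ B := by
    rw [hc.hn]
    exact mem_insert_of_mem (mem_singleton_self n)
  rw [mem_inter] at hnAB
  have hxB : x ∉ B := fun hx => hc.no B hc.fB hc.wB hx hc.yB
  have hyA : y ∉ A := fun hy => hc.no A hc.fA hc.wA hc.xA hy
  refine ⟨hxB, hyA, ?_, ?_, ?_, ?_⟩
  · rintro rfl
    exact hxB hc.wB
  · rintro rfl
    exact hyA hc.wA
  · rintro rfl
    exact hxB hnAB.2
  · rintro rfl
    exact hyA hnAB.1

theorem chd_nadj {V : Finset (Ed 3)} (hV : Simp V) {w x y n : Ed 3} {A B : Finset (Ed 3)} {h : Ed 3 →ₗ[ℝ] ℝ}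
    (hc : Chd V w A B x y n h) : ¬ Adj V w x := by
  intro hwx
  obtain ⟨F, F', hne, hF, hF', hFF, -⟩ := edge_two hV (pair_mem_edg.2 hwx)
  have hw2 : w ∈ F ∩ F' := by
    rw [hFF]; exact mem_insert_self _ _
  have hx2 : x ∈ F ∩ F' := by
    rw [hFF]; exact mem_insert_of_mem (mem_singleton_self _)
  rw [mem_inter] at hw2 hx2
  obtain ⟨G, hG, hxG, hGF, hGF', hall, -⟩ := three_at hV hF hF' hne hx2.1 hx2.2
  obtain ⟨E, E', hne', hE, hE', hEE, -⟩ := edge_two hV (pair_mem_edg.2 hc.adj)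
  have hx3 : x ∈ E ∩ E' := by
    rw [hEE]; exact mem_insert_self _ _
  have hy3 : y ∈ E ∩ E' := by
    rw [hEE]; exact mem_insert_of_mem (mem_singleton_self _)
  rw [mem_inter] at hx3 hy3
  have key : ∀ E, Fct V E → x ∈ E → y ∈ E → E = G := by
    intro E hE hxE hyE
    rcases hall E hE hxE with rfl | rfl | h3
    · exact (hc.no _ hE hw2.1 hxE hyE).elim
    · exact (hc.no _ hE hw2.2 hxE hyE).elim
    · exact h3
  exact hne' ((key E hE hx3.1 hy3.1).trans (key E' hE' hx3.2 hy3.2).symm)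

/-- C2: the other neighbours of `w` are on the negative side -/
theorem chd_nbr {V : Finset (Ed 3)} (hV : Simp V) {w x y n : Ed 3} {A B : Finset (Ed 3)} {h : Ed 3 →ₗ[ℝ] ℝ}
    (hc : Chd V w A B x y n h) {u : Ed 3} (hu : u ∈ A) (hwu : Adj V w u) (hun : u ≠ n) : h u < h w := by
  have hwV : w ∈ V := hc.fA.1.2.1 hc.wA
  have hxV : x ∈ V := hc.fA.1.2.1 hc.xA
  have huV : u ∈ V := hc.fA.1.2.1 hu
  obtain ⟨-, -, hxw, -, -, -⟩ := chd_notin hc
  have hnadj := chd_nadj hV hc
  have hxu : x ≠ u := by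
    rintro rfl
    exact hnadj hwu
  -- `n` is a neighbour of `w`
  obtain ⟨n', hwn', hAB, hed⟩ := fct_inter hV hc.fA hc.fB hc.AB hc.wA hc.wB
  have hn' : n' = n := by
    have h1 : n' ∈ ({w, n} : Finset (Ed 3)) := by
      rw [← hc.hn, hAB]
      exact mem_insert_of_mem (mem_singleton_self _)
    rw [mem_insert, mem_singleton] at h1
    rcases h1 with h1 | h1
    · exact (hwn' h1.symm).elim
    · exact h1
  rw [hn'] at hed
  have hadjn : Adj V w n := pair_mem_edg.1 hed
  have hnA : n ∈ A := by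
    have h1 : n ∈ A ∩ B := by
      rw [hc.hn]
      exact mem_insert_of_mem (mem_singleton_self _)
    exact (mem_inter.1 h1).1
  have hnV : n ∈ V := hc.fA.1.2.1 hnA
  obtain ⟨-, h2, -⟩ := fct_at hV hwV
  obtain ⟨a, ha, hIA⟩ := h2 A hc.fA hc.wA
  have hcard : (nb V w ∩ A).card = 2 := by
    rw [hIA, card_erase_of_mem ha, hV.simple w hwV]
  have hpair : nb V w ∩ A = {n, u} := by
    symm
    apply eq_of_subset_of_card_le
    · intro z hz
      rw [mem_insert, mem_singleton] at hz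
      rcases hz with rfl | rfl
      · exact mem_inter.2 ⟨mem_filter.2 ⟨hnV, hadjn⟩, hnA⟩
      · exact mem_inter.2 ⟨mem_filter.2 ⟨huV, hwu⟩, hu⟩
    · rw [hcard, card_pair hun.symm]
  obtain ⟨c, hc0, hcx⟩ := cone hV.vert hc.fA.1 hc.wA hc.xA
  rw [hpair, sum_pair hun.symm] at hcx
  have hh : c n * (h n - h w) + c u * (h u - h w) = 0 := by
    have h3 := congrArg h hcx
    rw [map_sub, map_add, map_smul, map_smul, map_sub, map_sub, smul_eq_mul, smul_eq_mul, hc.hx,
      sub_self] at h3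
    exact h3.symm
  by_contra hge
  rw [not_lt] at hge
  have hpos := hc.pos
  have h4 : 0 ≤ c n * (h n - h w) := mul_nonneg (hc0 n) (by linarith)
  have h5 : 0 ≤ c u * (h u - h w) := mul_nonneg (hc0 u) (by linarith)
  have h6 : c n * (h n - h w) = 0 := by linarith
  have h7 : c n = 0 := by
    rcases mul_eq_zero.1 h6 with h8 | h8
    · exact h8
    · linarith
  rw [h7, zero_smul, zero_add] at hcx
  have hx : x = w + c u • (u - w) := by
    rw [← hcx]; abel
  have hcu : c u ≠ 0 := by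
    intro h8
    rw [h8, zero_smul, add_zero] at hx
    exact hxw hx
  have hcu0 : 0 < c u := lt_of_le_of_ne (hc0 u) (Ne.symm hcu)
  have hwune : w ≠ u := hwu.1
  rcases le_or_gt (c u) 1 with h9 | h9
  · apply g09_btw hV.vert hwV hxV huV hxw.symm hxu.symm
    refine ⟨c u, ⟨hc0 u, h9⟩, ?_⟩
    rw [AffineMap.lineMap_apply, vsub_eq_sub, vadd_eq_add, add_comm, ← hx]
  · apply g09_btw hV.vert hwV huV hxV hwune hxu
    refine ⟨(c u)⁻¹, ⟨(inv_pos.2 hcu0).le, inv_le_one_of_one_le₀ h9.le⟩, ?_⟩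
    rw [AffineMap.lineMap_apply, vsub_eq_sub, vadd_eq_add, hcx, smul_smul, inv_mul_cancel₀ hcu,
      one_smul]
    abel

end Pool.Agent.LibTet88
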