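import Mathlib
import Pool.Agent.LibTet88.Basic
import Pool.Agent.LibTet88.C1
import Pool.Agent.LibTet88.C2

/-! Row C3.
Write c := h w, c' := h' n. Known: A ∩ B = {w, n}, A ∩ D = {n, a}; A, B, D are the three facets at n (D ≠ B, D ≠ A, all contain n): three_at: the only common vertex of A, B, D is n. B ∩ D = {n, b} with Adj V n b (fct_inter). Adj V n w, Adj V n a.
(0) w ∉ D (otherwise w ∈ A ∩ B ∩ D = {n}, but w ≠ n). w ≠ a (a ∈ D). h' w < c': chd_nbr for hc' : w ∈ A, Adj V n w, w ≠ a. x' ∉ {w}: x' = w would be adjacent to n: chd_nadj hc'. y' ∉ {n, b}: chd_notin, and chd_nadj for hc'.symm. x' ∉ B: x' ∈ A ∩ B = {w, n} is excluded (x' ≠ n by chd_notin). y' ∉ B: y' ∈ D ∩ B = {n, b} is excluded.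
(1) every u ∈ B, u ≠ n has h' u < c'. h' u ≠ c': otherwise u ∈ {n, x', y'} (chd_only) but x', y' ∉ B. h' u > c' is impossible: chd_side hc' with F := B, E := {n} (face_single), u := w, u' := u (the elements of B in {n, x', y'} are only n). In particular h' y < c' (y ∈ B, y ≠ n by chd_notin).
(2) all u ∈ D have h u ≥ c: n ∈ D has h n > c; if h u < c use chd_side hc with F := D, E := {x, y} (a face: hc.adj), z = w excluded by w ∉ D: u ∉ {x, y}, n ∉ {x, y} because h x = h y = c.
(3) h x' ≥ c: suppose h x' < c. h y' ≥ c by (2). {x', y'} is a face (hc'.adj). If h y' > c: chd_side hc with F := {x', y'}, E := {x, y}, u := x', u' := y' (x', y' ∉ {x, y} since h x = h y = c; hFE: z ∈ {x', y'}, z ∈ {w, x, y} has h z = c: impossible). If h y' = c: y' ∈ {w, x, y} (chd_only); y' ≠ w (w ∉ D); y' = x: then y' = x ∈ A and x' ∈ A, n ∈ A: contradiction with hc'.no A; y' = y ∈ B: excluded by (0).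
So h ≥ c on {n, x', y'}, hence on its hull (ge_of_hl).
(4) Let v ∈ V, c' < h' v, and suppose h v ≤ c. cross for h' (h' w < c' < h' v): p = (1 - θ) w + θ v, 0 < θ < 1, h' p = c', p ∈ hl {w, v} ⊆ hl V. hc'.cut: p ∈ hl {n, x', y'}, so h p ≥ c; h p = (1 - θ) c + θ h v ≤ c. So h p = c and h v = c (θ > 0): v ∈ {w, x, y}: v ≠ w (h' w < c'), v ≠ y (h' y < c'). So v = x. p ∈ hl {w, x} ⊆ hl A, so by hl_face p ∈ hl ({n, x', y'} ∩ A) ⊆ hl {n, x'} (y' ∉ A: chd_notin hc'). Apply hl_filter to -h on {n, x'} ((-h) ≤ -c, (-h) p = -c; n is not in the filter because h n > c): p ∈ hl {x'} (or the hull of ∅), so p = x' (hl_single). But x' ∈ V, x' ∈ hl {w, x}: x' ∈ {w, x} (vert_hl); x' ≠ w; x' = x: then p = x = v: (1 - θ) w + θ x = x gives (1 - θ)(w - x) = 0, w = x: contradiction (chd_notin).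
-/

set_option autoImplicit false

namespace Pool.Agent.LibTet88

open Finset Pool.Agent.LibPol19
open scoped Classical

variable {d : ℕ}

/-- C3: the chords at the neighbour `n` not between `A` and `B` cut off less -/
theorem chd_core {V : Finset (Ed 3)} (hV : Simp V) {w x y n : Ed 3} {A B : Finset (Ed 3)} {h : Ed 3 →ₗ[ℝ] ℝ}
    (hc : Chd V w A B x y n h) {D : Finset (Ed 3)} {x' y' a : Ed 3} {h' : Ed 3 →ₗ[ℝ] ℝ}
    (hc' : Chd V n A D x' y' a h') (hDB : D ≠ B) {v : Ed 3} (hv : v ∈ V) (hv' : h' n < h' v) : h w < h v := by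
  have hAV : A ⊆ V := hc.fA.1.2.1
  have hBV : B ⊆ V := hc.fB.1.2.1
  have hDV : D ⊆ V := hc'.fB.1.2.1
  have hnA : n ∈ A := hc'.wA
  have hnD : n ∈ D := hc'.wB
  have hnB : n ∈ B := by
    have : n ∈ A ∩ B := by rw [hc.hn]; simp
    exact (Finset.mem_inter.1 this).2
  have hnV : n ∈ V := hAV hnA
  have hwV : w ∈ V := hAV hc.wA
  have hxV : x ∈ V := hAV hc.xA
  have hx'V : x' ∈ V := hAV hc'.xA
  have hy'V : y' ∈ V := hDV hc'.yB
  obtain ⟨hxB, hyA, hxw, hyw, hxn, hyn⟩ := chd_notin hc
  obtain ⟨hxB', hyA', hxw', hyw', hxn', hyn'⟩ := chd_notin hc'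
  -- the three facets at n
  have hABD : ∀ z, z ∈ A → z ∈ B → z ∈ D → z = n := by
    obtain ⟨G, hG, hnG, hGA, hGB, hall, hz⟩ := three_at hV hc.fA hc.fB hc.AB hnA hnB
    rcases hall D hc'.fB hnD with h1 | h1 | h1
    · exact absurd h1.symm hc'.AB
    · exact absurd h1 hDB
    · rw [h1]; exact hz
  obtain ⟨b, hnb, hBD, hbe⟩ := fct_inter hV hc.fB hc'.fB (Ne.symm hDB) hnB hnD
  have hadjnb : Adj V n b := pair_mem_edg.1 hbe
  have hadjwn : Adj V w n := by
    obtain ⟨u, hwu, hu, hue⟩ := fct_inter hV hc.fA hc.fB hc.AB hc.wA hc.wB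
    have h1 : u ∈ ({w, n} : Finset (Ed 3)) := by
      rw [← hc.hn, hu]; simp
    rw [Finset.mem_insert, Finset.mem_singleton] at h1
    rcases h1 with h1 | h1
    · exact absurd h1.symm hwu
    · rw [h1] at hue
      exact pair_mem_edg.1 hue
  have hadjnw : Adj V n w := adj_symm hadjwn
  have haD : a ∈ D := by
    have : a ∈ A ∩ D := by rw [hc'.hn]; simp
    exact (Finset.mem_inter.1 this).2
  -- (0)
  have hwD : w ∉ D := fun h1 => hc.wn (hABD w hc.wA hc.wB h1)
  have hwa : w ≠ a := by
    rintro rfl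
    exact hwD haD
  have hw' : h' w < h' n := chd_nbr hV hc' hc.wA hadjnw hwa
  have hx'w : x' ≠ w := by
    intro h1
    apply chd_nadj hV hc'
    rw [h1]
    exact hadjnw
  have hx'B : x' ∉ B := by
    intro h1
    have h2 : x' ∈ A ∩ B := Finset.mem_inter.2 ⟨hc'.xA, h1⟩
    rw [hc.hn, Finset.mem_insert, Finset.mem_singleton] at h2
    rcases h2 with h2 | h2
    · exact hx'w h2
    · exact hxw' h2
  have hy'B : y' ∉ B := by
    intro h1
    have h2 : y' ∈ B ∩ D := Finset.mem_inter.2 ⟨h1, hc'.yB⟩
    rw [hBD, Finset.mem_insert, Finset.mem_singleton] at h2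
    rcases h2 with h2 | h2
    · exact hyw' h2
    · apply chd_nadj hV hc'.symm
      rw [h2]
      exact hadjnb
  -- (1)
  have h1 : ∀ u ∈ B, u ≠ n → h' u < h' n := by
    intro u hu hun
    rcases lt_trichotomy (h' u) (h' n) with h2 | h2 | h2
    · exact h2
    · exfalso
      rcases chd_only hV hc' (hBV hu) h2 with h3 | h3 | h3
      · exact hun h3
      · rw [h3] at hu; exact hx'B hu
      · rw [h3] at hu; exact hy'B hu
    · exfalso
      refine chd_side hV hc' (F := B) (E := {n}) hc.fB.1 (face_single hV.vert hnV) ?_ hc.wB hu ?_ ?_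
        hw' h2
      · rintro z hz (rfl | rfl | rfl)
        · simp
        · exact absurd hz hx'B
        · exact absurd hz hy'B
      · rw [Finset.mem_singleton]; exact hc.wn
      · rw [Finset.mem_singleton]; exact hun
  -- (2)
  have h2 : ∀ u ∈ D, h w ≤ h u := by
    intro u hu
    by_contra h3
    push Not at h3
    refine chd_side hV hc (F := D) (E := {x, y}) hc'.fB.1 hc.adj.2 ?_ hu hnD ?_ ?_ h3 hc.pos
    · rintro z hz (rfl | rfl | rfl)
      · exact absurd hz hwD
      · simp
      · simp
    · rw [Finset.mem_insert, Finset.mem_singleton]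
      rintro (rfl | rfl)
      · exact absurd hc.hx h3.ne
      · exact absurd hc.hy h3.ne
    · rw [Finset.mem_insert, Finset.mem_singleton]
      rintro (h4 | h4)
      · exact hxn h4.symm
      · exact hyn h4.symm
  -- (3)
  have h3 : h w ≤ h x' := by
    by_contra h4
    push Not at h4
    rcases (h2 y' hc'.yB).lt_or_eq with h5 | h5
    · refine chd_side hV hc (F := {x', y'}) (E := {x, y}) hc'.adj.2 hc.adj.2 ?_
        (by simp : x' ∈ ({x', y'} : Finset (Ed 3))) (by simp : y' ∈ ({x', y'} : Finset (Ed 3))) ?_ ?_ h4 h5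
      · intro z hz hz'
        exfalso
        have h6 : h z = h w := by
          rcases hz' with h7 | h7 | h7
          · rw [h7]
          · rw [h7]; exact hc.hx
          · rw [h7]; exact hc.hy
        rw [Finset.mem_insert, Finset.mem_singleton] at hz
        rcases hz with h7 | h7
        · rw [h7] at h6; exact h4.ne h6
        · rw [h7] at h6; exact h5.ne' h6
      · rw [Finset.mem_insert, Finset.mem_singleton]
        rintro (h6 | h6)
        · rw [h6] at h4; exact absurd hc.hx h4.ne
        · rw [h6] at h4; exact absurd hc.hy h4.ne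
      · rw [Finset.mem_insert, Finset.mem_singleton]
        rintro (h6 | h6)
        · rw [h6] at h5; exact absurd hc.hx h5.ne'
        · rw [h6] at h5; exact absurd hc.hy h5.ne'
    · rcases chd_only hV hc hy'V h5.symm with h6 | h6 | h6
      · have h7 := hc'.yB
        rw [h6] at h7
        exact hwD h7
      · apply hyA'
        rw [h6]
        exact hc.xA
      · apply hy'B
        rw [h6]
        exact hc.yB
  have hge : ∀ p ∈ hl ({n, x', y'} : Finset (Ed 3)), h w ≤ h p := by
    intro p hp
    refine ge_of_hl h ?_ hp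
    intro z hz
    rw [Finset.mem_insert, Finset.mem_insert, Finset.mem_singleton] at hz
    rcases hz with rfl | rfl | rfl
    · exact hc.pos.le
    · exact h3
    · exact h2 _ hc'.yB
  -- (4)
  by_contra h4
  push Not at h4
  obtain ⟨θ, hθ0, hθ1, hp1, hp2⟩ := cross h' hw' hv'
  set p : Ed 3 := (1 - θ) • w + θ • v with hp
  have hwvV : ({w, v} : Finset (Ed 3)) ⊆ V := by
    intro z hz
    rw [Finset.mem_insert, Finset.mem_singleton] at hz
    rcases hz with rfl | rfl
    · exact hwV
    · exact hv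
  have hp3 := hc'.cut p (hl_mono hwvV hp2) hp1
  have hp4 := hge p hp3
  have hp5 : h p = (1 - θ) * h w + θ * h v := by
    rw [hp, map_add, map_smul, map_smul, smul_eq_mul, smul_eq_mul]
  have h5 : h v = h w := by
    apply le_antisymm h4
    by_contra h6
    push Not at h6
    have := mul_lt_mul_of_pos_left h6 hθ0
    rw [hp5] at hp4
    linarith
  have hp6 : h p = h w := by
    rw [hp5, h5]; ring
  rcases chd_only hV hc hv h5 with h6 | h6 | h6
  · rw [h6] at hv'
    linarith
  · -- v = x
    have hpA : p ∈ hl A := by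
      refine hl_mono ?_ hp2
      intro z hz
      rw [Finset.mem_insert, Finset.mem_singleton] at hz
      rcases hz with h7 | h7
      · rw [h7]; exact hc.wA
      · rw [h7, h6]; exact hc.xA
    have hsub : ({n, x', y'} : Finset (Ed 3)) ⊆ V := by
      intro z hz
      rw [Finset.mem_insert, Finset.mem_insert, Finset.mem_singleton] at hz
      rcases hz with rfl | rfl | rfl
      · exact hnV
      · exact hx'V
      · exact hy'V
    have hp7 := hl_face hc.fA.1 hsub hp3 hpA
    have hp8 : p ∈ hl ({n, x'} : Finset (Ed 3)) := by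
      refine hl_mono ?_ hp7
      intro z hz
      rw [Finset.mem_inter, Finset.mem_insert, Finset.mem_insert, Finset.mem_singleton] at hz
      rw [Finset.mem_insert, Finset.mem_singleton]
      rcases hz with ⟨h7 | h7 | h7, h8⟩
      · exact Or.inl h7
      · exact Or.inr h7
      · rw [h7] at h8; exact absurd h8 hyA'
    have hp9 := hl_filter (-h) (c := -(h w)) (A := {n, x'}) (by
      intro z hz
      rw [Finset.mem_insert, Finset.mem_singleton] at hz
      rw [LinearMap.neg_apply, neg_le_neg_iff]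
      rcases hz with h7 | h7
      · rw [h7]; exact hc.pos.le
      · rw [h7]; exact h3) hp8 (by rw [LinearMap.neg_apply, hp6])
    have hp10 : p ∈ hl ({x'} : Finset (Ed 3)) := by
      refine hl_mono ?_ hp9
      intro z hz
      rw [Finset.mem_filter, Finset.mem_insert, Finset.mem_singleton, LinearMap.neg_apply, neg_inj] at hz
      rw [Finset.mem_singleton]
      rcases hz with ⟨h7 | h7, h8⟩
      · rw [h7] at h8
        exact absurd h8 hc.pos.ne'
      · exact h7
    rw [hl_single, Set.mem_singleton_iff] at hp10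
    have hx'h : x' ∈ hl ({w, v} : Finset (Ed 3)) := by rw [← hp10]; exact hp2
    have h7 := vert_hl hV.vert hwvV hx'V hx'h
    rw [Finset.mem_insert, Finset.mem_singleton] at h7
    rcases h7 with h7 | h7
    · exact hx'w h7
    · -- x' = v
      have h8 : (1 - θ) • w + θ • v = v := by rw [← hp, hp10, h7]
      have h9 : (1 - θ) • (w - v) = 0 := by
        have : (1 - θ) • (w - v) = ((1 - θ) • w + θ • v) - v := by
          rw [smul_sub, sub_smul 1 θ v, one_smul]; abel
        rw [this, h8, sub_self]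
      rw [smul_eq_zero] at h9
      rcases h9 with h9 | h9
      · linarith
      · rw [sub_eq_zero] at h9
        exact hxw (by rw [h9, h6])
  · have h7 := h1 y hc.yB hyn
    rw [h6] at hv'
    linarith

end Pool.Agent.LibTet88
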