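import Mathlib
import Pool.Agent.LibTet88.Basic
import Pool.Agent.LibTet88.C3

/-! Row C4.
If there is no chord at all (∀ w A B x y n h, ¬ Chd V w A B x y n h): take any w ∈ V, exists_fct: two facets A ≠ B at w, A ∩ B = {w, n} (fct_inter); chd is vacuous.
Otherwise let μ := (V.filter (h w < h ·)).card; the set of values μ of all Chd V w A B x y n h is a nonempty set of natural numbers; take a chord (w, A, B, x, y, n, h) with minimal μ (Nat.find, or WellFounded.has_min on the set {m | ∃ .., Chd .. ∧ card = m}). Claim: Apex V n A B w: n ∈ V, n ∈ A ∩ B, A ∩ B = {n, w}, n ≠ w. Let Chd V n A' B' x' y' n' h'. A', B' are different facets at n. The facets at n are A, B, D (three_at). If {A', B'} = {A, B}: done. Otherwise one of A', B' is D and the other one is A or B; after Chd.symm for the second chord we may assume B' = D, A' ∈ {A, B}, and after Chd.symm for the first chord A' = A. chd_core: h' n < h' v → h w < h v for v ∈ V, so V.filter (h' n < h' ·) ⊆ V.filter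 (h w < h ·), and it does not contain n, which is in the second one (hc.pos): strictly smaller card: contradiction with the minimality. (State a helper: for all chords (w, A, B, x, y, n, h), (n, A, D, x', y', a, h') with D ≠ B the second μ is smaller; apply it to hc or hc.symm and hc' or hc'.symm. In the cases A' = D, B' = A use hc'.symm.)
-/

set_option autoImplicit false

namespace Pool.Agent.LibTet88

open Finset Pool.Agent.LibPol19
open scoped Classical

variable {d : ℕ}

/-- the number of vertices on the positive side decreases -/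
theorem C4_lt {V : Finset (Ed 3)} (hV : Simp V) {w x y n : Ed 3} {A B : Finset (Ed 3)} {h : Ed 3 →ₗ[ℝ] ℝ}
    (hc : Chd V w A B x y n h) {D : Finset (Ed 3)} {x' y' a : Ed 3} {h' : Ed 3 →ₗ[ℝ] ℝ}
    (hc' : Chd V n A D x' y' a h') (hDB : D ≠ B) :
    (V.filter fun v => h' n < h' v).card < (V.filter fun v => h w < h v).card := by
  have hnA : n ∈ A := hc'.wA
  have hnV : n ∈ V := hc'.fA.1.2.1 hnA
  refine Finset.card_lt_card ?_
  rw [Finset.ssubset_iff_of_subset]
  · refine ⟨n, Finset.mem_filter.2 ⟨hnV, hc.pos⟩, fun hmem => ?_⟩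
    exact lt_irrefl _ (Finset.mem_filter.1 hmem).2
  · intro v hv
    rw [Finset.mem_filter] at hv ⊢
    exact ⟨hv.1, chd_core hV hc hc' hDB hv.1 hv.2⟩

/-- C4: there is an apex all of whose chords are at one corner -/
theorem exists_apex {V : Finset (Ed 3)} (hV : Simp V) (hne : V.Nonempty) : ∃ w A B n, Apex V w A B n := by
  by_cases hex : ∃ (w : Ed 3) (A B : Finset (Ed 3)) (x y n : Ed 3) (h : Ed 3 →ₗ[ℝ] ℝ), Chd V w A B x y n h
  · have hex2 : ∃ (m : ℕ) (w : Ed 3) (A B : Finset (Ed 3)) (x y n : Ed 3) (h : Ed 3 →ₗ[ℝ] ℝ),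
        Chd V w A B x y n h ∧ (V.filter fun v => h w < h v).card = m := by
      obtain ⟨w, A, B, x, y, n, h, hc⟩ := hex
      exact ⟨_, w, A, B, x, y, n, h, hc, rfl⟩
    obtain ⟨w, A, B, x, y, n, h, hc, hm⟩ := Nat.find_spec hex2
    have hmin : ∀ (w' : Ed 3) (A' B' : Finset (Ed 3)) (x' y' n' : Ed 3) (h' : Ed 3 →ₗ[ℝ] ℝ),
        Chd V w' A' B' x' y' n' h' →
        (V.filter fun v => h w < h v).card ≤ (V.filter fun v => h' w' < h' v).card := by
      intro w' A' B' x' y' n' h' hc'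
      rw [hm]
      exact Nat.find_min' hex2 ⟨w', A', B', x', y', n', h', hc', rfl⟩
    have hnAB : n ∈ A ∩ B := by rw [hc.hn]; exact Finset.mem_insert_of_mem (Finset.mem_singleton_self n)
    have hnA : n ∈ A := (Finset.mem_inter.1 hnAB).1
    have hnB : n ∈ B := (Finset.mem_inter.1 hnAB).2
    refine ⟨n, A, B, w, hc.fA.1.2.1 hnA, hc.fA, hc.fB, hnA, hnB, hc.AB, by rw [hc.hn, Finset.pair_comm],
      hc.wn.symm, ?_⟩
    intro A' B' x' y' n' h' hc'
    obtain ⟨D, hD, hnD, hDA, hDB, hall, -⟩ := three_at hV hc.fA hc.fB hc.AB hnA hnB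
    have hkey : ∀ (x₁ y₁ n₁ : Ed 3) (h₁ : Ed 3 →ₗ[ℝ] ℝ), ¬ Chd V n A D x₁ y₁ n₁ h₁ := by
      intro x₁ y₁ n₁ h₁ hc₁
      exact absurd (C4_lt hV hc hc₁ hDB) (not_lt.2 (hmin _ _ _ _ _ _ _ hc₁))
    have hkey' : ∀ (x₁ y₁ n₁ : Ed 3) (h₁ : Ed 3 →ₗ[ℝ] ℝ), ¬ Chd V n B D x₁ y₁ n₁ h₁ := by
      intro x₁ y₁ n₁ h₁ hc₁
      exact absurd (C4_lt hV hc.symm hc₁ hDA) (not_lt.2 (hmin _ _ _ _ _ _ _ hc₁))
    rcases hall A' hc'.fA hc'.wA with rfl | rfl | rfl
    · rcases hall B' hc'.fB hc'.wB with rfl | rfl | rfl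
      · exact absurd rfl hc'.AB
      · exact Or.inl ⟨rfl, rfl⟩
      · exact absurd hc' (hkey _ _ _ _)
    · rcases hall B' hc'.fB hc'.wB with rfl | rfl | rfl
      · exact Or.inr ⟨rfl, rfl⟩
      · exact absurd rfl hc'.AB
      · exact absurd hc' (hkey' _ _ _ _)
    · rcases hall B' hc'.fB hc'.wB with rfl | rfl | rfl
      · exact absurd hc'.symm (hkey _ _ _ _)
      · exact absurd hc'.symm (hkey' _ _ _ _)
      · exact absurd rfl hc'.AB
  · obtain ⟨w, hw⟩ := hne
    obtain ⟨A, B, hAB, hA, hB, hwA, hwB⟩ := exists_fct hV hw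
    obtain ⟨n, hwn, hn, -⟩ := fct_inter hV hA hB hAB hwA hwB
    refine ⟨w, A, B, n, hw, hA, hB, hwA, hwB, hAB, hn, hwn, ?_⟩
    intro A' B' x' y' n' h' hc'
    exact absurd ⟨w, A', B', x', y', n', h', hc'⟩ hex

end Pool.Agent.LibTet88
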