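import Mathlib
import Pool.Agent.LibTet88.Basic
import Pool.Agent.LibTet88.C4

/-! Row C5.
s: the third facet at n (three_at for A, B at n): only n is common to A, B, s, so w ∉ s: s ∈ Fw V w, n ∈ s. C: the third facet at w (three_at for A, B at w): A ∩ C = {w, a} (fct_inter), a ≠ n (a ∈ C; n ∈ A ∩ B, only w is common to A, B, C), Adj V w a (pair_mem_edg), a ∈ A. t: the third facet at a (three_at for A, C at a): w ∉ t (only a is common to A, C, t; w ∈ A ∩ C, w ≠ a): t ∈ Fw V w, a ∈ t.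
g' := A ∩ t = {a, a'} ∈ edg V (fct_inter), w ∉ g' (w ∉ t): Bg V w t g' (A). g₁ := A ∩ s = {n, ·}, g₂ := B ∩ s = {n, ·}, edges (fct_inter), w ∉ them, Bg V w s g₁ (A), Bg V w s g₂ (B). g₁ ≠ g₂: otherwise the second element would be common to A, B, s. So one of them, g, is ≠ g'.
Sep: e ∈ Est V w with all vertices Bd. e = {x, y} (edg_pair; e ∈ edg V by definition of Est). exists_chd: Chd V w A' B' x y n' h. By the apex property A' = A, B' = B, or A' = B, B' = A; in the second case pass to hc.symm (a chord {y, x}). So let Chd V w A B x y n' h with e = {x, y} (Finset.pair_comm); n' = n (A ∩ B = {w, n'} = {w, n}). Q F := ∃ u ∈ F, h w < h u. Q s: n (hc.pos). ¬ Q t: a ∈ t, h a < h w (chd_nbr); if u ∈ t with h w < h u: chd_side with F := t, E := {x, y} (face by hc.adj; z = w is excluded as w ∉ t; a ∉ {x, y} because h a < h w = h x = h y; u ∉ {x, y}): False. Separation: F, F' ∈ Fw, Q F, ¬ Q F', e' ∈ Est, e' ⊆ F, e' ⊆ F': for z ∈ e': h z ≤ h w (¬ Q F'),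 and not h z < h w (chd_side for F with z and the u of Q F, E := {x, y}): h z = h w, so z ∈ {w, x, y} (chd_only; z ∈ V), z ≠ w (w ∉ F): z ∈ {x, y}. So e' ⊆ {x, y}, both have card 2: e' = {x, y} = e.
-/

set_option autoImplicit false

namespace Pool.Agent.LibTet88

open Finset Pool.Agent.LibPol19
open scoped Classical

variable {d : ℕ}

theorem C5_sep {V : Finset (Ed 3)} (hV : Simp V) {w : Ed 3} {A B : Finset (Ed 3)} {n a : Ed 3}
    {s t : Finset (Ed 3)} (hn : A ∩ B = {w, n}) (hns : n ∈ s) (hat : a ∈ t) (haA : a ∈ A)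
    (hwa : Adj V w a) (han : a ≠ n) (ht : Fct V t) (hwt : w ∉ t)
    {x y n' : Ed 3} {h : Ed 3 →ₗ[ℝ] ℝ} (hc : Chd V w A B x y n' h) :
    Sep V w s t ({x, y} : Finset (Ed 3)) := by
  have hnn : n' = n := by
    have h1 : n' ∈ ({w, n} : Finset (Ed 3)) := by
      rw [← hn, hc.hn]; simp
    rw [Finset.mem_insert, Finset.mem_singleton] at h1
    rcases h1 with h1 | h1
    · exact absurd h1.symm hc.wn
    · exact h1
  subst hnn
  refine ⟨fun F => ∃ u ∈ F, h w < h u, ⟨n', hns, hc.pos⟩, ?_, ?_⟩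
  · rintro ⟨u, hu, hwu⟩
    have h1 : h a < h w := chd_nbr hV hc haA hwa han
    refine chd_side hV hc (F := t) (E := {x, y}) ht.1 hc.adj.2 ?_ hat hu ?_ ?_ h1 hwu
    · rintro z hz (h2 | h2 | h2)
      · rw [h2] at hz; exact absurd hz hwt
      · rw [h2]; simp
      · rw [h2]; simp
    · rw [Finset.mem_insert, Finset.mem_singleton]
      rintro (h2 | h2)
      · rw [h2] at h1; exact absurd hc.hx h1.ne
      · rw [h2] at h1; exact absurd hc.hy h1.ne
    · rw [Finset.mem_insert, Finset.mem_singleton]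
      rintro (h2 | h2)
      · rw [h2] at hwu; exact absurd hc.hx hwu.ne'
      · rw [h2] at hwu; exact absurd hc.hy hwu.ne'
  · rintro F hF F' hF' ⟨u, hu, hwu⟩ hQ' e' he' he'F he'F'
    have hF1 := mem_Fw.1 hF
    have hF1' := mem_Fw.1 hF'
    have hsub : e' ⊆ ({x, y} : Finset (Ed 3)) := by
      intro z hz
      have h1 : ¬ h w < h z := fun h2 => hQ' ⟨z, he'F' hz, h2⟩
      have h2 : ¬ h z < h w := by
        intro h3
        refine chd_side hV hc (F := F) (E := {x, y}) hF1.1.1 hc.adj.2 ?_ (he'F hz) hu ?_ ?_ h3 hwu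
        · rintro z hz (h4 | h4 | h4)
          · rw [h4] at hz; exact absurd hz hF1.2
          · rw [h4]; simp
          · rw [h4]; simp
        · rw [Finset.mem_insert, Finset.mem_singleton]
          rintro (h4 | h4)
          · rw [h4] at h3; exact absurd hc.hx h3.ne
          · rw [h4] at h3; exact absurd hc.hy h3.ne
        · rw [Finset.mem_insert, Finset.mem_singleton]
          rintro (h4 | h4)
          · rw [h4] at hwu; exact absurd hc.hx hwu.ne'
          · rw [h4] at hwu; exact absurd hc.hy hwu.ne'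
      have h3 : h z = h w := le_antisymm (not_lt.1 h1) (not_lt.1 h2)
      have hzV : z ∈ V := hF1.1.1.2.1 (he'F hz)
      rw [Finset.mem_insert, Finset.mem_singleton]
      rcases chd_only hV hc hzV h3 with h4 | h4 | h4
      · exfalso
        apply hF1.2
        rw [← h4]
        exact he'F hz
      · exact Or.inl h4
      · exact Or.inr h4
    have hcard : e'.card = 2 := by
      unfold Est at he'
      exact (mem_edg.1 (Finset.mem_filter.1 he').1).2.1
    refine Finset.eq_of_subset_of_card_le hsub ?_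
    rw [hcard]
    exact Finset.card_le_two

/-- C5: the ends of the trail -/
theorem apex_sep {V : Finset (Ed 3)} (hV : Simp V) {w : Ed 3} {A B : Finset (Ed 3)} {n : Ed 3} (h : Apex V w A B n) :
    ∃ s t g g', s ∈ Fw V w ∧ t ∈ Fw V w ∧ Bg V w s g ∧ Bg V w t g' ∧ g ≠ g' ∧
      ∀ e ∈ Est V w, (∀ x ∈ e, Bd V w x) → Sep V w s t e := by
  have hnAB : n ∈ A ∩ B := by rw [h.hn]; simp
  have hnA : n ∈ A := (Finset.mem_inter.1 hnAB).1
  have hnB : n ∈ B := (Finset.mem_inter.1 hnAB).2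
  obtain ⟨s, hs, hns, hsA, hsB, -, hABs⟩ := three_at hV h.fA h.fB h.AB hnA hnB
  have hws : w ∉ s := fun h1 => h.wn (hABs w h.wA h.wB h1)
  obtain ⟨C, hC, hwC, hCA, hCB, -, hABC⟩ := three_at hV h.fA h.fB h.AB h.wA h.wB
  obtain ⟨a, hwa, hAC, hae⟩ := fct_inter hV h.fA hC (Ne.symm hCA) h.wA hwC
  have haAC : a ∈ A ∩ C := by rw [hAC]; simp
  have haA : a ∈ A := (Finset.mem_inter.1 haAC).1
  have haC : a ∈ C := (Finset.mem_inter.1 haAC).2
  have han : a ≠ n := by
    rintro rfl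
    exact hwa (hABC a haA hnB haC).symm
  have hadj : Adj V w a := pair_mem_edg.1 hae
  obtain ⟨t, ht, hat, htA, htC, -, hACt⟩ := three_at hV h.fA hC (Ne.symm hCA) haA haC
  have hwt : w ∉ t := fun h1 => hwa (hACt w h.wA hwC h1)
  obtain ⟨a', haa', hAt, hAte⟩ := fct_inter hV h.fA ht (Ne.symm htA) haA hat
  obtain ⟨u1, hnu1, hAs, hAse⟩ := fct_inter hV h.fA hs (Ne.symm hsA) hnA hns
  obtain ⟨u2, hnu2, hBs, hBse⟩ := fct_inter hV h.fB hs (Ne.symm hsB) hnB hns
  have hg' : Bg V w t (A ∩ t) :=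
    ⟨by rw [hAt]; exact hAte, fun h1 => hwt (Finset.mem_inter.1 h1).2, Finset.inter_subset_right,
      A, h.fA, h.wA, Finset.inter_subset_left⟩
  have hg1 : Bg V w s (A ∩ s) :=
    ⟨by rw [hAs]; exact hAse, fun h1 => hws (Finset.mem_inter.1 h1).2, Finset.inter_subset_right,
      A, h.fA, h.wA, Finset.inter_subset_left⟩
  have hg2 : Bg V w s (B ∩ s) :=
    ⟨by rw [hBs]; exact hBse, fun h1 => hws (Finset.mem_inter.1 h1).2, Finset.inter_subset_right,
      B, h.fB, h.wB, Finset.inter_subset_left⟩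
  have hne : A ∩ s ≠ B ∩ s := by
    intro h1
    have h2 : u1 ∈ A ∩ s := by rw [hAs]; simp
    have h3 : u1 ∈ B ∩ s := by rw [← h1]; exact h2
    exact hnu1 (hABs u1 (Finset.mem_inter.1 h2).1 (Finset.mem_inter.1 h3).1
      (Finset.mem_inter.1 h2).2).symm
  obtain ⟨g, hg, hgg'⟩ : ∃ g, Bg V w s g ∧ g ≠ A ∩ t := by
    by_cases h1 : A ∩ s = A ∩ t
    · exact ⟨B ∩ s, hg2, fun h2 => hne (h1.trans h2.symm)⟩
    · exact ⟨A ∩ s, hg1, h1⟩
  refine ⟨s, t, g, A ∩ t, mem_Fw.2 ⟨hs, hws⟩, mem_Fw.2 ⟨ht, hwt⟩, hg, hg', hgg', ?_⟩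
  intro e he hbd
  have he1 : e ∈ edg V := by
    unfold Est at he
    exact (Finset.mem_filter.1 he).1
  obtain ⟨x, y, rfl, hxy⟩ := edg_pair he1
  obtain ⟨A', B', n', k, hc⟩ := exists_chd hV h.hw he (hbd x (by simp)) (hbd y (by simp))
  rcases h.chd A' B' x y n' k hc with ⟨h1, h2⟩ | ⟨h1, h2⟩
  · subst h1 h2
    exact C5_sep hV h.hn hns hat haA hadj han ht hwt hc
  · subst h1 h2
    have h3 := C5_sep hV h.hn hns hat haA hadj han ht hwt hc.symm
    rw [Finset.pair_comm]
    exact h3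

end Pool.Agent.LibTet88
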