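import Mathlib
import Pool.Agent.LibTet88.Basic
import Pool.Agent.LibTet88.Q1
import Pool.Agent.LibPol19.G12

/-! Row G1.
Suppose z ∉ hl V. hl V is convex and closed (Set.Finite.isClosed_convexHull, V.finite_toSet); geometric_hahn_banach_closed_point gives a continuous linear m and u with m v < u for v ∈ hl V and u < m z. Let x ∈ V maximise m on V (Finset.exists_max_image). nb V x has three elements; simple_indep (G12): the vectors u - x, u ∈ nb V x, are linearly independent in ℝ³, so they span (LinearIndependent.span_eq_top_of_card_eq_finrank' or basisOfLinearIndependentOfCardEqFinrank, finrank = 3) and z - x = ∑ u ∈ nb V x, c u • (u - x) for some c : Ed 3 → ℝ. Claim c u ≥ 0: fct_at gives a facet F ∋ x with nb V x ∩ F = (nb V x).erase u; hL for F: L F x = k F, L F u' = k F for the other two neighbours, L F u < k F (u ∉ F). L F z ≤ k F by hz, and L F z - k F = L F (z - x) = c u (L F u - k F): so c u ≥ 0. Then m (z - x) = ∑ c u m (u - x) ≤ 0 because m u ≤ m x; but m x < m z: contradiction.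
-/

set_option autoImplicit false

namespace Pool.Agent.LibTet88

open Finset Pool.Agent.LibPol19
open scoped Classical

variable {d : ℕ}

/-- G1: a simple polytope is the intersection of its facet half spaces -/
theorem hrep {V : Finset (Ed 3)} (hV : Simp V) (hne : V.Nonempty) {L : Finset (Ed 3) → Ed 3 →ₗ[ℝ] ℝ}
    {k : Finset (Ed 3) → ℝ} (hL : ∀ F, Fct V F → ∀ v ∈ V, L F v ≤ k F ∧ (L F v = k F ↔ v ∈ F)) {z : Ed 3}
    (hz : ∀ F, Fct V F → L F z ≤ k F) : z ∈ hl V := by
  by_contra hnot
  have hcl : IsClosed (hl V) := Set.Finite.isClosed_convexHull ℝ V.finite_toSet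
  obtain ⟨m, u, hm1, hm2⟩ := geometric_hahn_banach_closed_point (convex_convexHull ℝ (V : Set (Ed 3))) hcl hnot
  obtain ⟨x, hxV, hx⟩ := Finset.exists_max_image V m hne
  have h3 := hV.simple x hxV
  have hli := simple_indep hV.vert hV.full hxV h3
  have hcard : Fintype.card {u // u ∈ nb V x} = Module.finrank ℝ (Ed 3) := by
    rw [Fintype.card_coe, h3, finrank_euclideanSpace_fin]
  have hspan := hli.span_eq_top_of_card_eq_finrank' hcard
  have hzx : z - x ∈ Submodule.span ℝ (Set.range (fun u : {u // u ∈ nb V x} => (u : Ed 3) - x)) := by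
    rw [hspan]; exact Submodule.mem_top
  obtain ⟨c, hc⟩ := (Submodule.mem_span_range_iff_exists_fun ℝ).1 hzx
  have hc0 : ∀ i, 0 ≤ c i := by
    intro i
    obtain ⟨h1, -, -⟩ := fct_at hV hxV
    obtain ⟨F, hF, hxF, hFi⟩ := h1 i.1 i.2
    have hiF : (i : Ed 3) ∉ F := by
      intro h
      have h4 : (i : Ed 3) ∈ nb V x ∩ F := Finset.mem_inter.2 ⟨i.2, h⟩
      rw [hFi] at h4
      exact (Finset.mem_erase.1 h4).1 rfl
    have hiV : (i : Ed 3) ∈ V := (Q1_mem_nb.1 i.2).1
    have hkx : L F x = k F := ((hL F hF x hxV).2).2 hxF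
    have hki : L F i < k F := lt_of_le_of_ne (hL F hF i hiV).1 fun h => hiF (((hL F hF i hiV).2).1 h)
    have h5 : L F (z - x) = c i * (L F i - k F) := by
      rw [← hc, map_sum, Finset.sum_eq_single i]
      · rw [map_smul, smul_eq_mul, map_sub, hkx]
      · intro j _ hji
        have hjF : (j : Ed 3) ∈ F := by
          have h6 : (j : Ed 3) ∈ nb V x ∩ F := by
            rw [hFi]
            exact Finset.mem_erase.2 ⟨fun h => hji (Subtype.ext h), j.2⟩
          exact (Finset.mem_inter.1 h6).2
        have hjV : (j : Ed 3) ∈ V := (Q1_mem_nb.1 j.2).1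
        rw [map_smul, map_sub, hkx, ((hL F hF j hjV).2).2 hjF, sub_self, smul_zero]
      · intro h
        exact absurd (Finset.mem_univ i) h
    have h6 := hz F hF
    rw [map_sub, hkx] at h5
    by_contra hneg
    push Not at hneg
    have h7 : 0 < c i * (L F i - k F) := mul_pos_of_neg_of_neg hneg (by linarith)
    linarith
  have h8 : m (z - x) ≤ 0 := by
    rw [← hc, map_sum]
    refine Finset.sum_nonpos fun i _ => ?_
    rw [map_smul, smul_eq_mul, map_sub]
    have h9 := hx i (Q1_mem_nb.1 i.2).1
    exact mul_nonpos_of_nonneg_of_nonpos (hc0 i) (by linarith)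
  rw [map_sub] at h8
  have h9 := hm1 x (mem_hl hxV)
  linarith

end Pool.Agent.LibTet88
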