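import Mathlib
import Pool.Agent.LibTet88.Basic
import Pool.Agent.LibTet88.Q3
import Pool.Agent.LibPol19.G20

/-! Row T1.
(0) If F ≠ F' ∈ Fw V w have a common vertex x, then Fa V w (Est V w) F F': F ∩ F' = {x, u} ∈ edg V (fct_inter); a facet containing e = {x, u} is F or F' (edge_two: the two facets given there contain e, so they are... : edge_two gives P, P' with every facet ⊇ e equal to P or P'; F, F' ⊇ e are different, so {F, F'} = {P, P'}), and w ∉ F, F': so no facet through w contains e: e ∈ Est V w.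
(1) Let x, y ≠ w be adjacent: edge_two for e = {x, y}: P ∩ P' = e does not contain w, so one of P, P' does not contain w: there is G ∈ Fw V w with x, y ∈ G.
(2) F, F' ∈ Fw V w; take x ∈ F, y ∈ F' (nonempty), x, y ≠ w. balinski (G20) with the face V (face_self), S = {w}: 1 < dm V = 3 (Full V: dm V = finrank ⊤ = 3): a chain from x to y of adjacent vertices ≠ w. Induction on the chain: for all z reached: for every G ∈ Fw V w containing z: ReflTransGen (Fa V w (Est V w)) F G. Start: x ∈ F, G: equal or (0). Step z → z': there is G' ∈ Fw containing z, z' (1); F →* G' and then to any G ∋ z' by (0) (or G = G').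
-/

set_option autoImplicit false

namespace Pool.Agent.LibTet88

open Finset Pool.Agent.LibPol19
open scoped Classical

variable {d : ℕ}

/-- two facets not containing `w` with a common vertex are adjacent -/
private theorem T1_adj {V : Finset (Ed 3)} (hV : Simp V) {w : Ed 3} {F F' : Finset (Ed 3)} (hF : F ∈ Fw V w)
    (hF' : F' ∈ Fw V w) (hne : F ≠ F') {x : Ed 3} (hx : x ∈ F) (hx' : x ∈ F') : Fa V w (Est V w) F F' := by
  obtain ⟨h1, h2⟩ := mem_Fw.1 hF
  obtain ⟨h3, h4⟩ := mem_Fw.1 hF'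
  obtain ⟨u, hu, hi, he⟩ := fct_inter hV h1 h3 hne hx hx'
  have h5 : ({x, u} : Finset (Ed 3)) ⊆ F := hi ▸ Finset.inter_subset_left
  have h6 : ({x, u} : Finset (Ed 3)) ⊆ F' := hi ▸ Finset.inter_subset_right
  refine ⟨hF, hF', {x, u}, ?_, h5, h6⟩
  unfold Est
  rw [Finset.mem_filter]
  refine ⟨he, fun A hA hwA hsub => ?_⟩
  obtain ⟨P, P', hPP, hP, hP', hPi, hall⟩ := edge_two hV he
  have hAF : A ≠ F := fun h => h2 (h ▸ hwA)
  have hAF' : A ≠ F' := fun h => h4 (h ▸ hwA)
  rcases hall F h1 h5 with rfl | rfl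
  · rcases hall F' h3 h6 with rfl | rfl
    · exact hne rfl
    · rcases hall A hA hsub with h | h
      · exact hAF h
      · exact hAF' h
  · rcases hall F' h3 h6 with rfl | rfl
    · rcases hall A hA hsub with h | h
      · exact hAF' h
      · exact hAF h
    · exact hne rfl

/-- adjacent vertices different from `w` lie in a common facet not containing `w` -/
private theorem T1_ex {V : Finset (Ed 3)} (hV : Simp V) {w x y : Ed 3} (h : Adj V x y) (hx : x ≠ w) (hy : y ≠ w) :
    ∃ G ∈ Fw V w, x ∈ G ∧ y ∈ G := by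
  obtain ⟨P, P', hPP, hP, hP', hPi, hall⟩ := edge_two hV (pair_mem_edg.2 h)
  have hx1 : x ∈ P ∩ P' := hPi ▸ Finset.mem_insert_self _ _
  have hy1 : y ∈ P ∩ P' := hPi ▸ Finset.mem_insert_of_mem (Finset.mem_singleton_self _)
  rw [Finset.mem_inter] at hx1 hy1
  by_cases hwP : w ∈ P
  · have hwP' : w ∉ P' := by
      intro hwP'
      have h1 : w ∈ ({x, y} : Finset (Ed 3)) := hPi ▸ Finset.mem_inter.2 ⟨hwP, hwP'⟩
      rw [Finset.mem_insert, Finset.mem_singleton] at h1
      rcases h1 with h1 | h1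
      · exact hx h1.symm
      · exact hy h1.symm
    exact ⟨P', mem_Fw.2 ⟨hP', hwP'⟩, hx1.2, hy1.2⟩
  · exact ⟨P, mem_Fw.2 ⟨hP, hwP⟩, hx1.1, hy1.1⟩

/-- T1: the graph of the facets not containing `w` is connected -/
theorem fw_conn {V : Finset (Ed 3)} (hV : Simp V) {w : Ed 3} (hw : w ∈ V) {F F' : Finset (Ed 3)} (hF : F ∈ Fw V w)
    (hF' : F' ∈ Fw V w) : Relation.ReflTransGen (Fa V w (Est V w)) F F' := by
  obtain ⟨h1, h2⟩ := mem_Fw.1 hF
  obtain ⟨h3, h4⟩ := mem_Fw.1 hF'
  obtain ⟨x, hx⟩ := h1.1.1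
  obtain ⟨y, hy⟩ := h3.1.1
  have hxw : x ≠ w := fun h => h2 (h ▸ hx)
  have hyw : y ≠ w := fun h => h4 (h ▸ hy)
  have hdm : dm V = 3 := by
    have h5 : vectorSpan ℝ (V : Set (Ed 3)) = ⊤ := hV.full
    unfold dm
    rw [h5, finrank_top, finrank_euclideanSpace_fin]
  have hS : ({w} : Finset (Ed 3)).card < dm V := by
    rw [hdm, Finset.card_singleton]
    norm_num
  have hbal := balinski hV.vert (face_self ⟨w, hw⟩) hS (h1.1.2.1 hx)
    (fun h => hxw (Finset.mem_singleton.1 h)) (h3.1.2.1 hy) (fun h => hyw (Finset.mem_singleton.1 h))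
  have key : ∀ z : Ed 3, Relation.ReflTransGen (fun u v => Adj V u v ∧ v ∈ V ∧ v ∉ ({w} : Finset (Ed 3))) x z →
      z ≠ w ∧ ∀ G ∈ Fw V w, z ∈ G → Relation.ReflTransGen (Fa V w (Est V w)) F G := by
    intro z hz
    induction hz with
    | refl =>
      refine ⟨hxw, fun G hG hxG => ?_⟩
      by_cases hFG : F = G
      · rw [hFG]
      · exact Relation.ReflTransGen.single (T1_adj hV hF hG hFG hx hxG)
    | tail _ hst ih =>
      obtain ⟨hadj, _, hnw⟩ := hst
      obtain ⟨ihw, ihG⟩ := ih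
      have hzw := fun h => hnw (Finset.mem_singleton.2 h)
      refine ⟨hzw, fun G hG hzG => ?_⟩
      obtain ⟨G', hG', ha, hb⟩ := T1_ex hV hadj ihw hzw
      have h6 := ihG G' hG' ha
      by_cases hGG : G' = G
      · rw [← hGG]
        exact h6
      · exact h6.tail (T1_adj hV hG' hG hGG hb hzG)
  exact (key y hbal).2 F' hF' hy

end Pool.Agent.LibTet88
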