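import Mathlib
import Pool.Agent.LibTet88.Basic
import Pool.Agent.LibTet88.T1

/-! Row T2.
toggle: Γ' := symmDiff Γ {e} (a ∈ Γ' ↔ a ∈ Γ for a ≠ e; e ∈ Γ' ↔ e ∉ Γ; Finset.mem_symmDiff). If e ⊆ G then xs Γ' G = (xs Γ G).erase e if e ∈ Γ, insert e (xs Γ G) if e ∉ Γ: the card changes by one; otherwise xs Γ' G = xs Γ G. est_two: (Fw V w).filter (e ⊆ ·) is a pair {P, P'}; it contains F and F', F ≠ F', so for G ∈ Fw V w: e ⊆ G ↔ G = F ∨ G = F'.
exists_odd2: induction along fw_conn s t (head fixed): for all F with ReflTransGen (Fa ..) s F: ∃ Γ, Odd2 V w s F Γ. F = s: Γ = ∅: 0 + 1 + 1 at s, 0 + 0 + 0 elsewhere. Step F → F' through e ∈ Est, e ⊆ F, e ⊆ F': if F = F' nothing to do, otherwise {F, F'} is the pair of e; Γ' = symmDiff Γ {e}: at G: the number changes by one at F, F', and (if G = F) becomes (if G = F'): also changes by one exactly at F and F'.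
-/

set_option autoImplicit false

namespace Pool.Agent.LibTet88

open Finset Pool.Agent.LibPol19
open scoped Classical

variable {d : ℕ}

/-- T2: toggling an edge -/
theorem toggle (Γ : Finset (Finset (Ed 3))) (e G : Finset (Ed 3)) :
    (xs (symmDiff Γ {e}) G).card % 2 = ((xs Γ G).card + (if e ⊆ G then 1 else 0)) % 2 := by
  by_cases heG : e ⊆ G
  · rw [if_pos heG]
    by_cases he : e ∈ Γ
    · have h1 : xs (symmDiff Γ {e}) G = (xs Γ G).erase e := by
        ext a
        unfold xs
        rw [mem_filter, mem_erase, mem_filter, mem_symmDiff, mem_singleton]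
        by_cases hae : a = e
        · subst hae
          simp [he]
        · simp [hae]
      have h2 : e ∈ xs Γ G := mem_filter.2 ⟨he, heG⟩
      have h3 := card_pos.2 ⟨e, h2⟩
      rw [h1, card_erase_of_mem h2]
      omega
    · have h1 : xs (symmDiff Γ {e}) G = insert e (xs Γ G) := by
        ext a
        unfold xs
        rw [mem_filter, mem_insert, mem_filter, mem_symmDiff, mem_singleton]
        by_cases hae : a = e
        · subst hae
          simp [he, heG]
        · simp [hae]
      have h2 : e ∉ xs Γ G := fun h => he (mem_filter.1 h).1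
      rw [h1, card_insert_of_notMem h2]
  · rw [if_neg heG, add_zero]
    have h1 : xs (symmDiff Γ {e}) G = xs Γ G := by
      ext a
      unfold xs
      rw [mem_filter, mem_filter, mem_symmDiff, mem_singleton]
      by_cases hae : a = e
      · subst hae
        simp [heG]
      · simp [hae]
    rw [h1]

/-- T2: a subgraph with the right parities -/
theorem exists_odd2 {V : Finset (Ed 3)} (hV : Simp V) {w : Ed 3} (hw : w ∈ V) {s t : Finset (Ed 3)}
    (hs : s ∈ Fw V w) (ht : t ∈ Fw V w) : ∃ Γ, Odd2 V w s t Γ := by
  have key : ∀ F, Relation.ReflTransGen (Fa V w (Est V w)) s F → ∃ Γ, Odd2 V w s F Γ := by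
    intro F hF
    induction hF with
    | refl =>
      refine ⟨∅, empty_subset _, fun F _ => ?_⟩
      have h1 : xs (∅ : Finset (Finset (Ed 3))) F = ∅ := by
        unfold xs
        rw [filter_empty]
      rw [h1, card_empty, zero_add]
      exact ⟨_, rfl⟩
    | @tail F F' _ hstep ih =>
      obtain ⟨Γ, hΓ, hev⟩ := ih
      obtain ⟨hF, hF', e, he, heF, heF'⟩ := hstep
      by_cases hne : F = F'
      · rw [← hne]
        exact ⟨Γ, hΓ, hev⟩
      · obtain ⟨P, P', hPP, -, -, -, hfil⟩ := est_two hV he
        have h1 : F ∈ ({P, P'} : Finset (Finset (Ed 3))) := by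
          rw [← hfil]
          exact mem_filter.2 ⟨hF, heF⟩
        have h2 : F' ∈ ({P, P'} : Finset (Finset (Ed 3))) := by
          rw [← hfil]
          exact mem_filter.2 ⟨hF', heF'⟩
        rw [mem_insert, mem_singleton] at h1 h2
        have h3 : ∀ G ∈ Fw V w, e ⊆ G → G = F ∨ G = F' := by
          intro G hG heG
          have h4 : G ∈ ({P, P'} : Finset (Finset (Ed 3))) := by
            rw [← hfil]
            exact mem_filter.2 ⟨hG, heG⟩
          rw [mem_insert, mem_singleton] at h4
          rcases h1 with h1 | h1 <;> rcases h2 with h2 | h2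
          · exact absurd (h1.trans h2.symm) hne
          · rw [h1, h2]; exact h4
          · rw [h1, h2]; exact h4.symm
          · exact absurd (h1.trans h2.symm) hne
        refine ⟨symmDiff Γ {e}, ?_, ?_⟩
        · intro a ha
          rw [mem_symmDiff, mem_singleton] at ha
          rcases ha with ha | ha
          · exact hΓ ha.1
          · rw [ha.1]; exact he
        · intro G hG
          have h4 := hev G hG
          have h5 := toggle Γ e G
          rw [Nat.even_iff] at h4 ⊢
          by_cases hGF : G = F
          · have hGF' : G ≠ F' := fun h => hne (hGF.symm.trans h)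
            rw [if_pos (hGF ▸ heF)] at h5
            rw [if_pos hGF] at h4
            rw [if_neg hGF']
            omega
          · by_cases hGF' : G = F'
            · rw [if_pos (hGF' ▸ heF')] at h5
              rw [if_neg hGF] at h4
              rw [if_pos hGF']
              omega
            · have h6 : ¬ e ⊆ G := fun h => by
                rcases h3 G hG h with h7 | h7
                · exact hGF h7
                · exact hGF' h7
              rw [if_neg h6] at h5
              rw [if_neg hGF] at h4
              rw [if_neg hGF']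
              omega
  exact key t (fw_conn hV hw hs ht)

end Pool.Agent.LibTet88
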