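import Mathlib
import Pool.Agent.LibTet88.Basic
import Pool.Agent.LibTet88.Q3

/-! Row T3.
Suppose e ∉ Γ. Let 𝒬 := (Fw V w).filter Q. ∑ F ∈ 𝒬, (xs Γ F).card = ∑ e' ∈ Γ, (𝒬.filter (e' ⊆ ·)).card (double counting as in R1). For e' ∈ Γ (so e' ∈ Est, e' ≠ e): est_two: exactly two members F, F' of Fw contain e'; by the separation property (Sep) not exactly one of them satisfies Q (if Q F and ¬ Q F' then e' = e): so the term is 0 or 2: the sum is even. On the other hand ∑ F ∈ 𝒬, ((xs Γ F).card + (if F = s then 1 else 0) + (if F = t then 1 else 0)) is even (Odd2), and ∑ F ∈ 𝒬 (if F = s ..) = 1 (Q s, s ∈ Fw), ∑ F ∈ 𝒬 (if F = t ..) = 0 (¬ Q t): so ∑ F ∈ 𝒬 (xs Γ F).card is odd: contradiction.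
-/

set_option autoImplicit false

namespace Pool.Agent.LibTet88

open Finset Pool.Agent.LibPol19
open scoped Classical

variable {d : ℕ}

theorem T3_count {α β : Type*} (A : Finset α) (B : Finset β) (r : α → β → Prop)
    [∀ a b, Decidable (r a b)] :
    ∑ b ∈ B, (A.filter fun a => r a b).card = ∑ a ∈ A, (B.filter fun b => r a b).card := by
  simp only [Finset.card_filter]
  exact Finset.sum_comm

/-- T3: an edge separating `s` from `t` belongs to `Γ` -/
theorem cut_parity {V : Finset (Ed 3)} (hV : Simp V) {w : Ed 3} {s t : Finset (Ed 3)} {Γ : Finset (Finset (Ed 3))}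
    (hΓ : Odd2 V w s t Γ) (hs : s ∈ Fw V w) {e : Finset (Ed 3)} (he : Sep V w s t e) : e ∈ Γ := by
  obtain ⟨Q, hQs, hQt, hQ⟩ := he
  by_contra hcon
  have h1 : Even (∑ F ∈ (Fw V w).filter Q, (xs Γ F).card) := by
    have h2 : ∑ F ∈ (Fw V w).filter Q, (xs Γ F).card =
        ∑ e' ∈ Γ, (((Fw V w).filter Q).filter fun F => e' ⊆ F).card := by
      rw [← T3_count Γ ((Fw V w).filter Q) (fun e F => e ⊆ F)]
      rfl
    rw [h2]
    apply Finset.even_sum
    intro e' he'
    have hE : e' ∈ Est V w := hΓ.1 he'
    obtain ⟨F, F', hne, hF, hF', _, hfil⟩ := est_two hV hE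
    have h3 : ((Fw V w).filter Q).filter (fun G => e' ⊆ G) =
        ({F, F'} : Finset (Finset (Ed 3))).filter Q := by
      rw [← hfil, Finset.filter_filter, Finset.filter_filter]
      apply Finset.filter_congr
      intro G _
      exact and_comm
    have hFe : e' ⊆ F := by
      have : F ∈ (Fw V w).filter fun G => e' ⊆ G := by
        rw [hfil]
        exact Finset.mem_insert_self _ _
      exact (Finset.mem_filter.1 this).2
    have hFe' : e' ⊆ F' := by
      have : F' ∈ (Fw V w).filter fun G => e' ⊆ G := by
        rw [hfil]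
        exact Finset.mem_insert_of_mem (Finset.mem_singleton_self _)
      exact (Finset.mem_filter.1 this).2
    have hee : e' ≠ e := fun h => hcon (h ▸ he')
    rw [h3]
    by_cases hQF : Q F
    · by_cases hQF' : Q F'
      · rw [Finset.filter_true_of_mem, Finset.card_pair hne]
        · exact even_two
        · intro G hG
          rw [Finset.mem_insert, Finset.mem_singleton] at hG
          rcases hG with hG | hG
          · rw [hG]; exact hQF
          · rw [hG]; exact hQF'
      · exact absurd (hQ F hF F' hF' hQF hQF' e' hE hFe hFe') hee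
    · by_cases hQF' : Q F'
      · exact absurd (hQ F' hF' F hF hQF' hQF e' hE hFe' hFe) hee
      · rw [Finset.filter_false_of_mem, Finset.card_empty]
        · exact Even.zero
        · intro G hG
          rw [Finset.mem_insert, Finset.mem_singleton] at hG
          rcases hG with hG | hG
          · rw [hG]; exact hQF
          · rw [hG]; exact hQF'
  have h4 : Even (∑ F ∈ (Fw V w).filter Q,
      ((xs Γ F).card + (if F = s then 1 else 0) + (if F = t then 1 else 0))) := by
    apply Finset.even_sum
    intro F hF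
    exact hΓ.2 F (Finset.mem_filter.1 hF).1
  rw [Finset.sum_add_distrib, Finset.sum_add_distrib, Finset.sum_ite_eq', Finset.sum_ite_eq',
    if_pos (Finset.mem_filter.2 ⟨hs, hQs⟩),
    if_neg (fun h => hQt (Finset.mem_filter.1 h).2)] at h4
  rw [Nat.even_iff] at h1 h4
  omega

end Pool.Agent.LibTet88
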