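import Mathlib
import Pool.Agent.LibTet88.Basic
import Pool.Agent.LibTet88.T2

set_option autoImplicit false

namespace Pool.Agent.LibTet88

open Finset Pool.Agent.LibPol19
open scoped Classical

variable {d : ℕ}

theorem T4_pair {V : Finset (Ed 3)} (hV : Simp V) {w : Ed 3} {a P Q : Finset (Ed 3)} (ha : a ∈ Est V w)
    (hP : P ∈ Fw V w) (hQ : Q ∈ Fw V w) (hPQ : P ≠ Q) (haP : a ⊆ P) (haQ : a ⊆ Q) :
    ∀ G ∈ Fw V w, a ⊆ G ↔ (G = P ∨ G = Q) := by
  obtain ⟨P', Q', hne, hP', hQ', hint, hfil⟩ := est_two hV ha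
  have h1 : P ∈ (Fw V w).filter (fun G => a ⊆ G) := Finset.mem_filter.2 ⟨hP, haP⟩
  have h2 : Q ∈ (Fw V w).filter (fun G => a ⊆ G) := Finset.mem_filter.2 ⟨hQ, haQ⟩
  rw [hfil, Finset.mem_insert, Finset.mem_singleton] at h1 h2
  intro G hG
  have h3 : a ⊆ G ↔ G ∈ (Fw V w).filter (fun G => a ⊆ G) := by
    rw [Finset.mem_filter]; exact ⟨fun h => ⟨hG, h⟩, fun h => h.2⟩
  rw [h3, hfil, Finset.mem_insert, Finset.mem_singleton]
  rcases h1 with rfl | rfl <;> rcases h2 with rfl | rfl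
  · exact absurd rfl hPQ
  · exact Iff.rfl
  · exact or_comm
  · exact absurd rfl hPQ

theorem T4_key {V : Finset (Ed 3)} (hV : Simp V) {w x : Ed 3} (hxb : ¬ Bd V w x) {P Q : Finset (Ed 3)}
    (hP : P ∈ Fw V w) (hQ : Q ∈ Fw V w) (hPQ : P ≠ Q) (hxP : x ∈ P) (hxQ : x ∈ Q) :
    ∃ a ∈ Est V w, a ⊆ P ∧ a ⊆ Q ∧ ∀ G ∈ Fw V w, a ⊆ G ↔ (G = P ∨ G = Q) := by
  obtain ⟨u, hxu, hint, hedg⟩ := fct_inter hV (mem_Fw.1 hP).1 (mem_Fw.1 hQ).1 hPQ hxP hxQ
  have ha : ({x, u} : Finset (Ed 3)) ∈ Est V w := by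
    unfold Est
    rw [Finset.mem_filter]
    refine ⟨hedg, fun A hA hw hsub => hxb ⟨A, hA, hw, hsub (Finset.mem_insert_self _ _)⟩⟩
  have h1 : ({x, u} : Finset (Ed 3)) ⊆ P := by rw [← hint]; exact Finset.inter_subset_left
  have h2 : ({x, u} : Finset (Ed 3)) ⊆ Q := by rw [← hint]; exact Finset.inter_subset_right
  exact ⟨_, ha, h1, h2, T4_pair hV ha hP hQ hPQ h1 h2⟩

theorem T4_symm {V : Finset (Ed 3)} {w : Ed 3} {Γ : Finset (Finset (Ed 3))} {F F' : Finset (Ed 3)}
    (h : Fa V w Γ F F') : Fa V w Γ F' F := by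
  obtain ⟨h1, h2, e, he, h3, h4⟩ := h
  exact ⟨h2, h1, e, he, h4, h3⟩

/-- T4: growing the component of `s` at a simple inner vertex -/
theorem improve {V : Finset (Ed 3)} (hV : Simp V) {w : Ed 3} {s t : Finset (Ed 3)} {Γ : Finset (Finset (Ed 3))}
    (hΓ : Odd2 V w s t Γ) {F F' e : Finset (Ed 3)} (hF : F ∈ Fw V w) (hF' : F' ∈ Fw V w) (he : e ∈ Est V w)
    (heΓ : e ∉ Γ) (heF : e ⊆ F) (heF' : e ⊆ F') {x : Ed 3} (hx : x ∈ e) (hxb : ¬ Bd V w x)
    (hC : Relation.ReflTransGen (Fa V w Γ) s F) (hC' : ¬ Relation.ReflTransGen (Fa V w Γ) s F') :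
    ∃ Γ', Odd2 V w s t Γ' ∧ (∀ G, Relation.ReflTransGen (Fa V w Γ) s G → Relation.ReflTransGen (Fa V w Γ') s G) ∧
      Relation.ReflTransGen (Fa V w Γ') s F' := by
  have hne : F ≠ F' := by rintro rfl; exact hC' hC
  have hxF : x ∈ F := heF hx
  have hxF' : x ∈ F' := heF' hx
  obtain ⟨F'', hF''f, hxF'', hn1, hn2, -, -⟩ :=
    three_at hV (mem_Fw.1 hF).1 (mem_Fw.1 hF').1 hne hxF hxF'
  have hF'' : F'' ∈ Fw V w := mem_Fw.2 ⟨hF''f, fun hw => hxb ⟨F'', hF''f, hw, hxF''⟩⟩
  have k0 := T4_pair hV he hF hF' hne heF heF'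
  obtain ⟨e₁, he₁, h1F, h1F'', k1⟩ := T4_key hV hxb hF hF'' (Ne.symm hn1) hxF hxF''
  obtain ⟨e₂, he₂, h2F', h2F'', k2⟩ := T4_key hV hxb hF' hF'' (Ne.symm hn2) hxF' hxF''
  have d1 : e ≠ e₁ := by
    rintro rfl
    rcases (k1 F' hF').1 heF' with h | h
    · exact hne h.symm
    · exact hn2 h.symm
  have d2 : e ≠ e₂ := by
    rintro rfl
    rcases (k2 F hF).1 heF with h | h
    · exact hne h
    · exact hn1 h.symm
  have d3 : e₁ ≠ e₂ := by
    rintro rfl
    rcases (k2 F hF).1 h1F with h | h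
    · exact hne h
    · exact hn1 h.symm
  set Γ' := symmDiff (symmDiff (symmDiff Γ {e}) {e₁}) {e₂} with hΓ'
  have m0 : e ∈ Γ' := by
    simp only [hΓ', Finset.mem_symmDiff, Finset.mem_singleton]
    tauto
  have m1 : e₁ ∈ Γ' ↔ e₁ ∉ Γ := by
    simp only [hΓ', Finset.mem_symmDiff, Finset.mem_singleton]
    have := d1.symm
    tauto
  have m2 : e₂ ∈ Γ' ↔ e₂ ∉ Γ := by
    simp only [hΓ', Finset.mem_symmDiff, Finset.mem_singleton]
    have := d2.symm
    have := d3.symm
    tauto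
  have m3 : ∀ a, a ≠ e → a ≠ e₁ → a ≠ e₂ → (a ∈ Γ' ↔ a ∈ Γ) := by
    intro a ha0 ha1 ha2
    simp only [hΓ', Finset.mem_symmDiff, Finset.mem_singleton]
    tauto
  refine ⟨Γ', ⟨?_, ?_⟩, ?_⟩
  · intro a ha
    by_cases a0 : a = e
    · rw [a0]; exact he
    by_cases a1 : a = e₁
    · rw [a1]; exact he₁
    by_cases a2 : a = e₂
    · rw [a2]; exact he₂
    exact hΓ.1 ((m3 a a0 a1 a2).1 ha)
  · intro G hG
    have t1 := toggle Γ e G
    have t2 := toggle (symmDiff Γ {e}) e₁ G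
    have t3 := toggle (symmDiff (symmDiff Γ {e}) {e₁}) e₂ G
    have p := hΓ.2 G hG
    rw [Nat.even_iff] at p ⊢
    rw [← hΓ'] at t3
    simp only [k0 G hG] at t1
    simp only [k1 G hG] at t2
    simp only [k2 G hG] at t3
    by_cases g0 : G = F
    · have g1 : G ≠ F' := by rw [g0]; exact hne
      have g2 : G ≠ F'' := by rw [g0]; exact hn1.symm
      simp only [g1, g2, or_false, if_false] at t1 t2 t3
      simp only [g0, or_true, true_or, if_true] at t1 t2 t3
      rw [g0] at p ⊢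
      omega
    by_cases g1 : G = F'
    · have g2 : G ≠ F'' := by rw [g1]; exact hn2.symm
      simp only [g0, g2, or_false, if_false, false_or] at t1 t2 t3
      simp only [g1, or_true, true_or, if_true] at t1 t2 t3
      rw [g1] at p ⊢
      omega
    by_cases g2 : G = F''
    · simp only [g0, g1, or_false, if_false, false_or] at t1 t2 t3
      simp only [g2, or_true, true_or, if_true] at t1 t2 t3
      rw [g2] at p ⊢
      omega
    · simp only [g0, g1, g2, or_false, if_false] at t1 t2 t3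
      omega
  · by_cases hC'' : Relation.ReflTransGen (Fa V w Γ) s F''
    · have n2 : e₂ ∉ Γ := fun h => hC' (hC''.tail ⟨hF'', hF', e₂, h, h2F'', h2F'⟩)
      have s1 : Fa V w Γ' F F' := ⟨hF, hF', e, m0, heF, heF'⟩
      have s2 : Fa V w Γ' F' F'' := ⟨hF', hF'', e₂, m2.2 n2, h2F', h2F''⟩
      have claim : ∀ G, Relation.ReflTransGen (Fa V w Γ) s G → Relation.ReflTransGen (Fa V w Γ') s G := by
        intro G hG
        induction hG with
        | refl => exact Relation.ReflTransGen.refl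
        | @tail G G' hG hst ih =>
          obtain ⟨hg, hg', a, ha, haG, haG'⟩ := hst
          by_cases a0 : a = e
          · rw [a0] at ha; exact absurd ha heΓ
          by_cases a2 : a = e₂
          · rw [a2] at ha; exact absurd ha n2
          by_cases a1 : a = e₁
          · subst a1
            rcases (k1 G hg).1 haG with rfl | rfl <;> rcases (k1 G' hg').1 haG' with rfl | rfl
            · exact ih
            · exact (ih.tail s1).tail s2
            · exact (ih.tail (T4_symm s2)).tail (T4_symm s1)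
            · exact ih
          · exact ih.tail ⟨hg, hg', a, (m3 a a0 a1 a2).2 ha, haG, haG'⟩
      exact ⟨claim, (claim F hC).tail s1⟩
    · have n1 : e₁ ∉ Γ := fun h => hC'' (hC.tail ⟨hF, hF'', e₁, h, h1F, h1F''⟩)
      have s1 : Fa V w Γ' F F' := ⟨hF, hF', e, m0, heF, heF'⟩
      have claim : ∀ G, Relation.ReflTransGen (Fa V w Γ) s G → Relation.ReflTransGen (Fa V w Γ') s G := by
        intro G hG
        induction hG with
        | refl => exact Relation.ReflTransGen.refl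
        | @tail G G' hG hst ih =>
          obtain ⟨hg, hg', a, ha, haG, haG'⟩ := hst
          by_cases a0 : a = e
          · rw [a0] at ha; exact absurd ha heΓ
          by_cases a1 : a = e₁
          · rw [a1] at ha; exact absurd ha n1
          by_cases a2 : a = e₂
          · subst a2
            rcases (k2 G hg).1 haG with rfl | rfl
            · exact absurd hG hC'
            · exact absurd hG hC''
          · exact ih.tail ⟨hg, hg', a, (m3 a a0 a1 a2).2 ha, haG, haG'⟩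
      exact ⟨claim, (claim F hC).tail s1⟩

end Pool.Agent.LibTet88
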