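import Mathlib
import Pool.Agent.LibTet88.Basic
import Pool.Agent.LibTet88.T3
import Pool.Agent.LibTet88.T4

/-! Row T5.
Among all Γ ⊆ Est V w with Odd2 V w s t Γ (nonempty family by exists_odd2; a subset of (Est V w).powerset) take one with (reach Γ).card maximal, reach Γ := (Fw V w).filter (ReflTransGen (Fa V w Γ) s ·) (Finset.exists_max_image). Suppose F₁ ∈ Fw V w is not reached. s ∈ Fw is reached; fw_conn s F₁: along the chain there is a step F → F' (Fa V w (Est V w) F F': F, F' ∈ Fw, e ∈ Est, e ⊆ F, e ⊆ F') with F reached, F' not reached. e ∉ Γ (otherwise F' would be reached). If all x ∈ e satisfy Bd V w x: Sep V w s t e by hypothesis, so e ∈ Γ by cut_parity: contradiction. Otherwise x ∈ e with ¬ Bd V w x: improve gives Γ' with a larger reached set (reach Γ ⊂ reach Γ', F' is new): contradiction (Finset.card_lt_card).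
-/

set_option autoImplicit false

namespace Pool.Agent.LibTet88

open Finset Pool.Agent.LibPol19
open scoped Classical

variable {d : ℕ}

/-- a chain leaving a predicate has a step leaving it -/
theorem T5_step {α : Type*} {r : α → α → Prop} {P : α → Prop} {x y : α} (h : Relation.ReflTransGen r x y)
    (hx : P x) (hy : ¬ P y) : ∃ a b, r a b ∧ P a ∧ ¬ P b := by
  induction h with
  | refl => exact absurd hx hy
  | @tail b c _ hbc ih =>
    by_cases hb : P b
    · exact ⟨b, c, hbc, hb, hy⟩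
    · exact ih hb

/-- T5: a spanning subgraph with the right parities -/
theorem spanning {V : Finset (Ed 3)} (hV : Simp V) {w : Ed 3} (hw : w ∈ V) {s t : Finset (Ed 3)}
    (hs : s ∈ Fw V w) (ht : t ∈ Fw V w) (hsep : ∀ e ∈ Est V w, (∀ x ∈ e, Bd V w x) → Sep V w s t e) :
    ∃ Γ, Odd2 V w s t Γ ∧ ∀ F ∈ Fw V w, Relation.ReflTransGen (Fa V w Γ) s F := by
  have hne : ((Est V w).powerset.filter fun Γ => Odd2 V w s t Γ).Nonempty := by
    obtain ⟨Γ, hΓ⟩ := exists_odd2 hV hw hs ht
    exact ⟨Γ, Finset.mem_filter.2 ⟨Finset.mem_powerset.2 hΓ.1, hΓ⟩⟩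
  obtain ⟨Γ, hΓm, hmax⟩ := Finset.exists_max_image _
    (fun Γ => ((Fw V w).filter fun F => Relation.ReflTransGen (Fa V w Γ) s F).card) hne
  have hΓ : Odd2 V w s t Γ := (Finset.mem_filter.1 hΓm).2
  refine ⟨Γ, hΓ, ?_⟩
  by_contra hcon
  push Not at hcon
  obtain ⟨F₁, hF₁, hn⟩ := hcon
  obtain ⟨F, F', hFF, hCF, hCF'⟩ := T5_step (P := fun G => Relation.ReflTransGen (Fa V w Γ) s G)
    (fw_conn hV hw hs hF₁) Relation.ReflTransGen.refl hn
  obtain ⟨hF, hF', e, he, heF, heF'⟩ := hFF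
  have heΓ : e ∉ Γ := fun h => hCF' (hCF.tail ⟨hF, hF', e, h, heF, heF'⟩)
  by_cases hb : ∀ x ∈ e, Bd V w x
  · exact heΓ (cut_parity hV hΓ hs (hsep e he hb))
  · push Not at hb
    obtain ⟨x, hx, hxb⟩ := hb
    obtain ⟨Γ', hΓ', hsub, hnew⟩ := improve hV hΓ hF hF' he heΓ heF heF' hx hxb hCF hCF'
    have h1 := hmax Γ' (Finset.mem_filter.2 ⟨Finset.mem_powerset.2 hΓ'.1, hΓ'⟩)
    have h2 : ((Fw V w).filter fun F => Relation.ReflTransGen (Fa V w Γ) s F) ⊂
        ((Fw V w).filter fun F => Relation.ReflTransGen (Fa V w Γ') s F) := by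
      rw [Finset.ssubset_iff_of_subset]
      · exact ⟨F', Finset.mem_filter.2 ⟨hF', hnew⟩, fun h => hCF' (Finset.mem_filter.1 h).2⟩
      · intro G hG
        rw [Finset.mem_filter] at hG ⊢
        exact ⟨hG.1, hsub G hG.2⟩
    have h3 := Finset.card_lt_card h2
    omega

end Pool.Agent.LibTet88
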