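import Mathlib
import Pool.Agent.LibTet88.Basic
import Pool.Agent.LibTet88.Q3

/-! Row T6.
Bg V w s g: g ∈ edg V, w ∉ g, g ⊆ s, and g ⊆ A for a facet A ∋ w. Γ₁ := insert g (insert g' Γ).
bd_one: (Fw V w).filter (g ⊆ ·) = {F}, and s is in it, so it is {s}; the same for g' and t. g, g' ∉ Γ (Γ ⊆ Est, but g is contained in a facet through w). edge: Est ⊆ edg V. two: e ∈ Γ: est_two. one, one': from bd_one.
xs Γ₁ F: (xs Γ₁ F).card = (xs Γ F).card + (if F = s then 1 else 0) + (if F = t then 1 else 0) for F ∈ Fw (filter_insert; g ⊆ F ↔ F = s; g' ⊆ F ↔ F = t; g ≠ g'; g, g' ∉ Γ): even by Odd2.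
nonempty: F = s: g. F ≠ s: the chain from s to F is not trivial, so its last step Fa V w Γ G F gives e ∈ Γ, e ⊆ F.
conn: it suffices that every e ∈ Γ₁ is EqvGen-related to g. Claim: for F reached from s (ReflTransGen (Fa V w Γ) s F) all e ∈ xs Γ₁ F are related to g: F = s: both in xs Γ₁ s. Step G → F through a ∈ Γ: a ∈ xs Γ₁ G is related to g, and e, a ∈ xs Γ₁ F. Every e ∈ Γ₁ is in xs Γ₁ F for some F ∈ Fw V w (est_two or bd_one).
-/

set_option autoImplicit false

namespace Pool.Agent.LibTet88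

open Finset Pool.Agent.LibPol19
open scoped Classical

variable {d : ℕ}

theorem T6_bg {V : Finset (Ed 3)} (hV : Simp V) {w : Ed 3} {s g : Finset (Ed 3)} (hs : s ∈ Fw V w)
    (hg : Bg V w s g) : (Fw V w).filter (fun F => g ⊆ F) = {s} := by
  obtain ⟨hge, hwg, hgs, A, hA, hwA, hgA⟩ := hg
  obtain ⟨F, hF, -, hfil⟩ := bd_one hV hge hwg hA hwA hgA
  have h1 : s ∈ (Fw V w).filter (fun F => g ⊆ F) := Finset.mem_filter.2 ⟨hs, hgs⟩
  rw [hfil, Finset.mem_singleton] at h1
  rw [hfil, h1]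

theorem T6_iff {V : Finset (Ed 3)} (hV : Simp V) {w : Ed 3} {s g : Finset (Ed 3)} (hs : s ∈ Fw V w)
    (hg : Bg V w s g) : ∀ F ∈ Fw V w, (g ⊆ F ↔ F = s) := by
  intro F hF
  have h1 : F ∈ (Fw V w).filter (fun F => g ⊆ F) ↔ F ∈ ({s} : Finset (Finset (Ed 3))) := by
    rw [T6_bg hV hs hg]
  rw [Finset.mem_filter, Finset.mem_singleton] at h1
  exact ⟨fun h => h1.1 ⟨hF, h⟩, fun h => (h1.2 h).2⟩

theorem T6_nest {V : Finset (Ed 3)} {w : Ed 3} {s g : Finset (Ed 3)} (hg : Bg V w s g) :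
    g ∉ Est V w := by
  obtain ⟨hge, hwg, hgs, A, hA, hwA, hgA⟩ := hg
  intro h
  unfold Est at h
  rw [Finset.mem_filter] at h
  exact h.2 A hA hwA hgA

/-- T6: the trail -/
theorem trail_of {V : Finset (Ed 3)} (hV : Simp V) {w : Ed 3} {s t g g' : Finset (Ed 3)} (hs : s ∈ Fw V w)
    (ht : t ∈ Fw V w) {Γ : Finset (Finset (Ed 3))} (hΓ : Odd2 V w s t Γ)
    (hconn : ∀ F ∈ Fw V w, Relation.ReflTransGen (Fa V w Γ) s F) (hg : Bg V w s g) (hg' : Bg V w t g')
    (hne : g ≠ g') : Trail V w (insert g (insert g' Γ)) g g' := by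
  have hsub : Γ ⊆ Est V w := hΓ.1
  have hgs := T6_iff hV hs hg
  have hgt := T6_iff hV ht hg'
  have hgΓ : g ∉ Γ := fun h => T6_nest hg (hsub h)
  have hg'Γ : g' ∉ Γ := fun h => T6_nest hg' (hsub h)
  have hmem : ∀ e F, e ∈ xs (insert g (insert g' Γ)) F ↔ (e = g ∨ e = g' ∨ e ∈ Γ) ∧ e ⊆ F := by
    intro e F
    unfold xs
    rw [Finset.mem_filter, Finset.mem_insert, Finset.mem_insert]
  have hΓmem : ∀ e, e ∈ insert g (insert g' Γ) → e = g ∨ e = g' ∨ e ∈ Γ := by
    intro e he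
    rwa [Finset.mem_insert, Finset.mem_insert] at he
  refine ⟨?_, ?_, ?_, ?_, Finset.mem_insert_self _ _,
    Finset.mem_insert_of_mem (Finset.mem_insert_self _ _), hne, ?_, ?_, ?_⟩
  · intro e he
    rcases hΓmem e he with rfl | rfl | he
    · exact hg.1
    · exact hg'.1
    · have h1 := hsub he
      unfold Est at h1
      exact (Finset.mem_filter.1 h1).1
  · intro e he h1 h2
    have he' : e ∈ Γ := by
      rcases hΓmem e he with h3 | h3 | h3
      · exact absurd h3 h1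
      · exact absurd h3 h2
      · exact h3
    obtain ⟨F, F', hFF, hF, hF', -, hfil⟩ := est_two hV (hsub he')
    rw [hfil, Finset.card_pair hFF]
  · rw [T6_bg hV hs hg, Finset.card_singleton]
  · rw [T6_bg hV ht hg', Finset.card_singleton]
  · intro F hF
    have h1 := hΓ.2 F hF
    have h2 := hgs F hF
    have h3 := hgt F hF
    have h4 : g ∉ Γ.filter (fun e => e ⊆ F) := fun h => hgΓ (Finset.mem_filter.1 h).1
    have h5 : g' ∉ Γ.filter (fun e => e ⊆ F) := fun h => hg'Γ (Finset.mem_filter.1 h).1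
    have h6 : g ∉ insert g' (Γ.filter (fun e => e ⊆ F)) := by
      rw [Finset.mem_insert, not_or]
      exact ⟨hne, h4⟩
    unfold xs at h1 ⊢
    rw [Finset.filter_insert, Finset.filter_insert]
    by_cases hFs : F = s
    · by_cases hFt : F = t
      · rw [if_pos (h2.2 hFs), if_pos (h3.2 hFt), Finset.card_insert_of_notMem h6,
          Finset.card_insert_of_notMem h5]
        rw [if_pos hFs, if_pos hFt] at h1
        exact h1
      · rw [if_pos (h2.2 hFs), if_neg (fun h => hFt (h3.1 h)), Finset.card_insert_of_notMem h4]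
        rw [if_pos hFs, if_neg hFt, add_zero] at h1
        exact h1
    · by_cases hFt : F = t
      · rw [if_neg (fun h => hFs (h2.1 h)), if_pos (h3.2 hFt), Finset.card_insert_of_notMem h5]
        rw [if_neg hFs, if_pos hFt, add_zero] at h1
        exact h1
      · rw [if_neg (fun h => hFs (h2.1 h)), if_neg (fun h => hFt (h3.1 h))]
        rw [if_neg hFs, if_neg hFt, add_zero, add_zero] at h1
        exact h1
  · intro F hF
    rcases (hconn F hF).cases_tail with h1 | ⟨G, -, hG⟩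
    · exact ⟨g, (hmem g F).2 ⟨Or.inl rfl, (hgs F hF).2 h1⟩⟩
    · obtain ⟨-, -, e, he, -, heF⟩ := hG
      exact ⟨e, (hmem e F).2 ⟨Or.inr (Or.inr he), heF⟩⟩
  · set R : Finset (Ed 3) → Finset (Ed 3) → Prop := fun a b => ∃ F ∈ Fw V w,
      a ∈ xs (insert g (insert g' Γ)) F ∧ b ∈ xs (insert g (insert g' Γ)) F with hR
    have claim : ∀ F, Relation.ReflTransGen (Fa V w Γ) s F →
        ∀ e ∈ xs (insert g (insert g' Γ)) F, Relation.EqvGen R g e := by
      intro F hF
      induction hF with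
      | refl =>
        intro e he
        exact Relation.EqvGen.rel _ _ ⟨s, hs, (hmem g s).2 ⟨Or.inl rfl, (hgs s hs).2 rfl⟩, he⟩
      | tail _ hGF ih =>
        intro e he
        obtain ⟨-, hF, a, ha, haG, haF⟩ := hGF
        refine Relation.EqvGen.trans _ _ _ (ih a ((hmem a _).2 ⟨Or.inr (Or.inr ha), haG⟩)) ?_
        exact Relation.EqvGen.rel _ _ ⟨_, hF, (hmem a _).2 ⟨Or.inr (Or.inr ha), haF⟩, he⟩
    have key : ∀ e ∈ insert g (insert g' Γ), Relation.EqvGen R g e := by
      intro e he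
      have h1 : ∃ F ∈ Fw V w, e ⊆ F := by
        rcases hΓmem e he with rfl | rfl | h
        · exact ⟨s, hs, (hgs s hs).2 rfl⟩
        · exact ⟨t, ht, (hgt t ht).2 rfl⟩
        · obtain ⟨F, F', -, hF, -, hFF, -⟩ := est_two hV (hsub h)
          refine ⟨F, hF, ?_⟩
          rw [← hFF]
          exact Finset.inter_subset_left
      obtain ⟨F, hF, heF⟩ := h1
      exact claim F (hconn F hF) e ((hmem e F).2 ⟨hΓmem e he, heF⟩)
    intro e he e' he'
    exact Relation.EqvGen.trans _ _ _ (Relation.EqvGen.symm _ _ (key e he)) (key e' he')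

end Pool.Agent.LibTet88
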