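import Mathlib
import Pool.Agent.LibTet88.Basic
import Pool.Agent.LibTet88.G5
import Pool.Agent.LibTet88.C5
import Pool.Agent.LibTet88.T5
import Pool.Agent.LibTet88.T6

/-! Row Z1.
exists_apex → apex_sep → spanning → trail_of → tet_of_trail.
-/

set_option autoImplicit false

namespace Pool.Agent.LibTet88

open Finset Pool.Agent.LibPol19
open scoped Classical

variable {d : ℕ}

/-- Z1: simple polytopes have Hamiltonian pulling tetrahedralizations -/
theorem simp_ham {V : Finset (Ed 3)} (hV : Simp V) (hne : V.Nonempty) :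
    ∃ w ∈ V, ∃ U : Finset (Finset (Ed 3)),
      (∀ t ∈ U, w ∈ t ∧ t ⊆ V ∧ t.card = 4 ∧ AffineIndependent ℝ (fun x : t => (x.1 : Ed 3))) ∧
      (⋃ t ∈ U, convexHull ℝ (t : Set (Ed 3))) = convexHull ℝ (V : Set (Ed 3)) ∧
      (∀ t ∈ U, ∀ u ∈ U, convexHull ℝ (t : Set (Ed 3)) ∩ convexHull ℝ (u : Set (Ed 3)) =
        convexHull ℝ ((t ∩ u : Finset (Ed 3)) : Set (Ed 3))) ∧
      ∃ f : ℕ → Finset (Ed 3), (∀ i < U.card, f i ∈ U) ∧ (∀ i < U.card, ∀ j < U.card, f i = f j → i = j) ∧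
        ∀ i, i + 1 < U.card → (f i ∩ f (i + 1)).card = 3 := by
  obtain ⟨w, A, B, n, h⟩ := exists_apex hV hne
  obtain ⟨s, t, g, g', hs, ht, hg, hg', hgg, hsep⟩ := apex_sep hV h
  obtain ⟨Γ, hΓ, hconn⟩ := spanning hV h.hw hs ht hsep
  exact ⟨w, h.hw, tet_of_trail hV h.hw (trail_of hV hs ht hΓ hconn hg hg' hgg)⟩

end Pool.Agent.LibTet88
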